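import Pool.Agent.Lib.MP_b54217_ag.C.DefsC

/-!
# THEOREM C.  Degenerations of double points: formal properties
-/

set_option autoImplicit false

namespace Pool.Agent.SV.C

open Polynomial Module

variable {ι : Type} [Fintype ι] [DecidableEq ι] {n : ι → ℕ}

/-- First `W1` with `V ⊓ W2`, then `W2` with `V ⊓ (the first points)`. -/
theorem Deg.inf {m1 m2 : ℕ} {W1 W2 : Submodule ℂ (Rw n)} (h1 : Deg m1 W1) (h2 : Deg m2 W2) :
    Deg (m1 + m2) (W1 ⊓ W2) := by
  intro V hV
  have hV1 : FiniteDimensional ℂ (V ⊓ W2 : Submodule ℂ (Rw n)) :=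
    Submodule.finiteDimensional_of_le inf_le_left
  obtain ⟨P1, hP1, h3⟩ := h1 (V ⊓ W2) hV1
  have hV2 : FiniteDimensional ℂ (V ⊓ ⨅ k, DB (P1 k) : Submodule ℂ (Rw n)) :=
    Submodule.finiteDimensional_of_le inf_le_left
  obtain ⟨P2, hP2, h4⟩ := h2 (V ⊓ ⨅ k, DB (P1 k)) hV2
  refine ⟨Fin.append P1 P2, fun k => ?_, ?_⟩
  · refine Fin.addCases (fun a => ?_) (fun a => ?_) k
    · rw [Fin.append_left]
      exact hP1 a
    · rw [Fin.append_right]
      exact hP2 a
  · have hf : FiniteDimensional ℂ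
        ((V ⊓ ⨅ k, DB (P1 k)) ⊓ ⨅ k, DB (P2 k) : Submodule ℂ (Rw n)) :=
      Submodule.finiteDimensional_of_le inf_le_left
    have hle : V ⊓ ⨅ k, DB (Fin.append P1 P2 k) ≤ (V ⊓ ⨅ k, DB (P1 k)) ⊓ ⨅ k, DB (P2 k) := by
      intro F hF
      obtain ⟨hF1, hF2⟩ := Submodule.mem_inf.1 hF
      rw [Submodule.mem_iInf] at hF2
      refine Submodule.mem_inf.2 ⟨Submodule.mem_inf.2 ⟨hF1, ?_⟩, ?_⟩
      · rw [Submodule.mem_iInf]
        intro a
        have := hF2 (Fin.castAdd m2 a)
        rwa [Fin.append_left] at this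
      · rw [Submodule.mem_iInf]
        intro a
        have := hF2 (Fin.natAdd m1 a)
        rwa [Fin.append_right] at this
    have e1 : ((V ⊓ ⨅ k, DB (P1 k)) ⊓ W2 : Submodule ℂ (Rw n)) =
        (V ⊓ W2) ⊓ ⨅ k, DB (P1 k) := inf_right_comm _ _ _
    have e2 : (V ⊓ (W1 ⊓ W2) : Submodule ℂ (Rw n)) = (V ⊓ W2) ⊓ W1 := by
      rw [inf_comm W1 W2, ← inf_assoc]
    rw [e2]
    rw [e1] at h4
    exact ((Submodule.finrank_mono hle).trans h4).trans h3

omit [Fintype ι] in
theorem achC_self (q : Gr n) (y : ℂ) (i : ι) : (un q y).1 i (q i) = 1 :=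
  Pi.single_eq_same (q i) 1

omit [Fintype ι] in
theorem achC_ne (q : Gr n) (y : ℂ) (i : ι) (l : Fin (n i)) (h : l ≠ q i) :
    (un q y).1 i l = 0 :=
  Pi.single_eq_of_ne h 1

theorem achC_prod (q p : Gr n) (y : ℂ) :
    ∏ i, (un q y).1 i (p i) = if p = q then 1 else 0 := by
  by_cases h : p = q
  · rw [if_pos h, h]
    refine Finset.prod_eq_one fun i _ => ?_
    exact achC_self q y i
  · rw [if_neg h]
    obtain ⟨i, hi⟩ := Function.ne_iff.1 h
    exact Finset.prod_eq_zero (Finset.mem_univ i) (achC_ne q y i _ hi)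

theorem achC_adj {p q : Gr n} (hpq : p ≠ q) (h : 1 ≤ st p q) :
    ∃ i, p i ≠ q i ∧ ∀ i', i' ≠ i → p i' = q i' := by
  have h1 : hammingDist p q = 1 := by
    have h2 : hammingDist p q ≠ 0 := hammingDist_ne_zero.2 hpq
    unfold st at h
    omega
  unfold hammingDist at h1
  obtain ⟨i, hi⟩ := Finset.card_eq_one.1 h1
  refine ⟨i, ?_, fun i' hi' => ?_⟩
  · have h2 : i ∈ ({i | p i ≠ q i} : Finset ι) := by
      rw [hi]
      exact Finset.mem_singleton_self _
    exact (Finset.mem_filter.1 h2).2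
  · by_contra hcon
    have h2 : i' ∈ ({i | p i ≠ q i} : Finset ι) := Finset.mem_filter.2 ⟨Finset.mem_univ _, hcon⟩
    rw [hi] at h2
    exact hi' (Finset.mem_singleton.1 h2)

/-- The double point at the unit vectors. -/
theorem un_mem {q : Gr n} {y : ℂ} {F : Rw n} (hF : F ∈ DB (un q y)) :
    (∀ p, 1 ≤ st p q → (F p).eval y = 0) ∧ (derivative (F q)).eval y = 0 := by
  obtain ⟨h1, h2, h3⟩ := mem_DB.1 hF
  have hall : ∀ g : Gr n → ℂ, ∑ p, (∏ i, (un q y).1 i (p i)) * g p = g q := by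
    intro g
    rw [Finset.sum_eq_single q]
    · rw [achC_prod, if_pos rfl, one_mul]
    · intro p _ hp
      rw [achC_prod, if_neg hp, zero_mul]
    · intro h
      exact absurd (Finset.mem_univ _) h
  refine ⟨fun p hp => ?_, ?_⟩
  · by_cases hpq : p = q
    · rw [hpq, ← h1, hall]
      rfl
    · obtain ⟨i, hi, hi'⟩ := achC_adj hpq hp
      have h4 := h2 i (p i)
      rw [Finset.sum_eq_single p] at h4
      · have h5 : ∏ i' ∈ Finset.univ.erase i, (un q y).1 i' (p i') = 1 := by
          refine Finset.prod_eq_one fun i' hi'' => ?_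
          rw [hi' i' (Finset.ne_of_mem_erase hi'')]
          exact achC_self q y i'
        rw [h5, one_mul] at h4
        exact h4
      · intro p' hp' hne
        have h5 : ∏ i' ∈ Finset.univ.erase i, (un q y).1 i' (p' i') = 0 := by
          have h6 : ∃ i', i' ≠ i ∧ p' i' ≠ q i' := by
            by_contra hcon
            push Not at hcon
            apply hne
            funext i'
            by_cases h7 : i' = i
            · rw [h7]
              exact (Finset.mem_filter.1 hp').2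
            · rw [hcon i' h7, hi' i' h7]
          obtain ⟨i', h7, h8⟩ := h6
          exact Finset.prod_eq_zero (Finset.mem_erase.2 ⟨h7, Finset.mem_univ _⟩)
            (achC_ne q y i' _ h8)
        rw [h5, zero_mul]
      · intro h
        exact absurd (Finset.mem_filter.2 ⟨Finset.mem_univ p, rfl⟩ :
          p ∈ Finset.univ.filter (fun p' : Gr n => p' i = p i)) h
  · rw [hall] at h3
    exact h3

theorem un_good (q : Gr n) (y : ℂ) : Good (un q y) := by
  intro i
  have h1 : ∑ l, (un q y).1 i l = 1 := by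
    rw [Finset.sum_eq_single (q i)]
    · exact achC_self q y i
    · intro l _ hl
      exact achC_ne q y i l hl
    · intro h
      exact absurd (Finset.mem_univ _) h
  rw [h1]
  exact one_ne_zero

theorem Ach.zero : Ach 0 (0 : Gr n → ℕ) := by
  intro bad
  refine ⟨fun _ => 1, fun _ => monic_one, fun _ => natDegree_one, fun _ z _ => ?_, ?_⟩
  · rw [eval_one]
    exact one_ne_zero
  · intro V hV
    refine ⟨fun k => k.elim0, fun k => k.elim0, ?_⟩
    have hf : FiniteDimensional ℂ (V ⊓ DV (fun _ : Gr n => (1 : ℂ[X])) : Submodule ℂ (Rw n)) :=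
      Submodule.finiteDimensional_of_le inf_le_left
    refine Submodule.finrank_mono fun F hF => ?_
    exact Submodule.mem_inf.2 ⟨(Submodule.mem_inf.1 hF).1, fun p => one_dvd _⟩

theorem Deg.mono {m : ℕ} {W W' : Submodule ℂ (Rw n)} (h : Deg m W) (hW : W ≤ W') :
    Deg m W' := by
  intro V hV
  obtain ⟨P, hP, h1⟩ := h V hV
  have hf : FiniteDimensional ℂ (V ⊓ W' : Submodule ℂ (Rw n)) :=
    Submodule.finiteDimensional_of_le inf_le_left
  exact ⟨P, hP, h1.trans (Submodule.finrank_mono (inf_le_inf_left _ hW))⟩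

/-- Choose the second `Q` without common roots with the first. -/
theorem Ach.add {r1 r2 : ℕ} {D1 D2 : Gr n → ℕ} (h1 : Ach r1 D1) (h2 : Ach r2 D2) :
    Ach (r1 + r2) (D1 + D2) := by
  intro bad
  classical
  obtain ⟨Q1, hm1, hd1, he1, hD1⟩ := h1 bad
  obtain ⟨Q2, hm2, hd2, he2, hD2⟩ :=
    h2 (bad ∪ Finset.univ.biUnion fun p => (Q1 p).roots.toFinset)
  refine ⟨Q1 * Q2, fun p => (hm1 p).mul (hm2 p), fun p => ?_, fun p z hz => ?_, ?_⟩
  · rw [Pi.mul_apply, Pi.add_apply, (hm1 p).natDegree_mul (hm2 p), hd1, hd2]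
  · rw [Pi.mul_apply, eval_mul]
    exact mul_ne_zero (he1 p z hz) (he2 p z (Finset.mem_union_left _ hz))
  · refine (Deg.inf hD1 hD2).mono ?_
    intro F hF p
    obtain ⟨hF1, hF2⟩ := Submodule.mem_inf.1 hF
    rw [Pi.mul_apply]
    refine IsCoprime.mul_dvd ?_ (hF1 p) (hF2 p)
    rw [Polynomial.isCoprime_iff_aeval_ne_zero_of_isAlgClosed ℂ ℂ]
    intro a
    by_cases h : (Q1 p).eval a = 0
    · right
      rw [coe_aeval_eq_eval]
      refine he2 p a (Finset.mem_union_right _ ?_)
      rw [Finset.mem_biUnion]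
      exact ⟨p, Finset.mem_univ _, Multiset.mem_toFinset.2
        ((mem_roots (hm1 p).ne_zero).2 h)⟩
    · left
      rw [coe_aeval_eq_eval]
      exact h

/-- `Q p = (X - y) ^ st p q`, `y ∉ bad`. -/
theorem Ach.unit (q : Gr n) : Ach 1 (fun p => st p q) := by
  intro bad
  obtain ⟨y, hy⟩ := Infinite.exists_notMem_finset bad
  refine ⟨fun p => (X - C y) ^ st p q, fun p => (monic_X_sub_C y).pow _, fun p => ?_,
    fun p z hz => ?_, ?_⟩
  · rw [natDegree_pow, natDegree_X_sub_C, mul_one]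
  · rw [eval_pow, eval_sub, eval_X, eval_C]
    refine pow_ne_zero _ (sub_ne_zero.2 ?_)
    rintro rfl
    exact hy hz
  · intro V hV
    refine ⟨fun _ => un q y, fun _ => un_good q y, ?_⟩
    have hf : FiniteDimensional ℂ
        (V ⊓ DV (fun p : Gr n => (X - C y) ^ st p q) : Submodule ℂ (Rw n)) :=
      Submodule.finiteDimensional_of_le inf_le_left
    refine Submodule.finrank_mono fun F hF => ?_
    obtain ⟨hF1, hF2⟩ := Submodule.mem_inf.1 hF
    rw [Submodule.mem_iInf] at hF2
    obtain ⟨h1, h2⟩ := un_mem (hF2 0)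
    refine Submodule.mem_inf.2 ⟨hF1, fun p => ?_⟩
    change (X - C y) ^ st p q ∣ F p
    by_cases h0 : st p q = 0
    · rw [h0, pow_zero]
      exact one_dvd _
    · by_cases h3 : p = q
      · have h4 : st p q = 2 := by
          rw [h3, st, hammingDist_self]
        have hr : (F p).eval y = 0 := h1 p (by omega)
        have hr' : (derivative (F p)).eval y = 0 := by rw [h3]; exact h2
        obtain ⟨G, hG⟩ := dvd_iff_isRoot.2 hr
        rw [hG] at hr'
        simp only [derivative_mul, derivative_sub, derivative_X, derivative_C, sub_zero, one_mul,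
          eval_add, eval_mul, eval_sub, eval_X, eval_C, sub_self, zero_mul, add_zero] at hr'
        obtain ⟨G', hG'⟩ := dvd_iff_isRoot.2 hr'
        rw [h4, hG, hG', sq]
        exact ⟨G', by ring⟩
      · have h4 : st p q = 1 := by
          have h5 : hammingDist p q ≠ 0 := hammingDist_ne_zero.2 h3
          unfold st at h0 ⊢
          omega
        rw [h4, pow_one]
        exact dvd_iff_isRoot.2 (h1 p (by omega))

/-- polynomials of bounded degree times `Q p` -/
noncomputable def achC_map (e : Gr n → ℕ) (Q : Gr n → ℂ[X]) :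
    ((p : Gr n) → Fin (e p) → ℂ) →ₗ[ℂ] Rw n :=
  LinearMap.pi fun p => (LinearMap.mulLeft ℂ (Q p)).comp
    ((degreeLT ℂ (e p)).subtype.comp
      ((degreeLTEquiv ℂ (e p)).symm.toLinearMap.comp (LinearMap.proj p)))

omit [Fintype ι] [DecidableEq ι] in
theorem achC_range (e : Gr n → ℕ) (Q : Gr n → ℂ[X]) (F : Rw n)
    (h : ∀ p, ∃ G ∈ degreeLT ℂ (e p), F p = Q p * G) :
    F ∈ LinearMap.range (achC_map e Q) := by
  choose G hG hF using h
  refine ⟨fun p => degreeLTEquiv ℂ (e p) ⟨G p, hG p⟩, ?_⟩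
  funext p
  rw [hF p]
  change Q p * ((((degreeLTEquiv ℂ (e p)).symm (degreeLTEquiv ℂ (e p) ⟨G p, hG p⟩)) :
    degreeLT ℂ (e p)) : ℂ[X]) = Q p * G p
  rw [LinearEquiv.symm_apply_apply]

/-- The dimension of the rows of degree `< c` divisible by `Q`. -/
theorem finrank_DG_DV (c : ℕ) (Q : Gr n → ℂ[X]) (hQ : ∀ p, (Q p).Monic) :
    FiniteDimensional ℂ (DG n c) ∧
    finrank ℂ (DG n c ⊓ DV Q : Submodule ℂ (Rw n)) ≤ ∑ p, (c - (Q p).natDegree) := by
  classical
  constructor
  · have hr : FiniteDimensional ℂ (LinearMap.range (achC_map (fun _ : Gr n => c)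
        (fun _ : Gr n => (1 : ℂ[X])))) := inferInstance
    refine Submodule.finiteDimensional_of_le (S₂ := LinearMap.range (achC_map
      (fun _ : Gr n => c) (fun _ : Gr n => (1 : ℂ[X])))) fun F hF => ?_
    refine achC_range _ _ F fun p => ?_
    exact ⟨F p, hF p, (one_mul _).symm⟩
  · have hle : (DG n c ⊓ DV Q : Submodule ℂ (Rw n)) ≤
        LinearMap.range (achC_map (fun p : Gr n => c - (Q p).natDegree) Q) := by
      intro F hF
      obtain ⟨hF1, hF2⟩ := Submodule.mem_inf.1 hF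
      refine achC_range _ _ F fun p => ?_
      obtain ⟨G, hG⟩ := hF2 p
      refine ⟨G, ?_, hG⟩
      rw [mem_degreeLT]
      by_cases hG0 : G = 0
      · rw [hG0, degree_zero]
        exact WithBot.bot_lt_coe _
      · have h1 := mem_degreeLT.1 (hF1 p)
        have h2 : F p ≠ 0 := by
          rw [hG]
          exact mul_ne_zero (hQ p).ne_zero hG0
        rw [degree_eq_natDegree h2, Nat.cast_lt] at h1
        rw [degree_eq_natDegree hG0, Nat.cast_lt]
        have h3 : (F p).natDegree = (Q p).natDegree + G.natDegree := by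
          rw [hG, natDegree_mul (hQ p).ne_zero hG0]
        omega
    refine (Submodule.finrank_mono hle).trans ?_
    refine (LinearMap.finrank_range_le _).trans ?_
    rw [Module.finrank_pi_fintype]
    refine le_of_eq (Finset.sum_congr rfl fun p _ => ?_)
    rw [Module.finrank_fin_fun]

theorem Ach.fin {r : ℕ} {D : Gr n → ℕ} (h : Ach r D) (c : ℕ) :
    ∃ P : Fin r → Pt n, (∀ k, Good (P k)) ∧
      finrank ℂ (DG n c ⊓ ⨅ k, DB (P k) : Submodule ℂ (Rw n)) ≤ ∑ p, (c - D p) := by
  obtain ⟨Q, hm, hd, -, hD⟩ := h ∅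
  obtain ⟨h1, h2⟩ := finrank_DG_DV c Q hm
  obtain ⟨P, hP, h3⟩ := hD (DG n c) h1
  refine ⟨P, hP, h3.trans (h2.trans (le_of_eq ?_))⟩
  exact Finset.sum_congr rfl fun p _ => by rw [hd]

end Pool.Agent.SV.C
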