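import Pool.Agent.Lib.MP_b54217_ag.A.PZero

/-!
# THEOREM C.  The order of the factors does not matter
-/

set_option autoImplicit false

namespace Pool.Agent.SV.C

open Pool.Agent.SV

variable {k k' : ℕ}

/-- The value of `pt` after a permutation. -/
private theorem pt_perm (e : Fin k ≃ Fin k') (n d : Fin k' → ℕ) (l : (j : Fin k') → Fin (n j) → ℂ)
    (m : Idx n d) :
    pt (n ∘ e) (d ∘ e) (fun a => l (e a)) (fun a => m (e a)) = pt n d l m := by
  rw [pt, pt]
  exact Equiv.prod_comp e fun j =>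
    (Nat.multinomial Finset.univ (m j).1 : ℂ) * ∏ i, l j i ^ (m j).1 i

/-- `Equiv.piCongrLeft`. -/
theorem idx_perm (e : Fin k ≃ Fin k') (n d : Fin k' → ℕ) :
    ∃ f : Idx (n ∘ e) (d ∘ e) ≃ Idx n d, ∀ r, rankLocus (n ∘ e) (d ∘ e) r =
      (fun w => w ∘ f) '' rankLocus n d r := by
  obtain ⟨f, hf⟩ : ∃ f : Idx (n ∘ e) (d ∘ e) ≃ Idx n d, ∀ m : Idx n d,
      f.symm m = fun a => m (e a) := by
    refine ⟨Equiv.piCongrLeft (fun j =>
      {m : Fin (n j) → ℕ // m ∈ Finset.Nat.antidiagonalTuple (n j) (d j)}) e, fun m => ?_⟩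
    rfl
  refine ⟨f, fun r => ?_⟩
  ext w
  constructor
  · rintro ⟨c, l, rfl⟩
    obtain ⟨l', hl'⟩ : ∃ l' : Fin r → (j : Fin k') → Fin (n j) → ℂ,
        ∀ i, (fun a => l' i (e a)) = l i := by
      refine ⟨fun i => (Equiv.piCongrLeft (fun j => Fin (n j) → ℂ) e) (l i), fun i => ?_⟩
      exact (Equiv.piCongrLeft (fun j => Fin (n j) → ℂ) e).symm_apply_apply (l i)
    refine ⟨∑ i, c i • pt n d (l' i), ⟨_, _, rfl⟩, ?_⟩
    funext m
    obtain ⟨m', rfl⟩ := f.symm.surjective m
    change (∑ i, c i • pt n d (l' i)) (f (f.symm m')) = _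
    rw [f.apply_symm_apply, Finset.sum_apply, Finset.sum_apply]
    refine Finset.sum_congr rfl fun i _ => ?_
    rw [Pi.smul_apply, Pi.smul_apply, ← hl' i, hf, pt_perm]
  · rintro ⟨w, ⟨c, l, rfl⟩, rfl⟩
    refine ⟨c, fun i a => l i (e a), ?_⟩
    funext m
    obtain ⟨m', rfl⟩ := f.symm.surjective m
    change (∑ i, c i • pt n d (l i)) (f (f.symm m')) = _
    rw [f.apply_symm_apply, Finset.sum_apply, Finset.sum_apply]
    refine Finset.sum_congr rfl fun i _ => ?_
    rw [Pi.smul_apply, Pi.smul_apply, hf]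
    congr 1
    exact (pt_perm e n d (l i) m').symm

/-- `A.krull_reindex`. -/
theorem secDim_perm (e : Fin k ≃ Fin k') (n d : Fin k' → ℕ) (r : ℕ) :
    secDim (n ∘ e) (d ∘ e) r = secDim n d r := by
  obtain ⟨f, hf⟩ := idx_perm e n d
  rw [secDim, secDim, hf r]
  exact A.krull_reindex f _

theorem svDim_perm (e : Fin k ≃ Fin k') (n d : Fin k' → ℕ) :
    svDim (n ∘ e) (d ∘ e) = svDim n d :=
  Equiv.sum_comp e fun j => if d j = 0 then 0 else n j - 1

theorem card_perm (e : Fin k ≃ Fin k') (n d : Fin k' → ℕ) :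
    Fintype.card (Idx (n ∘ e) (d ∘ e)) = Fintype.card (Idx n d) := by
  obtain ⟨f, -⟩ := idx_perm e n d
  exact Fintype.card_congr f

theorem defective_perm (e : Fin k ≃ Fin k') (n d : Fin k' → ℕ) (r : ℕ) :
    Defective (n ∘ e) (d ∘ e) r ↔ Defective n d r := by
  rw [Defective, Defective, secDim_perm, svDim_perm, card_perm]

/-- Two factors in any order. -/
theorem perm_two (n d : Fin k → ℕ) {i j : Fin k} (hij : i ≠ j) (h : ∀ l, l = i ∨ l = j) :
    ∃ e : Fin 2 ≃ Fin k, n ∘ e = ![n i, n j] ∧ d ∘ e = ![d i, d j] := by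
  have hb : Function.Bijective (![i, j] : Fin 2 → Fin k) := by
    constructor
    · intro a b hab
      fin_cases a <;> fin_cases b
      · rfl
      · exact absurd hab hij
      · exact absurd hab.symm hij
      · rfl
    · intro l
      rcases h l with rfl | rfl
      · exact ⟨0, rfl⟩
      · exact ⟨1, rfl⟩
  refine ⟨Equiv.ofBijective _ hb, ?_, ?_⟩ <;> funext a <;> fin_cases a <;> rfl

/-- Three factors in any order. -/
theorem perm_three (n d : Fin k → ℕ) {i i' j : Fin k} (h1 : i ≠ i') (h2 : i ≠ j) (h3 : i' ≠ j)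
    (h : ∀ l, l = i ∨ l = i' ∨ l = j) :
    ∃ e : Fin 3 ≃ Fin k, n ∘ e = ![n i, n i', n j] ∧ d ∘ e = ![d i, d i', d j] := by
  have hb : Function.Bijective (![i, i', j] : Fin 3 → Fin k) := by
    constructor
    · intro a b hab
      fin_cases a <;> fin_cases b
      · rfl
      · exact absurd hab h1
      · exact absurd hab h2
      · exact absurd hab.symm h1
      · rfl
      · exact absurd hab h3
      · exact absurd hab.symm h2
      · exact absurd hab.symm h3
      · rfl
    · intro l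
      rcases h l with rfl | rfl | rfl
      · exact ⟨0, rfl⟩
      · exact ⟨1, rfl⟩
      · exact ⟨2, rfl⟩
  refine ⟨Equiv.ofBijective _ hb, ?_, ?_⟩ <;> funext a <;> fin_cases a <;> rfl

end Pool.Agent.SV.C
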