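import Pool.Agent.Lib.MP_b54217_ag.A.Kap
import Pool.Agent.Lib.MP_b54217_ag.I.Dd

/-!
# THEOREM C.  The family `P^b × P^1`, `(2, d)`: points at the unit vectors

`q α` points at `(e_α, y_(α,s))`.  A form of bidegree `(2, d)` is `∑_(α ≤ β) u_α u_β F_(αβ)(y)`; in
affine coordinates `F_(αα) = F(e_α, y)`, `F_(αβ) = 4 F((e_α + e_β)/2, y) - F(e_α, y) - F(e_β, y)`,
where `e_0 = 0` is the origin.  Double at `(e_α, y)`: `F_(αα)` vanishes twice and `F_(αβ)` once at
`y`.  So `F_(αβ)` is divisible by `P_α P_β`, `P_α = ∏_s (Y - y_(α,s))`.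
-/

set_option autoImplicit false

namespace Pool.Agent.SV.C

open Module Pool.Agent.SV.E Pool.Agent.SV.A
open Pool.Agent.SV.G (Sg DD mem_DD)

/-- Polynomials of degree `< c`, divisible by monic polynomials. -/
theorem finrank_pi_dvd {I : Type} [Fintype I] (c : ℕ) (Q : I → Polynomial ℂ)
    (hQ : ∀ p, (Q p).Monic) (W : Submodule ℂ (I → Polynomial ℂ))
    (hW : ∀ F ∈ W, ∀ p, F p ∈ Polynomial.degreeLT ℂ c ∧ Q p ∣ F p) :
    FiniteDimensional ℂ W ∧ finrank ℂ W ≤ ∑ p, (c - (Q p).natDegree) := by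
  classical
  obtain ⟨e, he⟩ : ∃ e : I → ℕ, ∀ p, e p = c - (Q p).natDegree := ⟨_, fun _ => rfl⟩
  let f : ((p : I) → Fin (e p) → ℂ) →ₗ[ℂ] (I → Polynomial ℂ) :=
    LinearMap.pi fun p => (LinearMap.mulLeft ℂ (Q p)).comp
      ((Polynomial.degreeLT ℂ (e p)).subtype.comp
        ((Polynomial.degreeLTEquiv ℂ (e p)).symm.toLinearMap.comp (LinearMap.proj p)))
  have hle : W ≤ LinearMap.range f := by
    intro F hF
    have h : ∀ p, ∃ G ∈ Polynomial.degreeLT ℂ (e p), F p = Q p * G := by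
      intro p
      obtain ⟨hF1, G, hG⟩ := hW F hF p
      refine ⟨G, ?_, hG⟩
      rw [Polynomial.mem_degreeLT]
      by_cases hG0 : G = 0
      · rw [hG0, Polynomial.degree_zero]
        exact WithBot.bot_lt_coe _
      · have h1 := Polynomial.mem_degreeLT.1 hF1
        have h2 : F p ≠ 0 := by
          rw [hG]
          exact mul_ne_zero (hQ p).ne_zero hG0
        rw [Polynomial.degree_eq_natDegree h2, Nat.cast_lt] at h1
        rw [Polynomial.degree_eq_natDegree hG0, Nat.cast_lt, he p]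
        have h3 : (F p).natDegree = (Q p).natDegree + G.natDegree := by
          rw [hG, Polynomial.natDegree_mul (hQ p).ne_zero hG0]
        omega
    choose G hG hF' using h
    refine ⟨fun p => Polynomial.degreeLTEquiv ℂ (e p) ⟨G p, hG p⟩, ?_⟩
    funext p
    rw [hF' p]
    change Q p * ((((Polynomial.degreeLTEquiv ℂ (e p)).symm
      (Polynomial.degreeLTEquiv ℂ (e p) ⟨G p, hG p⟩)) :
      Polynomial.degreeLT ℂ (e p)) : Polynomial ℂ) = Q p * G p
    rw [LinearEquiv.symm_apply_apply]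
  have hfd : FiniteDimensional ℂ (LinearMap.range f) := inferInstance
  refine ⟨Submodule.finiteDimensional_of_le hle, ?_⟩
  refine (Submodule.finrank_mono hle).trans ?_
  refine (LinearMap.finrank_range_le _).trans ?_
  rw [Module.finrank_pi_fintype]
  refine le_of_eq (Finset.sum_congr rfl fun p _ => ?_)
  rw [Module.finrank_fin_fun, he p]

/-- The affine point number `α`: `0` for `α = 0`, the unit vector `e_l` for `α = l + 1` (only the
coordinates of the first block matter). -/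
noncomputable def av {b : ℕ} (α : Fin (b + 1)) (v : Sg ![b, 1]) : ℂ :=
  if (α : ℕ) = (v.2 : ℕ) + 1 then 1 else 0

/-- Substitute `x` in the first block and the variable in the second. -/
noncomputable def th2 {b : ℕ} (x : Sg ![b, 1] → ℂ) :
    MvPolynomial (Sg ![b, 1]) ℂ →ₐ[ℂ] Polynomial ℂ :=
  MvPolynomial.aeval fun v => if v.1 = 0 then Polynomial.C (x v) else Polynomial.X

/-- The rows. -/
noncomputable def row2 {b : ℕ} (p : {p : Fin (b + 1) × Fin (b + 1) // p.1 ≤ p.2}) :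
    MvPolynomial (Sg ![b, 1]) ℂ →ₗ[ℂ] Polynomial ℂ :=
  if p.1.1 = p.1.2 then (th2 (av p.1.1)).toLinearMap
  else (4 : ℂ) • (th2 fun v => (av p.1.1 v + av p.1.2 v) / 2).toLinearMap -
    (th2 (av p.1.1)).toLinearMap - (th2 (av p.1.2)).toLinearMap

/-! ### The monomials -/

/-- The variable of the second block. -/
def yv {b : ℕ} : Sg ![b, 1] := ⟨1, (0 : Fin 1)⟩

/-- The variables of the first block. -/
def xv {b : ℕ} (l : Fin b) : Sg ![b, 1] := ⟨0, l⟩

theorem xv_ne_yv {b : ℕ} (l : Fin b) : xv l ≠ yv := by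
  intro h
  have := congrArg Sigma.fst h
  exact absurd this (by simp [xv, yv])

theorem cls2 {b : ℕ} (a : Fin b → ℕ) (ha : ∑ l, a l ≤ 2) :
    (∀ l, a l = 0) ∨ (∃ l0, a = Pi.single l0 1) ∨ ∃ l0 l1, a = Pi.single l0 1 + Pi.single l1 1 := by
  classical
  by_cases h0 : ∀ l, a l = 0
  · exact Or.inl h0
  right
  push Not at h0
  obtain ⟨l0, hl0⟩ := h0
  have key : ∀ a' : Fin b → ℕ, ∀ l, a' l ≠ 0 → ∃ a'' : Fin b → ℕ, a' = Pi.single l 1 + a'' ∧
      ∑ l, a' l = 1 + ∑ l, a'' l := by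
    intro a' l hl
    refine ⟨a' - Pi.single l 1, ?_, ?_⟩
    · funext m
      by_cases hm : m = l
      · subst hm
        simp only [Pi.add_apply, Pi.sub_apply, Pi.single_eq_same]
        omega
      · simp [Pi.single_eq_of_ne hm]
    · have h1 : ∑ m, a' m = ∑ m, ((Pi.single l 1 : Fin b → ℕ) m +
          (a' - (Pi.single l 1 : Fin b → ℕ)) m) := by
        refine Finset.sum_congr rfl fun m _ => ?_
        by_cases hm : m = l
        · subst hm
          simp only [Pi.sub_apply, Pi.single_eq_same]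
          omega
        · simp [Pi.single_eq_of_ne hm]
      rw [h1, Finset.sum_add_distrib, Finset.sum_pi_single' l 1 Finset.univ,
        if_pos (Finset.mem_univ _)]
  obtain ⟨a1, h1, h2⟩ := key a l0 hl0
  by_cases h3 : ∀ l, a1 l = 0
  · left
    refine ⟨l0, ?_⟩
    rw [h1]
    funext m
    rw [Pi.add_apply, h3 m, add_zero]
  right
  push Not at h3
  obtain ⟨l1, hl1⟩ := h3
  obtain ⟨a2, h4, h5⟩ := key a1 l1 hl1
  refine ⟨l0, l1, ?_⟩
  have h6 : ∑ l, a2 l = 0 := by omega
  have h7 : a2 = 0 := by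
    funext m
    exact (Finset.sum_eq_zero_iff.1 h6) m (Finset.mem_univ _)
  rw [h1, h4, h7, add_zero]

/-- Induction on the monomials of bidegree `(2, d)`. -/
theorem ind2 {b d : ℕ} (W : Submodule ℂ (MvPolynomial (Sg ![b, 1]) ℂ))
    (h0 : ∀ t ≤ d, MvPolynomial.X yv ^ t ∈ W)
    (h1 : ∀ l, ∀ t ≤ d, MvPolynomial.X (xv l) * MvPolynomial.X yv ^ t ∈ W)
    (h2 : ∀ l l', ∀ t ≤ d, MvPolynomial.X (xv l) * MvPolynomial.X (xv l') *
      MvPolynomial.X yv ^ t ∈ W) : H (DD ![b, 1] ![2, d]) ≤ W := by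
  classical
  intro F hF
  rw [F.as_sum]
  refine Submodule.sum_mem _ fun a ha => ?_
  have ha' := mem_DD.1 (mem_H.1 hF ha)
  have hx : ∑ l : Fin b, a (xv l) ≤ 2 := ha' 0
  have hy : a yv ≤ d := by
    have : ∑ l : Fin 1, a ⟨1, l⟩ ≤ d := ha' 1
    simpa [yv] using this
  obtain ⟨c, hc⟩ : ∃ c, c = MvPolynomial.coeff a F := ⟨_, rfl⟩
  rw [← hc]
  have hm : MvPolynomial.monomial a c = c • ((∏ l : Fin b, MvPolynomial.X (xv l) ^ a (xv l)) *
      (MvPolynomial.X yv ^ a yv : MvPolynomial (Sg ![b, 1]) ℂ)) := by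
    rw [MvPolynomial.monomial_eq, Finsupp.prod_fintype _ _ (fun _ => pow_zero _),
      MvPolynomial.smul_eq_C_mul, Fintype.prod_sigma, Fin.prod_univ_two]
    congr 2
    exact Fin.prod_univ_one _
  rw [hm]
  refine Submodule.smul_mem _ _ ?_
  have hps : ∀ l0 : Fin b, ∏ l : Fin b, (MvPolynomial.X (xv l) : MvPolynomial (Sg ![b, 1]) ℂ) ^
      (Pi.single l0 1 : Fin b → ℕ) l = MvPolynomial.X (xv l0) := by
    intro l0
    rw [Finset.prod_eq_single l0]
    · rw [Pi.single_eq_same, pow_one]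
    · intro l _ hl
      rw [Pi.single_eq_of_ne hl, pow_zero]
    · intro h
      exact absurd (Finset.mem_univ _) h
  rcases cls2 (fun l : Fin b => a (xv l)) hx with h | ⟨l0, h⟩ | ⟨l0, l1, h⟩
  · rw [Finset.prod_eq_one fun l _ => by rw [h l, pow_zero], one_mul]
    exact h0 _ hy
  · rw [Finset.prod_congr rfl fun l _ => by rw [congrFun h l], hps]
    exact h1 _ _ hy
  · rw [Finset.prod_congr rfl fun l _ => by rw [congrFun h l, Pi.add_apply, pow_add],
      Finset.prod_mul_distrib, hps, hps]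
    exact h2 _ _ _ hy

/-! ### Values -/

/-- The point `(x, y)`. -/
noncomputable def mx {b : ℕ} (x : Sg ![b, 1] → ℂ) (y : ℂ) (v : Sg ![b, 1]) : ℂ :=
  if v.1 = 0 then x v else y

theorem mx_x {b : ℕ} (x : Sg ![b, 1] → ℂ) (y : ℂ) (l : Fin b) : mx x y (xv l) = x (xv l) :=
  if_pos rfl

theorem mx_y {b : ℕ} (x : Sg ![b, 1] → ℂ) (y : ℂ) : mx x y yv = y :=
  if_neg (by simp [yv])

theorem sg_cases {b : ℕ} (v : Sg ![b, 1]) : v = yv ∨ ∃ l, v = xv l := by
  obtain ⟨i, l⟩ := v
  revert l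
  refine Fin.cases ?_ (fun i => ?_) i
  · intro l
    exact Or.inr ⟨l, rfl⟩
  · have hi : i = 0 := Subsingleton.elim _ _
    subst hi
    intro l
    left
    have hl : l = (0 : Fin 1) := Subsingleton.elim (α := Fin 1) _ _
    subst hl
    rfl

theorem mx_self {b : ℕ} (P : Sg ![b, 1] → ℂ) : mx P (P yv) = P := by
  funext v
  rcases sg_cases v with h | ⟨l, h⟩
  · rw [h, mx_y]
  · rw [h, mx_x]

theorem th2_x {b : ℕ} (x : Sg ![b, 1] → ℂ) (l : Fin b) :
    th2 x (MvPolynomial.X (xv l)) = Polynomial.C (x (xv l)) := by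
  rw [th2, MvPolynomial.aeval_X]
  exact if_pos rfl

theorem th2_y {b : ℕ} (x : Sg ![b, 1] → ℂ) :
    th2 x (MvPolynomial.X yv) = Polynomial.X := by
  rw [th2, MvPolynomial.aeval_X]
  exact if_neg (by simp [yv])

/-- The value of the row. -/
theorem th2_eval {b : ℕ} (x : Sg ![b, 1] → ℂ) (y : ℂ) (F : MvPolynomial (Sg ![b, 1]) ℂ) :
    (th2 x F).eval y = ev (mx x y) F := by
  induction F using MvPolynomial.induction_on with
  | C a => rw [ev_apply, MvPolynomial.eval_C, th2, MvPolynomial.aeval_C,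
      Polynomial.algebraMap_eq, Polynomial.eval_C]
  | add f g hf hg => rw [map_add, Polynomial.eval_add, hf, hg, map_add]
  | mul_X f v hf =>
    rw [map_mul, Polynomial.eval_mul, hf, ev_apply, ev_apply, map_mul, MvPolynomial.eval_X]
    rcases sg_cases v with h | ⟨l, h⟩
    · rw [h, mx_y, th2_y, Polynomial.eval_X]
    · rw [h, mx_x, th2_x, Polynomial.eval_C]

/-- The derivative of the row. -/
theorem th2_deriv {b : ℕ} (x : Sg ![b, 1] → ℂ) (F : MvPolynomial (Sg ![b, 1]) ℂ) :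
    Polynomial.derivative (th2 x F) = th2 x (MvPolynomial.pderiv yv F) := by
  classical
  induction F using MvPolynomial.induction_on with
  | C a => rw [MvPolynomial.pderiv_C, map_zero, th2, MvPolynomial.aeval_C,
      Polynomial.algebraMap_eq, Polynomial.derivative_C]
  | add f g hf hg => rw [map_add, Polynomial.derivative_add, hf, hg, map_add, map_add]
  | mul_X f v hf =>
    rw [map_mul, Polynomial.derivative_mul, hf, Derivation.leibniz, map_add, smul_eq_mul,
      smul_eq_mul, map_mul, map_mul]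
    rcases sg_cases v with h | ⟨l, h⟩
    · rw [h, MvPolynomial.pderiv_X_self, th2_y, Polynomial.derivative_X, map_one]
      ring
    · rw [h, MvPolynomial.pderiv_X_of_ne (xv_ne_yv l), th2_x, Polynomial.derivative_C, map_zero]
      ring

/-! ### Two identities for quadratic polynomials -/

/-- The midpoint. -/
theorem mid_id {b d : ℕ} (x z : Sg ![b, 1] → ℂ) (y : ℂ) {F : MvPolynomial (Sg ![b, 1]) ℂ}
    (hF : F ∈ H (DD ![b, 1] ![2, d])) :
    4 * ev (mx (fun v => (x v + z v) / 2) y) F - ev (mx x y) F - ev (mx z y) F =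
      2 * ev (mx x y) F + ∑ l : Fin b, (z (xv l) - x (xv l)) * dv (xv l) (mx x y) F := by
  classical
  let f : MvPolynomial (Sg ![b, 1]) ℂ →ₗ[ℂ] ℂ :=
    (4 : ℂ) • ev (mx (fun v => (x v + z v) / 2) y) - ev (mx x y) - ev (mx z y)
  let g : MvPolynomial (Sg ![b, 1]) ℂ →ₗ[ℂ] ℂ :=
    (2 : ℂ) • ev (mx x y) + ∑ l : Fin b, (z (xv l) - x (xv l)) • dv (xv l) (mx x y)
  have hf : ∀ F, f F = 4 * ev (mx (fun v => (x v + z v) / 2) y) F - ev (mx x y) F -
      ev (mx z y) F := fun F => rfl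
  have hg : ∀ F, g F = 2 * ev (mx x y) F + ∑ l : Fin b, (z (xv l) - x (xv l)) *
      dv (xv l) (mx x y) F := by
    intro F
    simp only [g, LinearMap.add_apply, LinearMap.smul_apply, LinearMap.sum_apply, smul_eq_mul]
  rw [← hf, ← hg]
  have hd : ∀ l : Fin b, ∀ t, MvPolynomial.pderiv (xv l) (MvPolynomial.X yv ^ t :
      MvPolynomial (Sg ![b, 1]) ℂ) = 0 := by
    intro l t
    rw [Derivation.leibniz_pow, MvPolynomial.pderiv_X_of_ne (xv_ne_yv l).symm, smul_zero,
      smul_zero]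
  have hx : ∀ l l' : Fin b, MvPolynomial.pderiv (xv l) (MvPolynomial.X (xv l') :
      MvPolynomial (Sg ![b, 1]) ℂ) = if l' = l then 1 else 0 := by
    intro l l'
    split_ifs with h
    · rw [h, MvPolynomial.pderiv_X_self]
    · refine MvPolynomial.pderiv_X_of_ne fun h' => h ?_
      have := (Sigma.mk.injEq _ _ _ _).mp h'
      exact eq_of_heq this.2
  have key := ind2 (d := d) (LinearMap.eqLocus f g) ?_ ?_ ?_ hF
  · exact key
  · intro t _
    rw [LinearMap.mem_eqLocus, hf, hg, Finset.sum_eq_zero fun l _ => by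
      rw [dv_apply, hd, map_zero, mul_zero]]
    simp only [ev_apply, map_pow, MvPolynomial.eval_X, mx_y]
    ring
  · intro l t _
    rw [LinearMap.mem_eqLocus, hf, hg, Finset.sum_eq_single l]
    · rw [dv_apply, Derivation.leibniz, hd, hx, if_pos rfl, smul_zero, zero_add, smul_eq_mul,
        mul_one]
      simp only [ev_apply, map_pow, MvPolynomial.eval_X, mx_y, mx_x, map_mul]
      ring
    · intro l' _ hl'
      rw [dv_apply, Derivation.leibniz, hd, hx, if_neg (Ne.symm hl')]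
      simp
    · intro h
      exact absurd (Finset.mem_univ _) h
  · intro l l' t _
    rw [LinearMap.mem_eqLocus, hf, hg]
    have h1 : ∀ m : Fin b, (z (xv m) - x (xv m)) * dv (xv m) (mx x y)
        (MvPolynomial.X (xv l) * MvPolynomial.X (xv l') * MvPolynomial.X yv ^ t) =
        (if l' = m then (z (xv m) - x (xv m)) * (x (xv l) * y ^ t) else 0) +
        (if l = m then (z (xv m) - x (xv m)) * (x (xv l') * y ^ t) else 0) := by
      intro m
      rw [dv_apply, Derivation.leibniz, Derivation.leibniz, hd, hx, hx]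
      split_ifs <;>
      simp only [map_pow, MvPolynomial.eval_X, mx_y, mx_x, map_mul, zero_add,
        smul_eq_mul, map_add, mul_one, add_zero, mul_zero, map_zero] <;> ring
    rw [Finset.sum_congr rfl fun m _ => h1 m, Finset.sum_add_distrib, Finset.sum_ite_eq,
      Finset.sum_ite_eq, if_pos (Finset.mem_univ _), if_pos (Finset.mem_univ _)]
    simp only [ev_apply, map_pow, MvPolynomial.eval_X, mx_y, mx_x, map_mul]
    ring

/-- The barycentric coordinates. -/
noncomputable def bc {b : ℕ} (P : Sg ![b, 1] → ℂ) : Fin (b + 1) → ℂ :=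
  Fin.cons (1 - ∑ l : Fin b, P (xv l)) fun l => P (xv l)

theorem bc_sum {b : ℕ} (P : Sg ![b, 1] → ℂ) : ∑ α, bc P α = 1 := by
  rw [Fin.sum_univ_succ]
  simp [bc]

theorem av_x {b : ℕ} (α : Fin (b + 1)) (l : Fin b) : av α (xv l) = if α = l.succ then 1 else 0 := by
  rw [av]
  refine if_congr ?_ rfl rfl
  rw [Fin.ext_iff, Fin.val_succ]
  rfl

theorem bc_av {b : ℕ} (P : Sg ![b, 1] → ℂ) (l : Fin b) : ∑ α, bc P α * av α (xv l) = P (xv l) := by
  rw [Finset.sum_eq_single l.succ]
  · rw [av_x, if_pos rfl, mul_one, bc, Fin.cons_succ]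
  · intro α _ hα
    rw [av_x, if_neg hα, mul_zero]
  · intro h
    exact absurd (Finset.mem_univ _) h

theorem bc_id {b d : ℕ} (P : Sg ![b, 1] → ℂ) {F : MvPolynomial (Sg ![b, 1]) ℂ}
    (hF : F ∈ H (DD ![b, 1] ![2, d])) :
    ev P F = ∑ α, ∑ β, bc P α * bc P β * (2 * ev (mx (fun v => (av α v + av β v) / 2) (P yv)) F -
      1 / 2 * ev (mx (av α) (P yv)) F - 1 / 2 * ev (mx (av β) (P yv)) F) := by
  classical
  let f : MvPolynomial (Sg ![b, 1]) ℂ →ₗ[ℂ] ℂ := ev P
  let g : MvPolynomial (Sg ![b, 1]) ℂ →ₗ[ℂ] ℂ :=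
    ∑ α, ∑ β, (bc P α * bc P β) • ((2 : ℂ) • ev (mx (fun v => (av α v + av β v) / 2) (P yv)) -
      (1 / 2 : ℂ) • ev (mx (av α) (P yv)) - (1 / 2 : ℂ) • ev (mx (av β) (P yv)))
  have hg : ∀ F, g F = ∑ α, ∑ β, bc P α * bc P β *
      (2 * ev (mx (fun v => (av α v + av β v) / 2) (P yv)) F -
      1 / 2 * ev (mx (av α) (P yv)) F - 1 / 2 * ev (mx (av β) (P yv)) F) := by
    intro F
    simp only [g, LinearMap.sub_apply, LinearMap.smul_apply, LinearMap.sum_apply, smul_eq_mul]
  rw [← hg]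
  have hs : ∀ u w : Fin (b + 1) → ℂ, ∑ α, ∑ β, bc P α * bc P β * (u α * w β) =
      (∑ α, bc P α * u α) * ∑ β, bc P β * w β := by
    intro u w
    rw [Finset.sum_mul_sum]
    exact Finset.sum_congr rfl fun α _ => Finset.sum_congr rfl fun β _ => by ring
  have hs' : ∀ (c : ℂ) (u w : Fin (b + 1) → Fin (b + 1) → ℂ), ∑ α, ∑ β, (u α β + w α β) * c =
      ((∑ α, ∑ β, u α β) + ∑ α, ∑ β, w α β) * c := by
    intro c u w
    rw [← Finset.sum_add_distrib, Finset.sum_mul]
    refine Finset.sum_congr rfl fun α _ => ?_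
    rw [← Finset.sum_add_distrib, Finset.sum_mul]
  have hB := bc_sum P
  have hB1 : ∑ α, bc P α * (1 : ℂ) = 1 := by simpa using hB
  have key := ind2 (d := d) (LinearMap.eqLocus f g) ?_ ?_ ?_ hF
  · exact key
  · intro t _
    rw [LinearMap.mem_eqLocus, hg]
    have h1 : ∀ α β, bc P α * bc P β *
        (2 * ev (mx (fun v => (av α v + av β v) / 2) (P yv)) (MvPolynomial.X yv ^ t) -
        1 / 2 * ev (mx (av α) (P yv)) (MvPolynomial.X yv ^ t) -
        1 / 2 * ev (mx (av β) (P yv)) (MvPolynomial.X yv ^ t)) =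
        (bc P α * bc P β * (1 * 1) + 0) * P yv ^ t := by
      intro α β
      simp only [ev_apply, map_pow, MvPolynomial.eval_X, mx_y]
      ring
    rw [Finset.sum_congr rfl fun α _ => Finset.sum_congr rfl fun β _ => h1 α β, hs',
      hs (fun _ => 1) fun _ => 1, hB1]
    simp [f, ev_apply]
  · intro l t _
    rw [LinearMap.mem_eqLocus, hg]
    have h1 : ∀ α β, bc P α * bc P β *
        (2 * ev (mx (fun v => (av α v + av β v) / 2) (P yv))
          (MvPolynomial.X (xv l) * MvPolynomial.X yv ^ t) -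
        1 / 2 * ev (mx (av α) (P yv)) (MvPolynomial.X (xv l) * MvPolynomial.X yv ^ t) -
        1 / 2 * ev (mx (av β) (P yv)) (MvPolynomial.X (xv l) * MvPolynomial.X yv ^ t)) =
        (bc P α * bc P β * (av α (xv l) * 1) + bc P α * bc P β * (1 * av β (xv l))) *
          (1 / 2 * P yv ^ t) := by
      intro α β
      simp only [ev_apply, map_pow, map_mul, MvPolynomial.eval_X, mx_y, mx_x]
      ring
    rw [Finset.sum_congr rfl fun α _ => Finset.sum_congr rfl fun β _ => h1 α β, hs',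
      hs (fun α => av α (xv l)) fun _ => 1, hs (fun _ => 1) fun β => av β (xv l), hB1, bc_av]
    simp only [f, ev_apply, map_pow, map_mul, MvPolynomial.eval_X]
    ring
  · intro l l' t _
    rw [LinearMap.mem_eqLocus, hg]
    have h1 : ∀ α β, bc P α * bc P β *
        (2 * ev (mx (fun v => (av α v + av β v) / 2) (P yv))
          (MvPolynomial.X (xv l) * MvPolynomial.X (xv l') * MvPolynomial.X yv ^ t) -
        1 / 2 * ev (mx (av α) (P yv))
          (MvPolynomial.X (xv l) * MvPolynomial.X (xv l') * MvPolynomial.X yv ^ t) -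
        1 / 2 * ev (mx (av β) (P yv))
          (MvPolynomial.X (xv l) * MvPolynomial.X (xv l') * MvPolynomial.X yv ^ t)) =
        (bc P α * bc P β * (av α (xv l) * av β (xv l')) +
          bc P α * bc P β * (av α (xv l') * av β (xv l))) * (1 / 2 * P yv ^ t) := by
      intro α β
      simp only [ev_apply, map_pow, map_mul, MvPolynomial.eval_X, mx_y, mx_x]
      ring
    rw [Finset.sum_congr rfl fun α _ => Finset.sum_congr rfl fun β _ => h1 α β, hs',
      hs (fun α => av α (xv l)) fun β => av β (xv l'),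
      hs (fun α => av α (xv l')) fun β => av β (xv l), bc_av, bc_av]
    simp only [f, ev_apply, map_pow, map_mul, MvPolynomial.eval_X]
    ring

/-! ### The rows -/

theorem row2_diag {b : ℕ} (p : {p : Fin (b + 1) × Fin (b + 1) // p.1 ≤ p.2}) (h : p.1.1 = p.1.2)
    (F : MvPolynomial (Sg ![b, 1]) ℂ) : row2 p F = th2 (av p.1.1) F := by
  rw [row2, if_pos h]
  rfl

theorem row2_off {b : ℕ} (p : {p : Fin (b + 1) × Fin (b + 1) // p.1 ≤ p.2}) (h : p.1.1 ≠ p.1.2)
    (F : MvPolynomial (Sg ![b, 1]) ℂ) : row2 p F =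
      (4 : ℂ) • th2 (fun v => (av p.1.1 v + av p.1.2 v) / 2) F -
        th2 (av p.1.1) F - th2 (av p.1.2) F := by
  rw [row2, if_neg h]
  rfl

theorem row2_off_eval {b : ℕ} (p : {p : Fin (b + 1) × Fin (b + 1) // p.1 ≤ p.2})
    (h : p.1.1 ≠ p.1.2) (F : MvPolynomial (Sg ![b, 1]) ℂ) (y : ℂ) : (row2 p F).eval y =
      4 * ev (mx (fun v => (av p.1.1 v + av p.1.2 v) / 2) y) F -
        ev (mx (av p.1.1) y) F - ev (mx (av p.1.2) y) F := by
  rw [row2_off p h, Polynomial.eval_sub, Polynomial.eval_sub, Polynomial.eval_smul, th2_eval,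
    th2_eval, th2_eval, smul_eq_mul]

/-- Check on monomials: `1 = ∑ B_α^2 + 2 ∑ B_α B_β`, `x_l = B_l^2 + ∑_(β ≠ l) B_l B_β`, ...; or
directly: the coefficients of `1, x_l, x_l^2, x_l x_m` are determined by the rows. -/
theorem row2_inj {b d : ℕ} {F : MvPolynomial (Sg ![b, 1]) ℂ} (hF : F ∈ H (DD ![b, 1] ![2, d]))
    (h : ∀ p, row2 p F = 0) : F = 0 := by
  have h1 : ∀ α y, ev (mx (av α) y) F = 0 := by
    intro α y
    have h2 := h ⟨(α, α), le_refl α⟩
    rw [row2_diag _ rfl] at h2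
    rw [← th2_eval, h2, Polynomial.eval_zero]
  have h3 : ∀ α β : Fin (b + 1), α ≤ β → ∀ y, ev (mx (fun v => (av α v + av β v) / 2) y) F = 0 := by
    intro α β hαβ y
    by_cases he : α = β
    · subst he
      have : (fun v : Sg ![b, 1] => (av α v + av α v) / 2) = av α := by
        funext v
        ring
      rw [this]
      exact h1 α y
    · have h4 := row2_off_eval ⟨(α, β), hαβ⟩ he F y
      rw [h, Polynomial.eval_zero] at h4
      have h5 := h1 α y
      have h6 := h1 β y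
      simp only [h5, h6, sub_zero] at h4
      exact (mul_eq_zero.1 h4.symm).resolve_left (by norm_num)
  have h7 : ∀ α β : Fin (b + 1), ∀ y, ev (mx (fun v => (av α v + av β v) / 2) y) F = 0 := by
    intro α β y
    rcases le_total α β with hl | hl
    · exact h3 α β hl y
    · have : (fun v : Sg ![b, 1] => (av α v + av β v) / 2) = fun v => (av β v + av α v) / 2 := by
        funext v
        rw [add_comm]
      rw [this]
      exact h3 β α hl y
  refine MvPolynomial.funext fun P => ?_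
  rw [map_zero, ← ev_apply, bc_id P hF]
  refine Finset.sum_eq_zero fun α _ => Finset.sum_eq_zero fun β _ => ?_
  rw [h7, h1, h1]
  ring

theorem th2_mem {b d : ℕ} (x : Sg ![b, 1] → ℂ) {F : MvPolynomial (Sg ![b, 1]) ℂ}
    (hF : F ∈ H (DD ![b, 1] ![2, d])) : th2 x F ∈ Polynomial.degreeLT ℂ (d + 1) := by
  have hX : ∀ t ≤ d, ∀ c : ℂ, Polynomial.C c * Polynomial.X ^ t ∈
      Polynomial.degreeLT ℂ (d + 1) := by
    intro t ht c
    rw [Polynomial.mem_degreeLT]
    refine lt_of_le_of_lt (Polynomial.degree_C_mul_X_pow_le t c) ?_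
    exact_mod_cast Nat.lt_succ_of_le ht
  have key := ind2 (d := d) ((Polynomial.degreeLT ℂ (d + 1)).comap (th2 x).toLinearMap) ?_ ?_ ?_ hF
  · exact key
  · intro t ht
    rw [Submodule.mem_comap, AlgHom.toLinearMap_apply, map_pow, th2_y]
    have := hX t ht 1
    rwa [map_one, one_mul] at this
  · intro l t ht
    rw [Submodule.mem_comap, AlgHom.toLinearMap_apply, map_mul, map_pow, th2_y, th2_x]
    exact hX t ht _
  · intro l l' t ht
    rw [Submodule.mem_comap, AlgHom.toLinearMap_apply, map_mul, map_mul, map_pow, th2_y, th2_x,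
      th2_x, ← Polynomial.C_mul]
    exact hX t ht _

theorem row2_mem {b d : ℕ} {F : MvPolynomial (Sg ![b, 1]) ℂ} (hF : F ∈ H (DD ![b, 1] ![2, d]))
    (p : {p : Fin (b + 1) × Fin (b + 1) // p.1 ≤ p.2}) :
    row2 p F ∈ Polynomial.degreeLT ℂ (d + 1) := by
  by_cases h : p.1.1 = p.1.2
  · rw [row2_diag p h]
    exact th2_mem _ hF
  · rw [row2_off p h]
    exact Submodule.sub_mem _ (Submodule.sub_mem _ (Submodule.smul_mem _ _ (th2_mem _ hF))
      (th2_mem _ hF)) (th2_mem _ hF)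

/-- A double root. -/
theorem dbl_root {f : Polynomial ℂ} {y : ℂ} (h0 : f.eval y = 0)
    (h1 : (Polynomial.derivative f).eval y = 0) : (Polynomial.X - Polynomial.C y) ^ 2 ∣ f := by
  obtain ⟨G, hG⟩ := Polynomial.dvd_iff_isRoot.2 h0
  rw [hG] at h1
  simp only [Polynomial.derivative_mul, Polynomial.derivative_sub, Polynomial.derivative_X,
    Polynomial.derivative_C, sub_zero, one_mul, Polynomial.eval_add, Polynomial.eval_mul,
    Polynomial.eval_sub, Polynomial.eval_X, Polynomial.eval_C, sub_self, zero_mul, add_zero] at h1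
  obtain ⟨G', hG'⟩ := Polynomial.dvd_iff_isRoot.2 h1
  rw [hG, hG', sq]
  exact ⟨G', by ring⟩

/-- The first block of the midpoint of two unit vectors: the row at the double point. -/
theorem row2_off_zero {b d : ℕ} (p : {p : Fin (b + 1) × Fin (b + 1) // p.1 ≤ p.2})
    (h : p.1.1 ≠ p.1.2) {F : MvPolynomial (Sg ![b, 1]) ℂ} (hF : F ∈ H (DD ![b, 1] ![2, d]))
    (α : Fin (b + 1)) (hα : α = p.1.1 ∨ α = p.1.2) (y : ℂ) (h0 : ev (mx (av α) y) F = 0)
    (h1 : ∀ l : Fin b, dv (xv l) (mx (av α) y) F = 0) : (row2 p F).eval y = 0 := by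
  rw [row2_off_eval p h]
  rcases hα with hα | hα
  · rw [← hα]
    rw [mid_id _ _ _ hF, h0, Finset.sum_eq_zero fun l _ => by rw [h1 l, mul_zero]]
    ring
  · have h2 : (fun v : Sg ![b, 1] => (av p.1.1 v + av p.1.2 v) / 2) =
        fun v => (av α v + av p.1.1 v) / 2 := by
      funext v
      rw [hα, add_comm]
    rw [h2, ← hα, sub_right_comm, mid_id _ _ _ hF, h0,
      Finset.sum_eq_zero fun l _ => by rw [h1 l, mul_zero]]
    ring

/-- `q α` double points at `e_α`. -/
theorem two_low (b d : ℕ) (q : Fin (b + 1) → ℕ) :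
    kap (H (DD ![b, 1] ![2, d])) Finset.univ (∑ α, q α) ≤
      ∑ p : {p : Fin (b + 1) × Fin (b + 1) // p.1 ≤ p.2}, (d + 1 - (q p.1.1 + q p.1.2)) := by
  classical
  -- the points
  obtain ⟨yy, hyy⟩ : ∃ yy : ((α : Fin (b + 1)) × Fin (q α)) → ℂ, Function.Injective yy :=
    ⟨fun x => (((Fintype.equivFin _ x : Fin _) : ℕ) : ℂ), fun x x' h =>
      (Fintype.equivFin _).injective (Fin.ext (Nat.cast_injective h))⟩
  let P : Fin (b + 1) → Polynomial ℂ := fun α =>
    ∏ s : Fin (q α), (Polynomial.X - Polynomial.C (yy ⟨α, s⟩))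
  have hP : ∀ α, P α = ∏ s : Fin (q α), (Polynomial.X - Polynomial.C (yy ⟨α, s⟩)) :=
    fun α => rfl
  have hPm : ∀ α, (P α).Monic := fun α =>
    Polynomial.monic_prod_of_monic _ _ fun s _ => Polynomial.monic_X_sub_C _
  have hPd : ∀ α, (P α).natDegree = q α := by
    intro α
    rw [hP, Polynomial.natDegree_prod_of_monic _ _ fun s _ => Polynomial.monic_X_sub_C _,
      Finset.sum_congr rfl fun s _ => Polynomial.natDegree_X_sub_C _, Finset.sum_const,
      Finset.card_univ, Fintype.card_fin, smul_eq_mul, mul_one]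
  have hcop : ∀ x x', x ≠ x' → IsCoprime (Polynomial.X - Polynomial.C (yy x))
      (Polynomial.X - Polynomial.C (yy x')) := by
    intro x x' h
    exact Polynomial.isCoprime_X_sub_C_of_isUnit_sub
      (sub_ne_zero.2 fun h' => h (hyy h')).isUnit
  let Q : {p : Fin (b + 1) × Fin (b + 1) // p.1 ≤ p.2} → Polynomial ℂ := fun p =>
    P p.1.1 * P p.1.2
  have hQm : ∀ p, (Q p).Monic := fun p => (hPm _).mul (hPm _)
  have hQd : ∀ p, (Q p).natDegree = q p.1.1 + q p.1.2 := by
    intro p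
    rw [(hPm _).natDegree_mul (hPm _), hPd, hPd]
  -- the rows
  let R : MvPolynomial (Sg ![b, 1]) ℂ →ₗ[ℂ]
      ({p : Fin (b + 1) × Fin (b + 1) // p.1 ≤ p.2} → Polynomial ℂ) := LinearMap.pi row2
  let zz : ((α : Fin (b + 1)) × Fin (q α)) → Sg ![b, 1] → ℂ := fun x => mx (av x.1) (yy x)
  obtain ⟨Z0, hZ0⟩ : ∃ Z0, Z0 = Z (H (DD ![b, 1] ![2, d])) (rowf Finset.univ Finset.univ zz) :=
    ⟨_, rfl⟩
  have hW : ∀ G ∈ Z0.map R, ∀ p, G p ∈ Polynomial.degreeLT ℂ (d + 1) ∧ Q p ∣ G p := by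
    rintro G ⟨F, hF, rfl⟩ p
    rw [SetLike.mem_coe, hZ0, mem_Z_rowf] at hF
    obtain ⟨h1, h2, h3⟩ := hF
    have h2' : ∀ α s, ev (mx (av α) (yy ⟨α, s⟩)) F = 0 := fun α s => h2 ⟨α, s⟩
    have h3' : ∀ α s v, dv v (mx (av α) (yy ⟨α, s⟩)) F = 0 := fun α s v =>
      h3 ⟨α, s⟩ (Finset.mem_univ _) v (Finset.mem_univ _)
    refine ⟨row2_mem h1 p, ?_⟩
    change P p.1.1 * P p.1.2 ∣ row2 p F
    by_cases hp : p.1.1 = p.1.2
    · rw [row2_diag p hp, ← hp, ← sq, hP, ← Finset.prod_pow]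
      refine Finset.prod_dvd_of_coprime ?_ ?_
      · intro s _ s' _ hs
        refine IsCoprime.pow (hcop _ _ fun h => hs ?_)
        exact eq_of_heq ((Sigma.mk.injEq _ _ _ _).mp h).2
      · intro s _
        refine dbl_root ?_ ?_
        · rw [th2_eval]
          exact h2' _ s
        · rw [th2_deriv, th2_eval]
          exact h3' _ s yv
    · have hd : ∀ α, α = p.1.1 ∨ α = p.1.2 → P α ∣ row2 p F := by
        intro α hα
        rw [hP]
        refine Finset.prod_dvd_of_coprime ?_ ?_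
        · intro s _ s' _ hs
          refine hcop _ _ fun h => hs ?_
          exact eq_of_heq ((Sigma.mk.injEq _ _ _ _).mp h).2
        · intro s _
          rw [Polynomial.dvd_iff_isRoot]
          exact row2_off_zero p hp h1 α hα _ (h2' α s) fun l => h3' α s (xv l)
      refine IsCoprime.mul_dvd ?_ (hd _ (Or.inl rfl)) (hd _ (Or.inr rfl))
      rw [hP, hP]
      refine IsCoprime.prod_left fun s _ => IsCoprime.prod_right fun s' _ => hcop _ _ fun h => hp ?_
      exact ((Sigma.mk.injEq _ _ _ _).mp h).1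
  obtain ⟨hfd, hfr⟩ := finrank_pi_dvd (d + 1) Q hQm (Z0.map R) hW
  have hcard : Fintype.card ((α : Fin (b + 1)) × Fin (q α)) = ∑ α, q α := by
    rw [Fintype.card_sigma]
    exact Finset.sum_congr rfl fun α _ => Fintype.card_fin _
  refine (kap_le' _ _ zz hcard).trans ?_
  rw [← hZ0]
  have h4 : finrank ℂ Z0 ≤ finrank ℂ (Z0.map R) := by
    refine LinearMap.finrank_le_finrank_of_injective
      (f := R.restrict (p := Z0) (q := Z0.map R) fun F hF => Submodule.mem_map_of_mem hF) ?_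
    rw [← LinearMap.ker_eq_bot, LinearMap.ker_eq_bot']
    intro F hF
    apply Subtype.ext
    have h5 : (F : MvPolynomial (Sg ![b, 1]) ℂ) ∈ Z (H (DD ![b, 1] ![2, d]))
        (rowf Finset.univ Finset.univ zz) := by
      rw [← hZ0]
      exact F.2
    refine row2_inj (Z_le _ _ h5) fun p => ?_
    exact congrFun (congrArg Subtype.val hF) p
  refine h4.trans (hfr.trans (le_of_eq ?_))
  exact Finset.sum_congr rfl fun p _ => by rw [hQd]

end Pool.Agent.SV.C
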