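import Pool.Agent.Lib.MP_b54217_ag.Upp
import Pool.Agent.Lib.MP_b54217_ag.A.PZero
import Pool.Agent.Lib.MP_b54217_ag.I.Up
import Pool.Agent.Lib.MP_b54217_ag.I.Tran
import Pool.Agent.Lib.MP_b54217_ag.I.Card

/-!
# THEOREM C.  The family `P^b × P^1`, `(2, 2 q)`: the determinantal upper bound

Pattern: `upp_det` in `Upp.lean`.  `secDim_cons`, `G.secDim_G` with `n = 1`: the coordinates are
`∑_s c_s u_(s,α) u_(s,β) p_0^(2q-t) p_1^t`; for `t = j + j'` they are `∑_s m_(α,j)(s) c_s m_(β,j')(s)`,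
`m_(α,j)(s) = u_(s,α) p_0^(q-j) p_1^j`, `j, j' ≤ q`.  `A s s' = m_(s' % a, s' / a)(s)`, `A' = diag c · A`
(`a = b + 1`, `r ≤ a (q + 1)`), `bordered`, `block_vander`.  The coordinates `α ≤ β`, `t = 2 q` with
`a q + α ≥ r`, `a q + β ≥ r` are rational functions of the others; their number is
`(a (q + 1) - r + 1 choose 2)`.
-/

set_option autoImplicit false

namespace Pool.Agent.SV.C

open MvPolynomial Pool.Agent.SV

/-- The exponent `(e_α + e_β, t)`. -/
noncomputable def ex {b : ℕ} (α β : Fin (b + 1)) (t : ℕ) : G.Sg ![b, 1] →₀ ℕ :=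
  Finsupp.equivFunOnFinite.symm fun v => if v.1 = 0 then
    (if (α : ℕ) = (v.2 : ℕ) + 1 then 1 else 0) + (if (β : ℕ) = (v.2 : ℕ) + 1 then 1 else 0) else t

theorem ex_x {b : ℕ} (α β : Fin (b + 1)) (t : ℕ) (l : Fin b) :
    ex α β t ⟨0, l⟩ = (if α = l.succ then 1 else 0) + (if β = l.succ then 1 else 0) := by
  have h : ∀ γ : Fin (b + 1), ((γ : ℕ) = (l : ℕ) + 1) ↔ γ = l.succ := by
    intro γ
    rw [Fin.ext_iff, Fin.val_succ]
  rw [ex, Finsupp.equivFunOnFinite_symm_apply_apply, if_pos rfl]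
  exact congrArg₂ (· + ·) (if_congr (h α) rfl rfl) (if_congr (h β) rfl rfl)

theorem ex_y {b : ℕ} (α β : Fin (b + 1)) (t : ℕ) (l : Fin 1) : ex α β t ⟨1, l⟩ = t := by
  rw [ex, Finsupp.equivFunOnFinite_symm_apply_apply, if_neg]
  intro h
  exact absurd h (by simp)

theorem sum_del {b : ℕ} (α : Fin (b + 1)) :
    (if α = 0 then 1 else 0) + ∑ l : Fin b, (if α = l.succ then 1 else 0) = 1 := by
  have h := Finset.sum_ite_eq Finset.univ α (fun _ => 1)
  rw [Fin.sum_univ_succ, if_pos (Finset.mem_univ _)] at h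
  exact h

theorem ex_sum {b : ℕ} (α β : Fin (b + 1)) (t : ℕ) :
    (if α = 0 then 1 else 0) + (if β = 0 then 1 else 0) +
      ∑ l : Fin b, ex α β t ⟨0, l⟩ = 2 := by
  rw [Finset.sum_congr rfl fun l _ => ex_x α β t l, Finset.sum_add_distrib]
  have h1 := sum_del α
  have h2 := sum_del β
  omega

theorem ex_mem {b q : ℕ} (α β : Fin (b + 1)) (t : ℕ) (ht : t ≤ 2 * q) :
    ex α β t ∈ G.DD ![b, 1] ![2, 2 * q] := by
  rw [G.mem_DD, Fin.forall_fin_two]
  constructor
  · have h := ex_sum α β t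
    change ∑ l : Fin b, ex α β t ⟨0, l⟩ ≤ 2
    omega
  · change ∑ l : Fin 1, ex α β t ⟨1, l⟩ ≤ 2 * q
    rw [Fin.sum_univ_one, ex_y]
    exact ht

theorem hz_x {b q : ℕ} (α β : Fin (b + 1)) (t : ℕ) (e : Fin (b + 1)) :
    G.hz (M := ![b, 1]) ![2, 2 * q] (ex α β t) 0 e =
      (if α = e then 1 else 0) + (if β = e then 1 else 0) := by
  have h := ex_sum α β t
  revert e
  refine Fin.cases ?_ fun l => ?_
  · change 2 - ∑ l : Fin b, ex α β t ⟨0, l⟩ = _
    omega
  · exact ex_x α β t l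

theorem hz_y0 {b q : ℕ} (α β : Fin (b + 1)) (t : ℕ) :
    G.hz (M := ![b, 1]) ![2, 2 * q] (ex α β t) 1 (0 : Fin 2) = 2 * q - t := by
  change 2 * q - ∑ l : Fin 1, ex α β t ⟨1, l⟩ = _
  rw [Fin.sum_univ_one, ex_y]

theorem hz_y1 {b q : ℕ} (α β : Fin (b + 1)) (t : ℕ) :
    G.hz (M := ![b, 1]) ![2, 2 * q] (ex α β t) 1 (1 : Fin 2) = t :=
  ex_y α β t 0

theorem ex_inj {b : ℕ} {α β α' β' : Fin (b + 1)} {t t' : ℕ} (h : ex α β t = ex α' β' t') :
    t = t' ∧ ((α' = α ∧ β' = β) ∨ (α' = β ∧ β' = α)) := by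
  have ht : t = t' := by
    rw [← ex_y α β t 0, h, ex_y]
  have h1 : ∀ e, (if α = e then 1 else 0) + (if β = e then 1 else 0) =
      (if α' = e then 1 else 0) + (if β' = e then 1 else 0) := by
    intro e
    rw [← hz_x (q := 0) α β t e, h, hz_x]
  refine ⟨ht, ?_⟩
  have h2 := h1 α
  rw [if_pos rfl] at h2
  by_cases h3 : α' = α
  · left
    refine ⟨h3, ?_⟩
    have h4 := h1 β
    rw [h3, if_pos rfl] at h4
    by_contra h5
    rw [if_neg h5] at h4
    omega
  · right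
    by_cases h4 : β' = α
    · refine ⟨?_, h4⟩
      have h5 := h1 β
      rw [h4, if_pos rfl] at h5
      by_contra h6
      rw [if_neg h6] at h5
      omega
    · rw [if_neg h3, if_neg h4] at h2
      omega

theorem prod_two {R : Type} [CommMonoid R] {b : ℕ}
    (F : (i : Fin 2) → Fin ((![b, 1] : Fin 2 → ℕ) i + 1) → R) : ∏ i, ∏ e, F i e =
      (∏ e : Fin (b + 1), F 0 e) * (F 1 (0 : Fin 2) * F 1 (1 : Fin 2)) := by
  rw [Fin.prod_univ_two]
  exact congrArg₂ (· * ·) rfl (Fin.prod_univ_two (F 1))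

theorem prod_del {R : Type} [CommMonoid R] {b : ℕ} (F : Fin (b + 1) → R) (γ : Fin (b + 1)) :
    ∏ e : Fin (b + 1), F e ^ (if γ = e then 1 else 0) = F γ := by
  rw [Finset.prod_eq_single γ]
  · rw [if_pos rfl, pow_one]
  · intro e _ he
    rw [if_neg (Ne.symm he), pow_zero]
  · intro h
    exact absurd (Finset.mem_univ _) h

theorem prod_ex {R : Type} [CommMonoid R] {b q : ℕ}
    (F : (i : Fin 2) → Fin ((![b, 1] : Fin 2 → ℕ) i + 1) → R) (α β : Fin (b + 1)) (t : ℕ) :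
    ∏ i, ∏ e, F i e ^ G.hz (M := ![b, 1]) ![2, 2 * q] (ex α β t) i e =
      (F 0 α * F 0 β) * (F 1 (0 : Fin 2) ^ (2 * q - t) * F 1 (1 : Fin 2) ^ t) := by
  rw [prod_two, hz_y0, hz_y1, Finset.prod_congr rfl fun e _ => by rw [hz_x, pow_add],
    Finset.prod_mul_distrib]
  exact congrArg₂ (· * ·) (congrArg₂ (· * ·) (prod_del (F 0) α) (prod_del (F 0) β)) rfl

theorem gG_ex {b q : ℕ} (r : ℕ) (α β : Fin (b + 1)) (t : ℕ)
    (h : ex α β t ∈ G.DD ![b, 1] ![2, 2 * q]) :
    G.gG 1 ![b, 1] ![2, 2 * q] r (0, ⟨ex α β t, h⟩) = ∑ s : Fin r, X (s, Sum.inl 0) *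
      ((X (s, Sum.inr ⟨0, α⟩) * X (s, Sum.inr ⟨0, β⟩)) *
        (X (s, Sum.inr ⟨1, (0 : Fin 2)⟩) ^ (2 * q - t) * X (s, Sum.inr ⟨1, (1 : Fin 2)⟩) ^ t)) := by
  rw [G.gG]
  refine Finset.sum_congr rfl fun s _ => ?_
  exact congrArg₂ (· * ·) rfl (prod_ex (fun i e => (X (s, Sum.inr ⟨i, e⟩) :
    MvPolynomial (G.ParG 1 ![b, 1] r) ℂ)) α β t)

/-- The special parameters. -/
noncomputable def w0 (b r : ℕ) : G.ParG 1 ![b, 1] r → ℂ := fun x =>
  match x.2 with
  | Sum.inl _ => 1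
  | Sum.inr v => if v.1 = 0 then (if (x.1 : ℕ) % (b + 1) = (v.2 : ℕ) then 1 else 0) else
      (if (v.2 : ℕ) = 0 then 1 else ((x.1 : ℕ) : ℂ))

theorem w0_c (b r : ℕ) (s : Fin r) : w0 b r (s, Sum.inl 0) = 1 := rfl

theorem w0_u (b r : ℕ) (s : Fin r) (α : Fin (b + 1)) :
    w0 b r (s, Sum.inr ⟨0, α⟩) = if (s : ℕ) % (b + 1) = (α : ℕ) then 1 else 0 := rfl

theorem w0_p0 (b r : ℕ) (s : Fin r) : w0 b r (s, Sum.inr ⟨1, (0 : Fin 2)⟩) = 1 := rfl

theorem w0_p1 (b r : ℕ) (s : Fin r) : w0 b r (s, Sum.inr ⟨1, (1 : Fin 2)⟩) = ((s : ℕ) : ℂ) := rfl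

theorem card_DD2 (b q : ℕ) : (G.DD ![b, 1] ![2, 2 * q]).card =
    (b + 2).choose 2 * (2 * q + 1) := by
  rw [G.card_DD, Fin.prod_univ_two]
  change (b + 2).choose b * (1 + 2 * q).choose 1 = _
  rw [Nat.choose_one_right, add_comm 1, Nat.choose_symm_add]

theorem two_up (b q r : ℕ) (h1 : (b + 1) * q ≤ r) (h2 : r ≤ (b + 1) * (q + 1)) :
    secDim ![b + 1, 2] ![2, 2 * q] r ≤
      (((b + 2).choose 2 * (2 * q + 1) - ((b + 1) * (q + 1) - r + 1).choose 2 : ℕ) :
        WithBot ℕ∞) := by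
  classical
  have hn : (![b + 1, 2] : Fin 2 → ℕ) = fun i => ![b, 1] i + 1 := by
    funext i
    revert i
    rw [Fin.forall_fin_two]
    exact ⟨rfl, rfl⟩
  rw [← A.secDim_cons, hn]
  change secDim (G.nn 1 ![b, 1]) (G.dd ![2, 2 * q]) r ≤ _
  rw [G.secDim_G]
  let R := MvPolynomial (G.ParG 1 ![b, 1] r) ℂ
  let L := FractionRing R
  let ι : R →+* L := algebraMap R L
  have hι : Function.Injective ι := IsFractionRing.injective R L
  let Om : Fin 1 × {a // a ∈ G.DD ![b, 1] ![2, 2 * q]} → Prop := fun x =>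
    ∃ α β : Fin (b + 1), r ≤ (b + 1) * q + (α : ℕ) ∧ r ≤ (b + 1) * q + (β : ℕ) ∧
      x.2.1 = ex α β (2 * q)
  have hOm : ∀ (α β : Fin (b + 1)) (t : ℕ) (h : ex α β t ∈ G.DD ![b, 1] ![2, 2 * q]),
      Om (0, ⟨ex α β t, h⟩) → t = 2 * q ∧ r ≤ (b + 1) * q + (α : ℕ) ∧
        r ≤ (b + 1) * q + (β : ℕ) := by
    rintro α β t h ⟨α', β', h3, h4, h5⟩
    obtain ⟨h6, h7 | h7⟩ := ex_inj h5
    · rw [← h7.1, ← h7.2]
      exact ⟨h6, h3, h4⟩
    · rw [← h7.1, ← h7.2]
      exact ⟨h6, h4, h3⟩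
  -- matrices
  have hmod : ∀ s : Fin r, (s : ℕ) % (b + 1) < b + 1 := fun s => Nat.mod_lt _ (Nat.succ_pos b)
  have hdiv : ∀ s : Fin r, (s : ℕ) / (b + 1) ≤ q := fun s => by
    rw [← Nat.lt_succ_iff, Nat.div_lt_iff_lt_mul (Nat.succ_pos b)]
    have h3 := s.2
    rw [mul_comm]
    exact lt_of_lt_of_le h3 h2
  have hdm : ∀ s : Fin r, (s : ℕ) / (b + 1) = q → ¬ r ≤ (b + 1) * q + (s : ℕ) % (b + 1) := by
    intro s h3 h4
    have h5 := Nat.mod_add_div (s : ℕ) (b + 1)
    rw [h3] at h5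
    have := s.2
    omega
  let m : Fin (b + 1) → ℕ → Fin r → R := fun α j s =>
    X (s, Sum.inr ⟨0, α⟩) * (X (s, Sum.inr ⟨1, (0 : Fin 2)⟩) ^ (q - j) *
      X (s, Sum.inr ⟨1, (1 : Fin 2)⟩) ^ j)
  let m' : Fin (b + 1) → ℕ → Fin r → R := fun α j s => X (s, Sum.inl 0) * m α j s
  have hmm : ∀ (α β : Fin (b + 1)) (j j' : ℕ), j ≤ q → j' ≤ q →
      ∀ h : ex α β (j + j') ∈ G.DD ![b, 1] ![2, 2 * q],
      m α j ⬝ᵥ m' β j' = G.gG 1 ![b, 1] ![2, 2 * q] r (0, ⟨ex α β (j + j'), h⟩) := by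
    intro α β j j' hj hj' h
    rw [gG_ex, dotProduct]
    refine Finset.sum_congr rfl fun s _ => ?_
    simp only [m, m']
    have h3 : 2 * q - (j + j') = (q - j) + (q - j') := by omega
    rw [h3, pow_add, pow_add]
    ring
  let A : Matrix (Fin r) (Fin r) R :=
    Matrix.of fun s s' => m ⟨(s' : ℕ) % (b + 1), hmod s'⟩ ((s' : ℕ) / (b + 1)) s
  let A' : Matrix (Fin r) (Fin r) R :=
    Matrix.of fun s s' => m' ⟨(s' : ℕ) % (b + 1), hmod s'⟩ ((s' : ℕ) / (b + 1)) s
  have hdetA : A.det ≠ 0 := by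
    intro h
    have h3 : (eval (w0 b r)) A.det = 0 := by rw [h, map_zero]
    rw [RingHom.map_det] at h3
    apply block_vander (b + 1) r (Nat.succ_pos b)
    refine Eq.trans ?_ h3
    congr 1
    ext s s'
    simp only [A, m, RingHom.mapMatrix_apply, Matrix.map_apply, Matrix.of_apply, map_mul,
      map_pow, eval_X, w0_u, w0_p0, w0_p1, one_pow, one_mul]
    split_ifs <;> simp
  have hdetA' : A'.det ≠ 0 := by
    intro h
    have h3 : (eval (w0 b r)) A'.det = 0 := by rw [h, map_zero]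
    rw [RingHom.map_det] at h3
    apply block_vander (b + 1) r (Nat.succ_pos b)
    refine Eq.trans ?_ h3
    congr 1
    ext s s'
    simp only [A', m', m, RingHom.mapMatrix_apply, Matrix.map_apply, Matrix.of_apply, map_mul,
      map_pow, eval_X, w0_c, w0_u, w0_p0, w0_p1, one_pow, one_mul]
    split_ifs <;> simp
  let C0 : Matrix (Fin r) (Fin r) R := A.transpose * A'
  have hC0 : C0.det ≠ 0 := by
    rw [Matrix.det_mul, Matrix.det_transpose]
    exact mul_ne_zero hdetA hdetA'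
  let g : {x // ¬ Om x} → L := fun x => ι (G.gG 1 ![b, 1] ![2, 2 * q] r x.1)
  let E := IntermediateField.adjoin ℂ (Set.range g)
  have hE : ∀ x, ¬ Om x → ι (G.gG 1 ![b, 1] ![2, 2 * q] r x) ∈ E := fun x hx =>
    IntermediateField.subset_adjoin ℂ _ ⟨⟨x, hx⟩, rfl⟩
  have hcard : Fintype.card {x // ¬ Om x} ≤
      (b + 2).choose 2 * (2 * q + 1) - ((b + 1) * (q + 1) - r + 1).choose 2 := by
    rw [Fintype.card_subtype_compl]
    rw [Fintype.card_prod, Fintype.card_fin, one_mul, Fintype.card_coe, card_DD2]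
    apply Nat.sub_le_sub_left
    obtain ⟨k0, hk0⟩ : ∃ k0, k0 = (b + 1) * (q + 1) - r := ⟨_, rfl⟩
    rw [← hk0]
    have hq : (b + 1) * (q + 1) = (b + 1) * q + (b + 1) := by ring
    have hlt : ∀ y : Fin k0, b + 1 - k0 + (y : ℕ) < b + 1 := by
      intro y
      have := y.2
      omega
    have hge : ∀ y : Fin k0, r ≤ (b + 1) * q + (b + 1 - k0 + (y : ℕ)) := by
      intro y
      omega
    obtain ⟨f0, hf0⟩ : ∃ f0 : Fin k0 → Fin (b + 1), ∀ y, (f0 y : ℕ) = b + 1 - k0 + (y : ℕ) :=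
      ⟨fun y => ⟨_, hlt y⟩, fun _ => rfl⟩
    have hf1 : Function.Injective f0 := by
      intro y z hyz
      have h4 := hf0 y
      have h5 := hf0 z
      rw [hyz] at h4
      apply Fin.ext
      omega
    have hsymm : ∀ α β : Fin (b + 1), ex α β (2 * q) = ex β α (2 * q) := by
      intro α β
      simp only [ex, add_comm]
    let F : Sym2 (Fin k0) → {x // Om x} := fun z =>
      Sym2.lift ⟨fun y y' => (⟨(0, ⟨ex (f0 y) (f0 y') (2 * q), ex_mem _ _ _ le_rfl⟩),
        ⟨f0 y, f0 y', by rw [hf0]; exact hge y, by rw [hf0]; exact hge y', rfl⟩⟩ : {x // Om x}),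
        fun y y' => by
          apply Subtype.ext
          refine Prod.ext rfl (Subtype.ext ?_)
          exact hsymm _ _⟩ z
    have hF : Function.Injective F := by
      intro z z' hz
      induction z using Sym2.inductionOn with
      | _ y1 y2 =>
        induction z' using Sym2.inductionOn with
        | _ z1 z2 =>
          have h4 : ex (f0 y1) (f0 y2) (2 * q) = ex (f0 z1) (f0 z2) (2 * q) :=
            congrArg (fun x => x.1.2.1) hz
          obtain ⟨-, h5 | h5⟩ := ex_inj h4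
          · rw [hf1 h5.1, hf1 h5.2]
          · rw [hf1 h5.1, hf1 h5.2, Sym2.eq_swap]
    have h4 := Fintype.card_le_of_injective F hF
    rw [Sym2.card, Fintype.card_fin] at h4
    exact h4
  have h := krull_le (G.gG 1 ![b, 1] ![2, 2 * q] r) (Algebra.ofId R L |>.restrictScalars ℂ) hι g ?_
  · refine h.trans ?_
    exact_mod_cast hcard
  · intro x
    change ι (G.gG 1 ![b, 1] ![2, 2 * q] r x) ∈ E
    by_cases hx : Om x
    · obtain ⟨α, β, hx1, hx2, hx3⟩ := hx
      -- the entries of the bordered matrix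
      have e0 : ∀ s s', ι (C0 s s') ∈ E := by
        intro s s'
        have h3 := hdiv s
        have h4 := hdiv s'
        have h5 := hmm ⟨(s : ℕ) % (b + 1), hmod s⟩ ⟨(s' : ℕ) % (b + 1), hmod s'⟩ _ _ h3 h4
          (ex_mem _ _ _ (by omega))
        have h6 : C0 s s' = _ := h5
        rw [h6]
        apply hE
        intro h7
        obtain ⟨h8, h9, -⟩ := hOm _ _ _ _ h7
        exact hdm s (by omega) h9
      have e1 : ∀ s', ι ((Matrix.vecMul (m α q) A') s') ∈ E := by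
        intro s'
        have h4 := hdiv s'
        have h5 := hmm α ⟨(s' : ℕ) % (b + 1), hmod s'⟩ _ _ le_rfl h4
          (ex_mem _ _ _ (by omega))
        have h6 : (Matrix.vecMul (m α q) A') s' = _ := h5
        rw [h6]
        apply hE
        intro h7
        obtain ⟨h8, -, h9⟩ := hOm _ _ _ _ h7
        exact hdm s' (by omega) h9
      have e2 : ∀ s, ι ((Matrix.mulVec A.transpose (m' β q)) s) ∈ E := by
        intro s
        have h4 := hdiv s
        have h5 := hmm ⟨(s : ℕ) % (b + 1), hmod s⟩ β _ _ h4 le_rfl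
          (ex_mem _ _ _ (by omega))
        have h6 : (Matrix.mulVec A.transpose (m' β q)) s = _ := h5
        rw [h6]
        apply hE
        intro h7
        obtain ⟨h8, h9, -⟩ := hOm _ _ _ _ h7
        exact hdm s (by omega) h9
      -- the adjugate
      have e3 : ∀ s s', ι (C0.adjugate s s') ∈ E := by
        intro s s'
        let CE : Matrix (Fin r) (Fin r) E := Matrix.of fun s s' => ⟨ι (C0 s s'), e0 s s'⟩
        have h1 : ι.mapMatrix C0 = (algebraMap E L).mapMatrix CE := by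
          ext s s'
          rfl
        have h2 : ι.mapMatrix C0.adjugate = (algebraMap E L).mapMatrix CE.adjugate := by
          rw [RingHom.map_adjugate, RingHom.map_adjugate, h1]
        have h3 := congrFun (congrFun h2 s) s'
        change ι (C0.adjugate s s') = algebraMap E L (CE.adjugate s s') at h3
        rw [h3]
        exact (CE.adjugate s s').2
      have e4 : ι C0.det ∈ E := by
        let CE : Matrix (Fin r) (Fin r) E := Matrix.of fun s s' => ⟨ι (C0 s s'), e0 s s'⟩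
        have h1 : ι.mapMatrix C0 = (algebraMap E L).mapMatrix CE := by
          ext s s'
          rfl
        rw [RingHom.map_det, h1, ← RingHom.map_det]
        exact (CE.det).2
      have h1 := bordered A A' (m α q) (m' β q)
      have h5 := hmm α β q q le_rfl le_rfl (ex_mem _ _ _ (by omega))
      have hx' : ((0 : Fin 1), (⟨ex α β (q + q), ex_mem _ _ _ (by omega)⟩ :
          {a // a ∈ G.DD ![b, 1] ![2, 2 * q]})) = x := by
        refine Prod.ext (Subsingleton.elim _ _) (Subtype.ext ?_)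
        rw [hx3]
        exact congrArg (ex α β) (two_mul q).symm
      rw [h5, hx'] at h1
      have h2 : ι (G.gG 1 ![b, 1] ![2, 2 * q] r x) = (ι C0.det)⁻¹ *
          ι ((Matrix.vecMul (m α q) A') ⬝ᵥ
          (Matrix.mulVec C0.adjugate (Matrix.mulVec A.transpose (m' β q)))) := by
        have h3 : ι C0.det ≠ 0 := by
          intro h
          rw [← map_zero ι] at h
          exact hC0 (hι h)
        change _ = (ι C0.det)⁻¹ * ι ((Matrix.vecMul (m α q) A') ⬝ᵥ
          (Matrix.mulVec (A.transpose * A').adjugate (Matrix.mulVec A.transpose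
            (m' β q))))
        rw [h1, map_mul]
        change _ = (ι C0.det)⁻¹ * (ι C0.det * _)
        rw [inv_mul_cancel_left₀ h3]
      rw [h2]
      refine mul_mem (inv_mem e4) ?_
      rw [dotProduct, map_sum]
      refine sum_mem fun s _ => ?_
      rw [map_mul]
      refine mul_mem (e1 s) ?_
      rw [Matrix.mulVec, dotProduct, map_sum]
      refine sum_mem fun s' _ => ?_
      rw [map_mul]
      exact mul_mem (e3 s s') (e2 s')
    · exact hE x hx

end Pool.Agent.SV.C
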