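import Pool.Agent.Lib.MP_b54217_ag.A.FinB
import Pool.Agent.Lib.MP_b54217_ag.C.TwoLow
import Pool.Agent.Lib.MP_b54217_ag.C.TwoUp

/-!
# THEOREM C.  The family `P^b × P^1`, `(2, d)`
-/

set_option autoImplicit false

namespace Pool.Agent.SV.C

open Module Pool.Agent.SV.E Pool.Agent.SV.A
open Pool.Agent.SV.G (Sg DD mem_DD)

/-- The sum over the unordered pairs. -/
theorem sum_pairs {a : ℕ} (f : Fin a → Fin a → ℕ) (hf : ∀ i j, f i j = f j i) :
    2 * ∑ p : {p : Fin a × Fin a // p.1 ≤ p.2}, f p.1.1 p.1.2 =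
      ∑ i, ∑ j, f i j + ∑ i, f i i := by
  have hA : ∑ p : {p : Fin a × Fin a // p.1 ≤ p.2}, f p.1.1 p.1.2 =
      ∑ i, ∑ j, (if i ≤ j then f i j else 0) := by
    rw [← Fintype.sum_prod_type' (f := fun i j => if i ≤ j then f i j else 0),
      ← Finset.sum_filter (fun p : Fin a × Fin a => p.1 ≤ p.2) (fun p => f p.1 p.2)]
    exact (Finset.sum_subtype _ (fun p => by simp) fun p : Fin a × Fin a => f p.1 p.2).symm
  have hB : ∑ i, ∑ j, (if i ≤ j then f i j else 0) = ∑ i, ∑ j, (if j ≤ i then f i j else 0) := by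
    rw [Finset.sum_comm]
    refine Finset.sum_congr rfl fun i _ => Finset.sum_congr rfl fun j _ => ?_
    rw [hf]
  rw [hA, two_mul]
  conv_lhs => rw [hB]
  conv_lhs => arg 1; rw [← hB]
  rw [← Finset.sum_add_distrib, ← Finset.sum_add_distrib]
  refine Finset.sum_congr rfl fun i _ => ?_
  have h1 : f i i = ∑ j, (if j = i then f i j else 0) := by
    rw [Finset.sum_ite_eq' Finset.univ i]
    simp
  rw [h1, ← Finset.sum_add_distrib, ← Finset.sum_add_distrib]
  refine Finset.sum_congr rfl fun j _ => ?_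
  rcases lt_trichotomy i j with h | h | h
  · rw [if_pos h.le, if_neg (not_le.2 h), if_neg h.ne']
  · rw [if_pos h.le, if_pos h.ge, if_pos h.symm]
  · rw [if_neg (not_le.2 h), if_pos h.le, if_neg h.ne, add_comm]

theorem two_ceil {a r : ℕ} (ha : 1 ≤ a) : r ≤ a * (r ⌈/⌉ a) ∧ a * (r ⌈/⌉ a) < r + a := by
  rw [Nat.ceilDiv_eq_add_pred_div]
  constructor
  · have h := Nat.div_add_mod (r + a - 1) a
    have h' := Nat.mod_lt (r + a - 1) ha
    omega
  · have h := Nat.div_add_mod (r + a - 1) a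
    omega

theorem two_cnt {a m : ℕ} (hm : m ≤ a) : ∑ i : Fin a, (if (i : ℕ) < m then 1 else 0) = m := by
  rw [Fin.sum_univ_eq_sum_range (fun i => if i < m then 1 else 0) a, ← Finset.sum_filter]
  have h : (Finset.range a).filter (fun i => i < m) = Finset.range m := by
    ext i
    rw [Finset.mem_filter, Finset.mem_range, Finset.mem_range]
    omega
  rw [h, Finset.sum_const, Finset.card_range, smul_eq_mul, mul_one]

theorem two_tri (a : ℕ) : 2 * (a + 1).choose 2 = a * a + a := by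
  have h := Nat.triangle_succ a
  have h2 : (a + 1).choose 2 * 2 = (a + 1) * a := by
    rw [Nat.choose_two_right, Nat.add_sub_cancel]
    exact Nat.div_mul_cancel (Nat.even_mul_succ_self a |>.two_dvd |> fun h => by rwa [mul_comm] at h)
  linarith [h2]

theorem two_card (a : ℕ) (c : ℕ) :
    ∑ _p : {p : Fin a × Fin a // p.1 ≤ p.2}, c = (a + 1).choose 2 * c := by
  have h := sum_pairs (a := a) (fun _ _ => c) fun _ _ => rfl
  have h2 := two_tri a
  simp only [Finset.sum_const, Finset.card_univ, Fintype.card_fin, smul_eq_mul] at h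
  simp only [Finset.sum_const, Finset.card_univ, smul_eq_mul]
  nlinarith [h, h2]

/-- `q α = q + [α < ρ]`, `r = a q + ρ`: the three cases `c ≥ 2 q + 2` (or `ρ = 0`, `c ≥ 2 q`),
`c = 2 q + 1`, `c ≤ 2 q`. -/
theorem two_num (b c r : ℕ) : ∃ q : Fin (b + 1) → ℕ, ∑ α, q α = r ∧
    ∑ p : {p : Fin (b + 1) × Fin (b + 1) // p.1 ≤ p.2}, (c - (q p.1.1 + q p.1.2)) ≤
      if 2 * (r ⌈/⌉ (b + 1)) ≤ c then (b + 2).choose 2 * c - (b + 2) * r
      else if 2 * (r ⌈/⌉ (b + 1)) = c + 1 then ((b + 1) * (r ⌈/⌉ (b + 1)) - r + 1).choose 2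
      else 0 := by
  obtain ⟨h1, h2⟩ := two_ceil (a := b + 1) (r := r) (by omega)
  set Q := r ⌈/⌉ (b + 1) with hQ
  set m := (b + 1) * Q - r with hm
  have hmb : m < b + 1 := by omega
  have hQm : 0 < m → 1 ≤ Q := by
    intro h
    by_contra hc
    have hQ0 : Q = 0 := by omega
    rw [hQ0, mul_zero] at h1 hm
    omega
  have hmr : m + r = (b + 1) * Q := by omega
  have hqs : ∑ α : Fin (b + 1), (Q - if (α : ℕ) < m then 1 else 0) = r := by
    have h3 : ∑ α : Fin (b + 1), (Q - if (α : ℕ) < m then 1 else 0) +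
        ∑ α : Fin (b + 1), (if (α : ℕ) < m then 1 else 0) = (b + 1) * Q := by
      rw [← Finset.sum_add_distrib]
      have h4 : ∀ α ∈ (Finset.univ : Finset (Fin (b + 1))),
          (Q - if (α : ℕ) < m then 1 else 0) + (if (α : ℕ) < m then 1 else 0) = Q := by
        intro α _
        split_ifs with h
        · have := hQm (by omega)
          omega
        · omega
      rw [Finset.sum_congr rfl h4, Finset.sum_const, Finset.card_univ, Fintype.card_fin,
        smul_eq_mul]
    rw [two_cnt hmb.le] at h3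
    omega
  refine ⟨fun α => Q - if (α : ℕ) < m then 1 else 0, hqs, ?_⟩
  split_ifs with h3 h4
  · -- the sum of the `q`
    have h5 := sum_pairs (a := b + 1) (fun i j => (Q - if (i : ℕ) < m then 1 else 0) +
      (Q - if (j : ℕ) < m then 1 else 0)) fun i j => add_comm _ _
    simp only [Finset.sum_add_distrib, Finset.sum_const, Finset.card_univ, Fintype.card_fin,
      smul_eq_mul, ← Finset.mul_sum, hqs] at h5
    have h6 := two_card (b + 1) c
    have h7 : ∀ p ∈ (Finset.univ : Finset {p : Fin (b + 1) × Fin (b + 1) // p.1 ≤ p.2}),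
        (c - ((Q - if (p.1.1 : ℕ) < m then 1 else 0) + (Q - if (p.1.2 : ℕ) < m then 1 else 0))) +
        ((Q - if (p.1.1 : ℕ) < m then 1 else 0) + (Q - if (p.1.2 : ℕ) < m then 1 else 0)) = c := by
      intro p _
      split_ifs <;> omega
    have h8 := Finset.sum_congr rfl h7
    rw [h6, Finset.sum_add_distrib, Finset.sum_add_distrib] at h8
    refine Nat.le_sub_of_add_le ?_
    rw [← h8]
    refine Nat.add_le_add_left ?_ _
    nlinarith [h5]
  · have h5 := sum_pairs (a := b + 1) (fun i j => (if (i : ℕ) < m then 1 else 0) *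
      (if (j : ℕ) < m then 1 else 0)) fun i j => mul_comm _ _
    have h6 : ∀ i j : Fin (b + 1), c - ((Q - if (i : ℕ) < m then 1 else 0) +
        (Q - if (j : ℕ) < m then 1 else 0)) = (if (i : ℕ) < m then 1 else 0) *
      (if (j : ℕ) < m then 1 else 0) := by
      intro i j
      split_ifs with h h' h' <;> omega
    have h7 : ∀ i : Fin (b + 1), (if (i : ℕ) < m then 1 else 0) * (if (i : ℕ) < m then 1 else 0) =
        (if (i : ℕ) < m then 1 else 0) := by
      intro i
      split_ifs <;> rfl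
    simp only [h6]
    simp only [← Finset.mul_sum, ← Finset.sum_mul, two_cnt hmb.le, h7] at h5
    have h8 := two_tri m
    omega
  · have h6 : ∀ i j : Fin (b + 1), c - ((Q - if (i : ℕ) < m then 1 else 0) +
        (Q - if (j : ℕ) < m then 1 else 0)) = 0 := by
      intro i j
      split_ifs with h h' h' <;> omega
    simp only [h6, Finset.sum_const_zero, le_refl]

theorem two_fun (b : ℕ) : (![b + 1, 2] : Fin 2 → ℕ) = fun i => (![b, 1] : Fin 2 → ℕ) i + 1 := by
  funext i
  fin_cases i <;> rfl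

theorem two_M (b : ℕ) : ∑ i, (![b, 1] : Fin 2 → ℕ) i = b + 1 := by
  rw [Fin.sum_univ_two]
  rfl

theorem two_DD (b d : ℕ) : (DD ![b, 1] ![2, d]).card = (b + 2).choose 2 * (d + 1) := by
  rw [G.card_DD, Fin.prod_univ_two]
  show (b + 2).choose b * (1 + d).choose 1 = _
  rw [Nat.choose_one_right, Nat.choose_symm_add, add_comm 1 d]

/-- The lower bound. -/
theorem two_dlow (b d r : ℕ) : (((b + 2).choose 2 * (d + 1) -
    (if 2 * (r ⌈/⌉ (b + 1)) ≤ d + 1 then (b + 2).choose 2 * (d + 1) - (b + 2) * r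
      else if 2 * (r ⌈/⌉ (b + 1)) = d + 1 + 1 then
        ((b + 1) * (r ⌈/⌉ (b + 1)) - r + 1).choose 2
      else 0) : ℕ) : WithBot ℕ∞) ≤ secDim ![b + 1, 2] ![2, d] r := by
  obtain ⟨q, hq, h⟩ := two_num b (d + 1) r
  have h1 := two_low b d q
  rw [hq] at h1
  have h2 := secDim_low ![b, 1] ![2, d] r
  rw [← two_fun, two_DD] at h2
  refine le_trans ?_ h2
  exact_mod_cast Nat.sub_le_sub_left (h1.trans h) _

/-- The dimension. -/
theorem two_dim (a d r : ℕ) (ha : 1 ≤ a) (hd : 1 ≤ d) : secDim ![a, 2] ![2, d] r =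
    ((if 2 * (r ⌈/⌉ a) ≤ d + 1 then r * (a + 1)
      else if 2 * (r ⌈/⌉ a) = d + 2 then
        (a + 1).choose 2 * (d + 1) - (a * (r ⌈/⌉ a) - r + 1).choose 2
      else (a + 1).choose 2 * (d + 1) : ℕ) : WithBot ℕ∞) := by
  obtain ⟨b, rfl⟩ : ∃ b, a = b + 1 := ⟨a - 1, by omega⟩
  have hlow := two_dlow b d r
  have hup := secDim_up ![b, 1] ![2, d] r
  rw [← two_fun, two_DD, two_M] at hup
  obtain ⟨hc1, hc2⟩ := two_ceil (a := b + 1) (r := r) (by omega)
  refine le_antisymm ?_ ?_
  · split_ifs with h1 h2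
    · refine hup.trans ?_
      exact_mod_cast min_le_left _ _
    · obtain ⟨q, rfl⟩ : ∃ q, d = 2 * q := ⟨r ⌈/⌉ (b + 1) - 1, by omega⟩
      have hQ : r ⌈/⌉ (b + 1) = q + 1 := by omega
      rw [hQ] at hc1 hc2 ⊢
      refine two_up b q r ?_ hc1
      rw [mul_add, mul_one] at hc2
      omega
    · refine hup.trans ?_
      exact_mod_cast min_le_right _ _
  · refine le_trans ?_ hlow
    split_ifs with h1 h2
    · have h3 : (b + 2) * r ≤ (b + 2).choose 2 * (d + 1) := by
        have h4 := two_tri (b + 1)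
        have h5 : 2 * ((b + 2) * r) ≤ 2 * ((b + 2).choose 2 * (d + 1)) := by
          calc 2 * ((b + 2) * r) ≤ 2 * ((b + 2) * ((b + 1) * (r ⌈/⌉ (b + 1)))) := by gcongr
            _ = (b + 2) * (b + 1) * (2 * (r ⌈/⌉ (b + 1))) := by ring
            _ ≤ (b + 2) * (b + 1) * (d + 1) := by gcongr
            _ = ((b + 1) * (b + 1) + (b + 1)) * (d + 1) := by ring
            _ = 2 * ((b + 2).choose 2 * (d + 1)) := by rw [← h4]; ring
        omega
      have h6 : r * (b + 1 + 1) = (b + 2) * r := by ring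
      rw [h6, Nat.sub_sub_self h3]
    · exact le_rfl
    · exact le_rfl

theorem two_key (Q m e r N T : ℕ) (hr : r + m = (m + e + 1) * (Q + 1))
    (hN : 2 * (N * (2 * Q + 1)) = (m + e + 2) * (m + e + 1) * (2 * Q + 1))
    (hT : 2 * T = m * m + m) : N * (2 * Q + 1) < r * (m + e + 1 + 1) + T := by
  have h1 : (r + m) * (m + e + 2) = (m + e + 1) * (Q + 1) * (m + e + 2) := by rw [hr]
  have h2 : 2 * (r * (m + e + 1 + 1) + T) = 2 * ((m + e + 1) * (Q + 1) * (m + e + 2)) -
      2 * (m * (m + e + 2)) + (m * m + m) := by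
    rw [← h1, ← hT, mul_add, add_mul, mul_add]
    omega
  have h3 : 2 * (m * (m + e + 2)) ≤ 2 * ((m + e + 1) * (Q + 1) * (m + e + 2)) := by
    rw [← h1, add_mul, mul_add]
    omega
  have h4 : (m + e + 2) * (m + e + 1) * (2 * Q + 1) + 2 * (m * (m + e + 2)) <
      2 * ((m + e + 1) * (Q + 1) * (m + e + 2)) + (m * m + m) := by
    nlinarith [sq_nonneg e, Nat.zero_le e]
  omega

/-- The defective cases. -/
theorem two_def (a d r : ℕ) (ha : 1 ≤ a) (hd : 1 ≤ d) : Defective ![a, 2] ![2, d] r ↔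
    2 * (r ⌈/⌉ a) = d + 2 ∧ ¬ a ∣ r := by
  rw [Defective, two_dim a d r ha hd]
  obtain ⟨b, rfl⟩ : ∃ b, a = b + 1 := ⟨a - 1, by omega⟩
  have hM : ∀ i, 1 ≤ (![2, d] : Fin 2 → ℕ) i := by
    intro i
    fin_cases i
    · show 1 ≤ 2
      omega
    · exact hd
  have hsv : svDim ![b + 1, 2] ![2, d] = b + 1 := by
    rw [two_fun, svDimB _ hM, two_M]
  have hcd : Fintype.card (Idx ![b + 1, 2] ![2, d]) = (b + 2).choose 2 * (d + 1) := by
    rw [two_fun, card_IdxB, two_DD]
  rw [hsv, hcd]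
  obtain ⟨hc1, hc2⟩ := two_ceil (a := b + 1) (r := r) (by omega)
  have hN := two_tri (b + 1)
  split_ifs with h1 h2
  · constructor
    · intro h
      have h3 : r * (b + 1 + 1) < min (r * (b + 1 + 1)) ((b + 2).choose 2 * (d + 1)) := by
        exact_mod_cast h
      exact absurd (lt_of_lt_of_le h3 (min_le_left _ _)) (lt_irrefl _)
    · rintro ⟨h, -⟩
      omega
  · have hdv : (b + 1) ∣ r ↔ (b + 1) * (r ⌈/⌉ (b + 1)) - r = 0 := by
      constructor
      · rintro ⟨s, hs⟩
        rw [hs] at hc1 hc2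
        have h3 : s ≤ r ⌈/⌉ (b + 1) := by
          rw [hs]
          exact Nat.le_of_mul_le_mul_left hc1 (by omega)
        have h4 : r ⌈/⌉ (b + 1) < s + 1 := by
          rw [hs]
          refine Nat.lt_of_mul_lt_mul_left (a := b + 1) ?_
          rw [mul_add, mul_one]
          exact hc2
        have h5 : r ⌈/⌉ (b + 1) = s := by omega
        rw [h5, hs, Nat.sub_self]
      · intro h
        have h3 : r = (b + 1) * (r ⌈/⌉ (b + 1)) := by omega
        exact ⟨_, h3⟩
    rw [hdv]
    constructor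
    · intro h
      refine ⟨h2, fun h0 => ?_⟩
      rw [h0] at h
      have h3 : (b + 2).choose 2 * (d + 1) - (0 + 1).choose 2 <
          min (r * (b + 1 + 1)) ((b + 2).choose 2 * (d + 1)) := by
        exact_mod_cast h
      have h4 : (0 + 1).choose 2 = 0 := rfl
      rw [h4, Nat.sub_zero] at h3
      exact absurd (lt_of_lt_of_le h3 (min_le_right _ _)) (lt_irrefl _)
    · rintro ⟨-, h0⟩
      generalize hQ : r ⌈/⌉ (b + 1) = Q at *
      obtain ⟨m, hm⟩ : ∃ m, m = (b + 1) * Q - r := ⟨_, rfl⟩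
      rw [← hm] at h0 ⊢
      have hmr : m + r = (b + 1) * Q := by omega
      have hmb : m < b + 1 := by omega
      have hm2 := two_tri m
      have hN2 : 2 * ((b + 2).choose 2 * (d + 1)) = (b + 2) * (b + 1) * (d + 1) := by
        calc 2 * ((b + 2).choose 2 * (d + 1)) = 2 * (b + 1 + 1).choose 2 * (d + 1) := by ring
          _ = (b + 2) * (b + 1) * (d + 1) := by rw [hN]; ring
      have hd2 : d + 1 = 2 * Q - 1 := by omega
      have hkey : (b + 2).choose 2 * (d + 1) < r * (b + 1 + 1) + (m + 1).choose 2 := by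
        obtain ⟨e, he⟩ : ∃ e, b + 1 = m + e + 1 := ⟨b - m, by omega⟩
        obtain ⟨Q', rfl⟩ : ∃ Q', Q = Q' + 1 := ⟨Q - 1, by omega⟩
        have hd3 : d = 2 * Q' := by omega
        subst hd3
        have hr : r = (b + 1) * (Q' + 1) - m := by omega
        have hb : b = m + e := by omega
        subst hb
        have hr2 : r + m = (m + e + 1) * (Q' + 1) := by omega
        exact two_key Q' m e r _ _ hr2 hN2 hm2
      have hpos : 1 ≤ (m + 1).choose 2 := Nat.choose_pos (by omega)
      have hNpos : 1 ≤ (b + 2).choose 2 * (d + 1) :=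
        Nat.mul_pos (Nat.choose_pos (by omega)) (by omega)
      have hmin : (b + 2).choose 2 * (d + 1) - (m + 1).choose 2 <
          min (r * (b + 1 + 1)) ((b + 2).choose 2 * (d + 1)) := by
        rw [lt_min_iff]
        constructor
        · rcases Nat.eq_zero_or_pos r with hr | hr
          · exfalso
            have hQ1 : 1 ≤ Q := by omega
            have hQ2 : (b + 1) * 1 ≤ (b + 1) * Q := Nat.mul_le_mul_left _ hQ1
            omega
          · have hr3 : 1 ≤ r * (b + 1 + 1) := Nat.mul_pos hr (by omega)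
            omega
        · omega
      exact_mod_cast hmin
  · constructor
    · intro h
      have h3 : (b + 2).choose 2 * (d + 1) <
          min (r * (b + 1 + 1)) ((b + 2).choose 2 * (d + 1)) := by
        exact_mod_cast h
      exact absurd (lt_of_lt_of_le h3 (min_le_right _ _)) (lt_irrefl _)
    · rintro ⟨h, -⟩
      exact absurd h h2

end Pool.Agent.SV.C
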