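import Pool.Agent.Lib.MP_b54217_ag.C.FinC
import Pool.Agent.Lib.MP_b54217_ag.C.Perm
import Pool.Agent.Lib.MP_b54217_ag.C.TwoFin
import Pool.Agent.Lib.MP_b54217_ag.Final

/-!
# THEOREM C.  The classification for all but finitely many multidegrees
-/

set_option autoImplicit false

namespace Pool.Agent.SV.C

/-- The general upper bound. -/
theorem all_up {k : ℕ} (n d : Fin k → ℕ) (hn : ∀ i, 1 ≤ n i) (hd : ∀ i, 1 ≤ d i) (r : ℕ) :
    secDim n d r ≤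
      ((min (r * (svDim n d + 1)) (Fintype.card (Idx n d)) : ℕ) : WithBot ℕ∞) := by
  obtain ⟨M, rfl⟩ : ∃ M : Fin k → ℕ, n = fun i => M i + 1 :=
    ⟨fun i => n i - 1, funext fun i => (Nat.sub_add_cancel (hn i)).symm⟩
  rw [A.svDimB M hd, A.card_IdxB]
  exact A.secDim_up M d r

/-- Not defective: the expected dimension. -/
theorem all_nd {k : ℕ} {n d : Fin k → ℕ} (hn : ∀ i, 1 ≤ n i) (hd : ∀ i, 1 ≤ d i) {r : ℕ}
    (h : ¬ Defective n d r) : ¬ Defective n d r ∧ secDim n d r =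
      ((min (r * (svDim n d + 1)) (Fintype.card (Idx n d)) : ℕ) : WithBot ℕ∞) :=
  ⟨h, le_antisymm (all_up n d hn hd r) (not_lt.1 h)⟩

/-- The first family. -/
theorem all_two {k : ℕ} {n d : Fin k → ℕ} (hn : ∀ i, 1 ≤ n i) (hd : ∀ i, 1 ≤ d i) (r : ℕ)
    {i j : Fin k} (hij : i ≠ j) (hl : ∀ l, l = i ∨ l = j) (hnj : n j = 2) (hdi : d i = 2) :
    (Defective n d r ↔ 2 * (r ⌈/⌉ n i) = d j + 2 ∧ ¬ n i ∣ r) ∧
      (2 * (r ⌈/⌉ n i) = d j + 2 → secDim n d r = (((n i + 1).choose 2 * (d j + 1) -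
          (n i * (r ⌈/⌉ n i) - r + 1).choose 2 : ℕ) : WithBot ℕ∞)) := by
  obtain ⟨e, hn', hd'⟩ := perm_two n d hij hl
  rw [hnj] at hn'
  rw [hdi] at hd'
  have h1 := defective_perm e n d r
  have h2 := secDim_perm e n d r
  rw [hn', hd'] at h1 h2
  refine ⟨h1.symm.trans (two_def (n i) (d j) r (hn i) (hd j)), fun hc => ?_⟩
  rw [← h2, two_dim (n i) (d j) r (hn i) (hd j), if_neg (by omega), if_pos hc]

/-- The second family. -/
theorem all_three {k : ℕ} {n d : Fin k → ℕ} (hn : ∀ i, 1 ≤ n i) (hd : ∀ i, 1 ≤ d i) {r : ℕ}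
    (hr : 1 ≤ r) {h i j : Fin k} (hhi : h ≠ i) (hhj : h ≠ j) (hij : i ≠ j)
    (hl : ∀ l, l = h ∨ l = i ∨ l = j) (hnj : n j = 2) (hdh : d h = 1) (hdi : d i = 1) :
    (Defective n d r ↔ r ⌈/⌉ n h + r ⌈/⌉ n i = d j + 2 ∧ ¬ n h ∣ r ∧ ¬ n i ∣ r) ∧
      (r ⌈/⌉ n h + r ⌈/⌉ n i = d j + 2 → secDim n d r = ((n h * n i * (d j + 1) -
          (n h * (r ⌈/⌉ n h) - r) * (n i * (r ⌈/⌉ n i) - r) : ℕ) : WithBot ℕ∞)) := by
  obtain ⟨e, hn', hd'⟩ := perm_three n d hhi hhj hij hl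
  rw [hnj] at hn'
  rw [hdh, hdi] at hd'
  have h1 := defective_perm e n d r
  have h2 := secDim_perm e n d r
  rw [hn', hd'] at h1 h2
  refine ⟨h1.symm.trans (defective_iff (n h) (n i) (d j) r (hn h) (hn i) (hd j) hr),
    fun hc => ?_⟩
  rw [← h2, dim_formula (n h) (n i) (d j) r (hn h) (hn i) hr, if_neg (by omega), if_pos hc]

/-- For every `n`, all `r` and all but finitely many multidegrees `d`: the defective cases and the
dimensions. -/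
theorem all {k : ℕ} (n : Fin k → ℕ) (hn : ∀ i, 2 ≤ n i) :
    ∃ E : Finset (Fin k → ℕ), ∀ d ∉ E, (∀ i, 1 ≤ d i) → ∀ r : ℕ, 1 ≤ r →
      (∀ i j, i ≠ j → (∀ l, l = i ∨ l = j) → n j = 2 → d i = 2 →
        2 * (r ⌈/⌉ n i) = d j + 2 → ¬ n i ∣ r →
        Defective n d r ∧ secDim n d r = (((n i + 1).choose 2 * (d j + 1) -
          (n i * (r ⌈/⌉ n i) - r + 1).choose 2 : ℕ) : WithBot ℕ∞)) ∧
      (∀ h i j, h ≠ i → h ≠ j → i ≠ j → (∀ l, l = h ∨ l = i ∨ l = j) → n j = 2 →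
        d h = 1 → d i = 1 → r ⌈/⌉ n h + r ⌈/⌉ n i = d j + 2 → ¬ n h ∣ r → ¬ n i ∣ r →
        Defective n d r ∧ secDim n d r = ((n h * n i * (d j + 1) -
          (n h * (r ⌈/⌉ n h) - r) * (n i * (r ⌈/⌉ n i) - r) : ℕ) : WithBot ℕ∞)) ∧
      ((¬ ∃ i j, i ≠ j ∧ (∀ l, l = i ∨ l = j) ∧ n j = 2 ∧ d i = 2 ∧
        2 * (r ⌈/⌉ n i) = d j + 2 ∧ ¬ n i ∣ r) →
      (¬ ∃ h i j, h ≠ i ∧ h ≠ j ∧ i ≠ j ∧ (∀ l, l = h ∨ l = i ∨ l = j) ∧ n j = 2 ∧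
        d h = 1 ∧ d i = 1 ∧ r ⌈/⌉ n h + r ⌈/⌉ n i = d j + 2 ∧ ¬ n h ∣ r ∧ ¬ n i ∣ r) →
        ¬ Defective n d r ∧ secDim n d r =
          ((min (r * (svDim n d + 1)) (Fintype.card (Idx n d)) : ℕ) : WithBot ℕ∞)) := by
  have hn1 : ∀ i, 1 ≤ n i := fun i => le_trans (by norm_num) (hn i)
  obtain ⟨d0, h0⟩ := finC n hn1
  refine ⟨Fintype.piFinset fun _ => Finset.range d0, fun d hdE hd r hr => ⟨?_, ?_, ?_⟩⟩
  · intro i j hij hl hnj hdi hc hdvd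
    obtain ⟨h1, h2⟩ := all_two hn1 hd r hij hl hnj hdi
    exact ⟨h1.2 ⟨hc, hdvd⟩, h2 hc⟩
  · intro h i j hhi hhj hij hl hnj hdh hdi hc hh hi
    obtain ⟨h1, h2⟩ := all_three hn1 hd hr hhi hhj hij hl hnj hdh hdi
    exact ⟨h1.2 ⟨hc, hh, hi⟩, h2 hc⟩
  · intro hA hB
    have hj : ∃ j, d0 ≤ d j := by
      by_contra hcon
      push Not at hcon
      exact hdE (Fintype.mem_piFinset.2 fun i => Finset.mem_range.2 (hcon i))
    obtain ⟨j, hj⟩ := hj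
    by_cases hex : n j = 2 ∧ ((∃ i, i ≠ j ∧ 2 ≤ n i ∧ d i = 2 ∧
        ∀ l, l ≠ i → l ≠ j → n l = 1) ∨
        ∃ i i', i ≠ j ∧ i' ≠ j ∧ i ≠ i' ∧ 2 ≤ n i ∧ 2 ≤ n i' ∧ d i = 1 ∧ d i' = 1 ∧
          ∀ l, l ≠ i → l ≠ i' → l ≠ j → n l = 1)
    · obtain ⟨hnj, ⟨i, hij, -, hdi, hl⟩ | ⟨h, i, hhj, hij, hhi, -, -, hdh, hdi, hl⟩⟩ := hex
      · have hl' : ∀ l, l = i ∨ l = j := by
          intro l
          by_contra hcon
          rw [not_or] at hcon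
          have h1 := hl l hcon.1 hcon.2
          have h2 := hn l
          omega
        refine all_nd hn1 hd fun hdef => hA ?_
        obtain ⟨h3, h4⟩ := (all_two hn1 hd r hij hl' hnj hdi).1.1 hdef
        exact ⟨i, j, hij, hl', hnj, hdi, h3, h4⟩
      · have hl' : ∀ l, l = h ∨ l = i ∨ l = j := by
          intro l
          by_contra hcon
          rw [not_or, not_or] at hcon
          have h1 := hl l hcon.1 hcon.2.1 hcon.2.2
          have h2 := hn l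
          omega
        refine all_nd hn1 hd fun hdef => hB ?_
        obtain ⟨h3, h4, h5⟩ := (all_three hn1 hd hr hhi hhj hij hl' hnj hdh hdi).1.1 hdef
        exact ⟨h, i, j, hhi, hhj, hij, hl', hnj, hdh, hdi, h3, h4, h5⟩
    · obtain ⟨h1, h2⟩ := h0 d hd j (hn j) hj hex r
      exact ⟨h2, h1⟩

end Pool.Agent.SV.C
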