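import Mathlib

/-!
# THEOREM C.  Nodes `y0 + ε z`, polynomials over `ℂ[ε]`
-/

set_option autoImplicit false

namespace Pool.Agent.SV.C

open Polynomial

theorem rowC_relPrime (a b : ℂ[X]) (hab : a ≠ b) (k l : ℕ) :
    IsRelPrime ((X - C a : (ℂ[X])[X]) ^ k) ((X - C b : (ℂ[X])[X]) ^ l) := by
  apply IsRelPrime.pow
  rw [Irreducible.isRelPrime_iff_not_dvd (prime_X_sub_C a).irreducible, dvd_iff_isRoot, IsRoot.def,
    eval_sub, eval_X, eval_C, sub_eq_zero]
  exact hab

theorem rowC_two (a : ℂ[X]) (k : ℕ) (hk : k ≤ 2) (F : (ℂ[X])[X]) (h1 : 1 ≤ k → F.eval a = 0)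
    (h2 : k = 2 → (derivative F).eval a = 0) : (X - C a) ^ k ∣ F := by
  rcases Nat.eq_zero_or_pos k with rfl | hk0
  · rw [pow_zero]
    exact one_dvd _
  · obtain ⟨G, hG⟩ := dvd_iff_isRoot.2 (h1 hk0)
    rcases Nat.lt_or_ge k 2 with hk1 | hk2
    · have : k = 1 := by omega
      subst this
      rw [pow_one]
      exact ⟨G, hG⟩
    · have : k = 2 := by omega
      subst this
      have h3 := h2 rfl
      rw [hG, derivative_mul, eval_add, eval_mul, eval_mul, derivative_sub, derivative_X,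
        derivative_C, sub_zero, eval_one, one_mul, eval_sub, eval_X, eval_C, sub_self, zero_mul,
        add_zero] at h3
      obtain ⟨G', hG'⟩ := dvd_iff_isRoot.2 h3
      rw [hG, hG', pow_two, ← mul_assoc]
      exact dvd_mul_right _ _

/-- Zeros with multiplicities at distinct nodes of a domain. -/
theorem row_dvd {T : Type} [Fintype T] (ρ : T → ℂ[X]) (hρ : Function.Injective ρ) (m : T → ℕ)
    (hm : ∀ t, m t ≤ 2) (F : (ℂ[X])[X]) (h1 : ∀ t, 1 ≤ m t → F.eval (ρ t) = 0)
    (h2 : ∀ t, m t = 2 → (derivative F).eval (ρ t) = 0) :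
    ∏ t, (X - C (ρ t)) ^ m t ∣ F := by
  apply Finset.prod_dvd_of_isRelPrime
  · intro s _ t _ hst
    exact rowC_relPrime _ _ (fun h => hst (hρ h)) _ _
  · intro t _
    exact rowC_two _ _ (hm t) F (h1 t) (h2 t)

theorem rowC_factor (y0 z : ℂ) :
    (X - C (C y0 + C z * X) : (ℂ[X])[X]).eval (C y0) = C (-z) * X := by
  rw [eval_sub, eval_X, eval_C, C_neg]
  ring

theorem row_eval {T : Type} [Fintype T] (y0 : ℂ) (z : T → ℂ) (m : T → ℕ) :
    (∏ t, (X - C (C y0 + C (z t) * X)) ^ m t : (ℂ[X])[X]).eval (C y0) =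
      C (∏ t, (-z t) ^ m t) * X ^ (∑ t, m t) := by
  rw [eval_prod, map_prod, ← Finset.prod_pow_eq_pow_sum, ← Finset.prod_mul_distrib]
  refine Finset.prod_congr rfl fun t _ => ?_
  rw [eval_pow, rowC_factor, mul_pow, C_pow]

theorem row_map {T : Type} [Fintype T] (y0 : ℂ) (z : T → ℂ) (m : T → ℕ) :
    (∏ t, (X - C (C y0 + C (z t) * X)) ^ m t : (ℂ[X])[X]).map (evalRingHom 0) =
      (X - C y0) ^ (∑ t, m t) := by
  rw [Polynomial.map_prod, ← Finset.prod_pow_eq_pow_sum]
  refine Finset.prod_congr rfl fun t _ => ?_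
  rw [Polynomial.map_pow, Polynomial.map_sub, map_X, map_C, coe_evalRingHom]
  simp

/-- The derivative at `y0` is divisible by `ε ^ (a - 1)`. -/
theorem row_deriv {T : Type} [Fintype T] (y0 : ℂ) (z : T → ℂ) (m : T → ℕ) :
    (X ^ (∑ t, m t) : ℂ[X]) ∣
      X * (derivative (∏ t, (X - C (C y0 + C (z t) * X)) ^ m t : (ℂ[X])[X])).eval (C y0) := by
  classical
  suffices H : ∀ s : Finset T, (X ^ (∑ t ∈ s, m t) : ℂ[X]) ∣
      (∏ t ∈ s, (X - C (C y0 + C (z t) * X)) ^ m t : (ℂ[X])[X]).eval (C y0) ∧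
      (X ^ (∑ t ∈ s, m t) : ℂ[X]) ∣
      X * (derivative (∏ t ∈ s, (X - C (C y0 + C (z t) * X)) ^ m t : (ℂ[X])[X])).eval (C y0) from
    (H Finset.univ).2
  intro s
  induction s using Finset.induction_on with
  | empty => simp
  | insert t s hts ih =>
    obtain ⟨ih1, ih2⟩ := ih
    rw [Finset.sum_insert hts, Finset.prod_insert hts, pow_add]
    have hpow : ∀ k : ℕ, ((X - C (C y0 + C (z t) * X) : (ℂ[X])[X]) ^ k).eval (C y0) =
        X ^ k * C ((-z t) ^ k) := by
      intro k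
      rw [eval_pow, rowC_factor, mul_pow, C_pow, mul_comm]
    constructor
    · rw [eval_mul, hpow]
      exact mul_dvd_mul (dvd_mul_right _ _) ih1
    · rw [derivative_mul, eval_add, eval_mul, eval_mul, mul_add]
      apply dvd_add
      · rw [derivative_pow, derivative_sub, derivative_X, derivative_C, sub_zero, mul_one, eval_mul,
          hpow, eval_C]
        rcases Nat.eq_zero_or_pos (m t) with h0 | h0
        · rw [h0]
          simp
        · have e : (X : ℂ[X]) ^ m t = X * X ^ (m t - 1) := by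
            rw [← pow_succ', Nat.sub_add_cancel h0]
          rw [e]
          have e2 : X * (((m t : ℕ) : ℂ[X]) * (X ^ (m t - 1) * C ((-z t) ^ (m t - 1))) *
              eval (C y0) (∏ t ∈ s, (X - C (C y0 + C (z t) * X)) ^ m t : (ℂ[X])[X])) =
              (X * X ^ (m t - 1) * eval (C y0)
                (∏ t ∈ s, (X - C (C y0 + C (z t) * X)) ^ m t : (ℂ[X])[X])) *
                (((m t : ℕ) : ℂ[X]) * C ((-z t) ^ (m t - 1))) := by ring
          rw [e2]
          exact Dvd.dvd.mul_right (mul_dvd_mul_left _ ih1) _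
      · rw [hpow]
        have e2 : X * (X ^ m t * C ((-z t) ^ m t) * eval (C y0)
            (derivative (∏ t ∈ s, (X - C (C y0 + C (z t) * X)) ^ m t : (ℂ[X])[X]))) =
            (X ^ m t * (X * eval (C y0)
              (derivative (∏ t ∈ s, (X - C (C y0 + C (z t) * X)) ^ m t : (ℂ[X])[X])))) *
              C ((-z t) ^ m t) := by ring
        rw [e2]
        exact Dvd.dvd.mul_right (mul_dvd_mul_left _ ih2) _

/-- Evaluation at `ε = 0`. -/
theorem map_eval (F : (ℂ[X])[X]) (y0 : ℂ) :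
    (F.map (evalRingHom 0)).eval y0 = (F.eval (C y0)).eval 0 := by
  have h := eval₂_at_apply (p := F) (evalRingHom (0 : ℂ)) (C y0)
  rw [coe_evalRingHom, eval_C] at h
  rw [eval_map, h]

end Pool.Agent.SV.C
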