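import Pool.Agent.Lib.MP_b54217_ag.C.Hit
import Pool.Agent.Lib.MP_b54217_ag.C.RowC

/-!
# THEOREM C.  The algebra of a cluster
-/

set_option autoImplicit false

namespace Pool.Agent.SV.C

open Polynomial

variable {ι : Type} [Fintype ι] [DecidableEq ι] {n : ι → ℕ}

theorem clu_cancel {κ : ℂ} (hκ : κ ≠ 0) {a e k : ℕ} (hk : a + e ≤ k) {g : ℂ[X]}
    (h : (X : ℂ[X]) ^ k ∣ C κ * X ^ a * g) : (X : ℂ[X]) ^ e ∣ g := by
  have h1 : (X : ℂ[X]) ^ a * X ^ e ∣ X ^ a * (C κ * g) := by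
    rw [← pow_add]
    refine (pow_dvd_pow _ hk).trans ?_
    rw [mul_comm (C κ), mul_assoc] at h
    exact h
  have h2 : (X : ℂ[X]) ^ e ∣ C κ * g :=
    (mul_dvd_mul_iff_left (pow_ne_zero a X_ne_zero)).mp h1
  exact (IsUnit.dvd_mul_left (isUnit_C.mpr hκ.isUnit)).mp h2

theorem clu_root {G : (ℂ[X])[X]} {y0 : ℂ} (h : (X : ℂ[X]) ^ 1 ∣ G.eval (C y0)) :
    (X - C y0) ∣ G.map (evalRingHom 0) := by
  rw [dvd_iff_isRoot, IsRoot.def, map_eval]
  obtain ⟨g, hg⟩ := h
  rw [hg]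
  simp

theorem clu_root2 {G : (ℂ[X])[X]} {y0 : ℂ} (h : (X : ℂ[X]) ^ 1 ∣ G.eval (C y0))
    (h' : (X : ℂ[X]) ^ 1 ∣ (derivative G).eval (C y0)) :
    (X - C y0) ^ 2 ∣ G.map (evalRingHom 0) := by
  obtain ⟨K, hK⟩ := clu_root h
  have h2 := clu_root h'
  rw [← derivative_map, hK] at h2
  rw [hK, sq]
  refine mul_dvd_mul_left _ ?_
  rw [dvd_iff_isRoot, IsRoot.def] at h2 ⊢
  simpa using h2

/-- `F p = Q_p G_p`, `Q_p = ∏ (Y - y0 - ε z_t) ^ (st p t)` (`row_dvd`), `Q_p(y0) = κ ε^(a p)`,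
`κ ≠ 0`.  `hj`: `ε^2 | G_p(y0)` for `p = update ctr j l2` (`a p ≤ 2`, also for `p = ctr`);
`hi`, `l2 ≠ l`: `ε | G_p(y0)` for `p = update ctr i l2`; `hi`, `l2 = l`: `ε | G_(q')(y0)` because
`a q' + 3 < a q`; `ho`: `ε | G_p(y0)` for `p = update ctr o v`; `hd`: `ε | G'_ctr(y0)`.
At `ε = 0`: `F p = (Y - y0)^(a p) G_p`. -/
theorem clu (hn : ∀ i, 2 ≤ n i) (hL : 3 ≤ Fintype.card ι) (s : Sh n) (y0 : ℂ)
    (z : s.Cl × Fin 2 → ℂ) (hz : Function.Injective z) (hz0 : ∀ t, z t ≠ 0)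
    (F : Gr n → (ℂ[X])[X])
    (hU1 : ∀ (t : s.Cl × Fin 2) (p : Gr n), 1 ≤ st p t.1 →
      (F p).eval (C y0 + C (z t) * X) = 0)
    (hU2 : ∀ t : s.Cl × Fin 2, (derivative (F t.1)).eval (C y0 + C (z t) * X) = 0)
    (hi : ∀ l2, (F (Function.update s.ctr s.i l2)).eval (C y0) +
      X ^ 3 * (F (Function.update s.s1 s.i l2)).eval (C y0) = 0)
    (hj : ∀ l2, (F (Function.update s.ctr s.j l2)).eval (C y0) +
      X ^ 4 * (F (Function.update s.q s.j l2)).eval (C y0) = 0)
    (ho : ∀ o, o ≠ s.i → o ≠ s.j → ∀ v, (F (Function.update s.ctr o v)).eval (C y0) +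
      X ^ 3 * (F (Function.update s.s1 o v)).eval (C y0) +
      X ^ 4 * (F (Function.update s.q o v)).eval (C y0) +
      X ^ 7 * (F (Function.update s.q' o v)).eval (C y0) = 0)
    (hd : (derivative (F s.ctr)).eval (C y0) + X ^ 3 * (derivative (F s.s1)).eval (C y0) +
      X ^ 4 * (derivative (F s.q)).eval (C y0) + X ^ 7 * (derivative (F s.q')).eval (C y0) = 0)
    (p : Gr n) : (X - C y0) ^ s.D p ∣ (F p).map (evalRingHom 0) := by
  classical
  -- the products
  have hρ : Function.Injective fun t : s.Cl × Fin 2 => (C y0 + C (z t) * X : ℂ[X]) := by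
    intro t t' htt
    have := congrArg (fun f : ℂ[X] => f.coeff 1) htt
    simp only [coeff_add, coeff_C_succ, coeff_C_mul, coeff_X_one, zero_add, mul_one] at this
    exact hz this
  have ha : ∀ p, ∑ t : s.Cl × Fin 2, st p (t.1 : Gr n) = s.a p := by
    intro p
    rw [Sh.a, ← Finset.sum_coe_sort s.Cl (fun q => 2 * st p q), Fintype.sum_prod_type]
    exact Finset.sum_congr rfl fun c _ => by simp
  obtain ⟨Q, hQ⟩ : ∃ Q : Gr n → (ℂ[X])[X], Q = fun p => ∏ t : s.Cl × Fin 2,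
    (X - C (C y0 + C (z t) * X)) ^ st p (t.1 : Gr n) := ⟨_, rfl⟩
  have hdvd : ∀ p, Q p ∣ F p := by
    intro p
    rw [hQ]
    refine row_dvd _ hρ (fun t => st p (t.1 : Gr n)) (fun t => st_le_two _ _) (F p) ?_ ?_
    · intro t ht
      exact hU1 t p ht
    · intro t ht
      have := hU2 t
      rw [← (st_eq_two_iff _ _).mp ht] at this
      exact this
  choose G hG using hdvd
  obtain ⟨κ, hκ⟩ : ∃ κ : Gr n → ℂ, κ = fun p => ∏ t : s.Cl × Fin 2, (-z t) ^ st p (t.1 : Gr n) :=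
    ⟨_, rfl⟩
  have hκ0 : ∀ p, κ p ≠ 0 := by
    intro p
    rw [hκ]
    exact Finset.prod_ne_zero_iff.mpr fun t _ => pow_ne_zero _ (neg_ne_zero.mpr (hz0 t))
  have hQe : ∀ p, (Q p).eval (C y0) = C (κ p) * X ^ s.a p := by
    intro p
    rw [hQ, hκ, ← ha p]
    exact row_eval y0 z _
  have hQm : ∀ p, (Q p).map (evalRingHom 0) = (X - C y0) ^ s.a p := by
    intro p
    rw [hQ, ← ha p]
    exact row_map y0 z _
  have hFe : ∀ p, (F p).eval (C y0) = C (κ p) * X ^ s.a p * (G p).eval (C y0) := by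
    intro p
    rw [hG p, eval_mul, hQe p]
  have hFm : ∀ p, (F p).map (evalRingHom 0) = (X - C y0) ^ s.a p * (G p).map (evalRingHom 0) := by
    intro p
    rw [hG p, Polynomial.map_mul, hQm p]
  -- divisibility
  have key : ∀ (p : Gr n) (e k : ℕ), s.a p + e ≤ k → (X : ℂ[X]) ^ k ∣ (F p).eval (C y0) →
      (X : ℂ[X]) ^ e ∣ (G p).eval (C y0) := by
    intro p e k hk h
    rw [hFe p] at h
    exact clu_cancel (hκ0 p) hk h
  have hj' : ∀ l2, (X : ℂ[X]) ^ 2 ∣ (G (Function.update s.ctr s.j l2)).eval (C y0) := by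
    intro l2
    have hle : s.a (Function.update s.ctr s.j l2) ≤ 2 := by
      apply s.a_le
      rw [Function.update_of_ne s.hij]
      exact s.hl.symm
    refine key _ 2 4 (by omega) ?_
    rw [eq_neg_of_add_eq_zero_left (hj l2)]
    exact (dvd_neg.mpr (dvd_mul_right _ _))
  have hctr : (X : ℂ[X]) ^ 2 ∣ (G s.ctr).eval (C y0) := by
    have := hj' (s.ctr s.j)
    rwa [Function.update_eq_self] at this
  have hi' : ∀ l2, l2 ≠ s.l →
      (X : ℂ[X]) ^ 1 ∣ (G (Function.update s.ctr s.i l2)).eval (C y0) := by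
    intro l2 hl2
    have hle : s.a (Function.update s.ctr s.i l2) ≤ 2 := by
      apply s.a_le
      rw [Function.update_self]
      exact hl2
    refine key _ 1 3 (by omega) ?_
    rw [eq_neg_of_add_eq_zero_left (hi l2)]
    exact (dvd_neg.mpr (dvd_mul_right _ _))
  have ho' : ∀ o, o ≠ s.i → o ≠ s.j → ∀ v,
      (X : ℂ[X]) ^ 1 ∣ (G (Function.update s.ctr o v)).eval (C y0) := by
    intro o hoi hoj v
    have hle : s.a (Function.update s.ctr o v) ≤ 2 := by
      apply s.a_le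
      rw [Function.update_of_ne hoi.symm]
      exact s.hl.symm
    refine key _ 1 3 (by omega) ?_
    have h := ho o hoi hoj v
    have h2 : (F (Function.update s.ctr o v)).eval (C y0) =
        X ^ 3 * (-((F (Function.update s.s1 o v)).eval (C y0) +
      X * (F (Function.update s.q o v)).eval (C y0) +
      X ^ 4 * (F (Function.update s.q' o v)).eval (C y0))) := by
      linear_combination h
    rw [h2]
    exact dvd_mul_right _ _
  have hq' : (X : ℂ[X]) ^ 1 ∣ (G s.q').eval (C y0) := by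
    have h := hi s.l
    rw [s.update_s1] at h
    have h1 : (F s.q).eval (C y0) = - (X ^ 3 * (F s.q').eval (C y0)) :=
      eq_neg_of_add_eq_zero_left h
    have h2 : (X : ℂ[X]) ^ s.a s.q ∣ X ^ 3 * (F s.q').eval (C y0) := by
      rw [← dvd_neg, ← h1, hFe s.q]
      exact Dvd.intro_left (C (κ s.q) * (G s.q).eval (C y0)) (by ring)
    have h3 := s.a_q hn hL
    refine key _ 1 (s.a s.q' + 1) le_rfl ?_
    have h4 : (X : ℂ[X]) ^ 3 * X ^ (s.a s.q' + 1) ∣ X ^ 3 * (F s.q').eval (C y0) := by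
      rw [← pow_add]
      exact (pow_dvd_pow _ (by omega)).trans h2
    exact (mul_dvd_mul_iff_left (pow_ne_zero 3 X_ne_zero)).mp h4
  have hctr' : (X : ℂ[X]) ^ 1 ∣ (derivative (G s.ctr)).eval (C y0) := by
    have hle : s.a s.ctr ≤ 2 := s.a_le s.hl.symm
    have h1 : (derivative (F s.ctr)).eval (C y0) =
        X ^ 3 * (-((derivative (F s.s1)).eval (C y0) + X * (derivative (F s.q)).eval (C y0) +
          X ^ 4 * (derivative (F s.q')).eval (C y0))) := by
      linear_combination hd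
    have h2 : (derivative (F s.ctr)).eval (C y0) =
        (derivative (Q s.ctr)).eval (C y0) * (G s.ctr).eval (C y0) +
        C (κ s.ctr) * X ^ s.a s.ctr * (derivative (G s.ctr)).eval (C y0) := by
      rw [hG s.ctr, derivative_mul, eval_add, eval_mul, eval_mul, hQe]
    have h3 : (X : ℂ[X]) ^ s.a s.ctr ∣ X * (derivative (Q s.ctr)).eval (C y0) := by
      rw [hQ, ← ha s.ctr]
      exact row_deriv y0 z _
    have h4 : (X : ℂ[X]) ^ (s.a s.ctr + 1) ∣
        (derivative (Q s.ctr)).eval (C y0) * (G s.ctr).eval (C y0) := by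
      have h5 := mul_dvd_mul h3 hctr
      have h6 : (X : ℂ[X]) * X ^ (s.a s.ctr + 1) ∣
          X * ((derivative (Q s.ctr)).eval (C y0) * (G s.ctr).eval (C y0)) := by
        have e1 : (X : ℂ[X]) * X ^ (s.a s.ctr + 1) = X ^ s.a s.ctr * X ^ 2 := by ring
        rw [e1, ← mul_assoc]
        exact h5
      exact (mul_dvd_mul_iff_left X_ne_zero).mp h6
    have h5 : (X : ℂ[X]) ^ (s.a s.ctr + 1) ∣
        C (κ s.ctr) * X ^ s.a s.ctr * (derivative (G s.ctr)).eval (C y0) := by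
      have h6 : (X : ℂ[X]) ^ (s.a s.ctr + 1) ∣ (derivative (F s.ctr)).eval (C y0) := by
        rw [h1]
        exact (pow_dvd_pow _ (by omega)).trans (dvd_mul_right _ _)
      rw [h2] at h6
      exact (dvd_add_right h4).mp h6
    exact clu_cancel (hκ0 _) le_rfl h5
  -- conclusion
  have fin0 : ∀ p e, (X - C y0) ^ e ∣ (G p).map (evalRingHom 0) → s.D p ≤ s.a p + e →
      (X - C y0) ^ s.D p ∣ (F p).map (evalRingHom 0) := by
    intro p e h hD
    refine (pow_dvd_pow _ hD).trans ?_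
    rw [hFm p, pow_add]
    exact mul_dvd_mul_left _ h
  obtain ⟨c1, c2, c3, -, -, -⟩ := s.q_ne
  have hne : Nonempty ι := ⟨s.i⟩
  by_cases p1 : p = s.ctr
  · subst p1
    refine fin0 _ 2 (clu_root2 ((pow_dvd_pow _ (by norm_num)).trans hctr) hctr') ?_
    rw [Sh.D, st_self, if_neg c2.symm, if_neg c1.symm]
    omega
  have hst : st p s.ctr ≤ 1 := by
    have h1 := st_le_two p s.ctr
    have h2 : st p s.ctr ≠ 2 := fun h => p1 ((st_eq_two_iff _ _).mp h)
    omega
  by_cases p2 : p = s.q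
  · refine fin0 _ 0 (by rw [pow_zero]; exact one_dvd _) ?_
    rw [Sh.D, if_neg (by rw [p2]; exact c3), if_pos p2]
    omega
  by_cases p3 : p = s.q'
  · refine fin0 _ 1 (by rw [pow_one, p3]; exact clu_root hq') ?_
    have h0 : st p s.ctr = 0 := by
      by_contra hne
      obtain ⟨o, ho⟩ := (st_pos_iff p s.ctr).mp (by omega)
      have hqi : s.q' s.i = s.l := by
        rw [Sh.q', Function.update_of_ne s.hij, Sh.q, Function.update_self]
      have hqj : s.q' s.j = s.l' := by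
        rw [Sh.q', Function.update_self]
      by_cases hoi : o = s.i
      · have h1 := congrFun ho s.j
        rw [Function.update_of_ne (by rw [hoi]; exact s.hij.symm), p3, hqj] at h1
        exact s.hl' h1.symm
      · have h1 := congrFun ho s.i
        rw [Function.update_of_ne (fun h => hoi h.symm), p3, hqi] at h1
        exact s.hl h1.symm
    rw [Sh.D, h0, if_pos p3, if_neg p2]
    omega
  by_cases p4 : st p s.ctr = 0
  · refine fin0 _ 0 (by rw [pow_zero]; exact one_dvd _) ?_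
    rw [Sh.D, p4, if_neg p3, if_neg p2]
    omega
  refine fin0 _ 1 ?_ (by rw [Sh.D, if_neg p3, if_neg p2]; omega)
  rw [pow_one]
  apply clu_root
  obtain ⟨o, ho2⟩ := (st_pos_iff s.ctr p).mp (by rw [st_comm]; omega)
  by_cases hoi : o = s.i
  · subst hoi
    rw [ho2]
    refine hi' _ ?_
    intro h
    apply p2
    rw [ho2, h, Sh.q]
  by_cases hoj : o = s.j
  · subst hoj
    rw [ho2]
    exact (pow_dvd_pow _ (by norm_num)).trans (hj' _)
  rw [ho2]
  exact ho' o hoi hoj _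

end Pool.Agent.SV.C
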