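import Pool.Agent.Lib.MP_b54217_ag.C.DefsC
import Pool.Agent.Lib.MP_b54217_ag.A.Kap
import Pool.Agent.Lib.MP_b54217_ag.I.Card

/-!
# THEOREM C.  From the rows to polynomials in several variables
-/

set_option autoImplicit false

namespace Pool.Agent.SV.C

open Module Pool.Agent.SV.E Pool.Agent.SV.A
open Pool.Agent.SV.G (Sg DD mem_DD)

variable {k : ℕ}

/-- The linear blocks. -/
abbrev Li (M : Fin k → ℕ) (j : Fin k) : Type := {i : Fin k // i ≠ j ∧ 1 ≤ M i}

/-- `n i = M i + 1`. -/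
abbrev nL (M : Fin k → ℕ) (j : Fin k) : Li M j → ℕ := fun i => M i.1 + 1

/-- Values of the affine coordinates at the grid point `p`: the block `i` is at the origin if
`p i = 0`, at the unit vector `e_l` if `p i = l + 1`; the block `j` is the variable. -/
noncomputable def gv (M : Fin k → ℕ) (j : Fin k) (p : Gr (nL M j)) (x : Sg M) : Polynomial ℂ :=
  if h : x.1 ≠ j ∧ 1 ≤ M x.1 then (if p ⟨x.1, h⟩ = x.2.succ then 1 else 0) else Polynomial.X

/-- The rows of a polynomial. -/
noncomputable def rows (M : Fin k → ℕ) (j : Fin k) :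
    MvPolynomial (Sg M) ℂ →ₗ[ℂ] Rw (nL M j) :=
  LinearMap.pi fun p => (MvPolynomial.aeval (gv M j p)).toLinearMap

/-- The affine point `x` with barycentric coordinates `u_i / ∑ u_i`. -/
noncomputable def aff (M : Fin k → ℕ) (j : Fin k) (P : Pt (nL M j)) (x : Sg M) : ℂ :=
  if h : x.1 ≠ j ∧ 1 ≤ M x.1 then P.1 ⟨x.1, h⟩ x.2.succ / ∑ l, P.1 ⟨x.1, h⟩ l else P.2

/-! ### Products over the blocks -/

theorem prod_Li {R : Type*} [CommMonoid R] {M : Fin k → ℕ} {j : Fin k} (g : Fin k → R)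
    (h : ∀ i, i ≠ j → M i = 0 → g i = 1) : ∏ i, g i = g j * ∏ i : Li M j, g i.1 := by
  classical
  rw [← Finset.mul_prod_erase Finset.univ g (Finset.mem_univ j)]
  congr 1
  rw [← Finset.prod_subtype (Finset.univ.filter fun i => i ≠ j ∧ 1 ≤ M i) (fun x => by simp) g]
  symm
  apply Finset.prod_subset
  · intro i hi
    rw [Finset.mem_filter] at hi
    exact Finset.mem_erase.2 ⟨hi.2.1, Finset.mem_univ _⟩
  · intro i hi hi'
    rw [Finset.mem_erase] at hi
    refine h i hi.1 ?_
    by_contra h0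
    exact hi' (Finset.mem_filter.2 ⟨Finset.mem_univ _, hi.1, Nat.one_le_iff_ne_zero.2 h0⟩)

theorem card_conn {M δ : Fin k → ℕ} {j : Fin k} (hj : M j = 1)
    (hδ : ∀ i, i ≠ j → 1 ≤ M i → δ i = 1) :
    (DD M δ).card = Fintype.card (Gr (nL M j)) * (δ j + 1) := by
  rw [Pool.Agent.SV.G.card_DD, prod_Li (M := M) (j := j) _ (fun i _ h => by rw [h]; simp), hj,
    Nat.choose_one_right, Fintype.card_pi, mul_comm, add_comm 1]
  congr 1
  refine Finset.prod_congr rfl fun i _ => ?_
  rw [hδ i.1 i.2.1 i.2.2, Fintype.card_fin, Nat.choose_succ_self_right]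

theorem tau_conn {M : Fin k → ℕ} {j : Fin k} (hj : M j = 1) :
    tau (nL M j) = ∑ i, M i + 1 := by
  have h := prod_Li (R := Multiplicative ℕ) (M := M) (j := j) (fun i => Multiplicative.ofAdd (M i))
    (fun i _ h => by rw [h]; rfl)
  have h2 : ∑ i, M i = M j + ∑ i : Li M j, M i.1 := by
    have := congrArg Multiplicative.toAdd h
    simpa using this
  rw [tau, h2, hj]
  simp only [nL, Nat.add_sub_cancel]
  omega

/-! ### The reconstruction -/

/-- The variable of the block `j`. -/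
def xj {M : Fin k → ℕ} {j : Fin k} (hj : M j = 1) : Sg M := ⟨j, ⟨0, by omega⟩⟩

/-- The barycentric coordinates. -/
noncomputable def bary (M : Fin k → ℕ) (i : Fin k) : Fin (M i + 1) → MvPolynomial (Sg M) ℂ :=
  Fin.cons (1 - ∑ l, MvPolynomial.X ⟨i, l⟩) fun l => MvPolynomial.X ⟨i, l⟩

theorem bary_sum (M : Fin k → ℕ) (i : Fin k) : ∑ l, bary M i l = 1 := by
  rw [Fin.sum_univ_succ]
  simp [bary]

theorem bary_block (M : Fin k → ℕ) (i : Fin k) (a : Fin (M i) → ℕ) (ha : ∑ l, a l ≤ 1) :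
    ∑ m : Fin (M i + 1), bary M i m * ∏ l, (if m = l.succ then (1 : MvPolynomial (Sg M) ℂ)
      else 0) ^ a l = ∏ l, MvPolynomial.X ⟨i, l⟩ ^ a l := by
  classical
  by_cases h0 : ∀ l, a l = 0
  · simp [h0, bary_sum]
  push Not at h0
  obtain ⟨l0, hl0⟩ := h0
  have h1 : ∀ l, l ≠ l0 → a l = 0 := by
    intro l hl
    have h2 : ∑ l' ∈ {l, l0}, a l' ≤ ∑ l', a l' :=
      Finset.sum_le_sum_of_subset (Finset.subset_univ _)
    rw [Finset.sum_pair hl] at h2
    omega
  have h2 : a l0 = 1 := by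
    have : a l0 ≤ ∑ l', a l' :=
      Finset.single_le_sum (f := a) (fun _ _ => Nat.zero_le _) (Finset.mem_univ l0)
    omega
  have h3 : ∀ m : Fin (M i + 1), ∏ l, (if m = l.succ then (1 : MvPolynomial (Sg M) ℂ)
      else 0) ^ a l = if m = l0.succ then 1 else 0 := by
    intro m
    rw [Finset.prod_eq_single l0]
    · rw [h2, pow_one]
    · intro l _ hl
      rw [h1 l hl, pow_zero]
    · intro h
      exact absurd (Finset.mem_univ _) h
  rw [Finset.sum_congr rfl fun m _ => by rw [h3 m], Finset.prod_eq_single l0]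
  · rw [h2, pow_one]
    simp [bary]
  · intro l _ hl
    rw [h1 l hl, pow_zero]
  · intro h
    exact absurd (Finset.mem_univ _) h

/-- The form with given rows. -/
noncomputable def recon {M : Fin k → ℕ} {j : Fin k} (hj : M j = 1) (G : Rw (nL M j)) :
    MvPolynomial (Sg M) ℂ :=
  ∑ p, (∏ i : Li M j, bary M i.1 (p i)) * Polynomial.aeval (MvPolynomial.X (xj hj)) (G p)

theorem recon_mono {M δ : Fin k → ℕ} {j : Fin k} (hj : M j = 1)
    (hδ : ∀ i, i ≠ j → 1 ≤ M i → δ i = 1) {a : Sg M →₀ ℕ} (ha : a ∈ DD M δ) (c : ℂ) :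
    recon hj (rows M j (MvPolynomial.monomial a c)) = MvPolynomial.monomial a c := by
  classical
  have hx : ∀ l : Fin (M j), (⟨j, l⟩ : Sg M) = xj hj := by
    intro l
    have : l = ⟨0, by omega⟩ := Fin.ext (by have := l.2; show l.1 = 0; omega)
    rw [this, xj]
  have h1 : ∀ p, Polynomial.aeval (MvPolynomial.X (xj hj) : MvPolynomial (Sg M) ℂ)
      (rows M j (MvPolynomial.monomial a c) p) =
      MvPolynomial.C c * ((∏ l, MvPolynomial.X (⟨j, l⟩ : Sg M) ^ a ⟨j, l⟩) *
        ∏ i : Li M j, ∏ l : Fin (M i.1),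
          (if p i = l.succ then (1 : MvPolynomial (Sg M) ℂ) else 0) ^ a ⟨i.1, l⟩) := by
    intro p
    have h2 : rows M j (MvPolynomial.monomial a c) p =
        MvPolynomial.aeval (gv M j p) (MvPolynomial.monomial a c) := rfl
    rw [h2, MvPolynomial.aeval_monomial, map_mul, Polynomial.algebraMap_eq, Polynomial.aeval_C,
      MvPolynomial.algebraMap_eq, Finsupp.prod_fintype _ _ (fun _ => pow_zero _), map_prod]
    congr 1
    rw [Fintype.prod_sigma, prod_Li (M := M) (j := j)]
    · congr 1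
      · refine Finset.prod_congr rfl fun l _ => ?_
        rw [gv, dif_neg (fun h => h.1 rfl), map_pow, Polynomial.aeval_X, hx l]
      · refine Finset.prod_congr rfl fun i _ => Finset.prod_congr rfl fun l _ => ?_
        rw [gv, dif_pos i.2, map_pow]
        split_ifs <;> simp
    · intro i _ hi
      apply Finset.prod_eq_one
      intro l _
      exact absurd l.2 (by omega)
  rw [recon, Finset.sum_congr rfl fun p _ => by rw [h1 p]]
  have h3 : ∀ p : Gr (nL M j), (∏ i : Li M j, bary M i.1 (p i)) *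
      (MvPolynomial.C c * ((∏ l, MvPolynomial.X (⟨j, l⟩ : Sg M) ^ a ⟨j, l⟩) *
        ∏ i : Li M j, ∏ l : Fin (M i.1),
          (if p i = l.succ then (1 : MvPolynomial (Sg M) ℂ) else 0) ^ a ⟨i.1, l⟩)) =
      MvPolynomial.C c * (∏ l, MvPolynomial.X (⟨j, l⟩ : Sg M) ^ a ⟨j, l⟩) *
        ∏ i : Li M j, (bary M i.1 (p i) * ∏ l : Fin (M i.1),
          (if p i = l.succ then (1 : MvPolynomial (Sg M) ℂ) else 0) ^ a ⟨i.1, l⟩) := by
    intro p
    rw [Finset.prod_mul_distrib]
    ring
  rw [Finset.sum_congr rfl fun p _ => h3 p, ← Finset.mul_sum]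
  have h4 := Finset.prod_univ_sum (fun i : Li M j => (Finset.univ : Finset (Fin (nL M j i))))
    (fun i m => bary M i.1 m * ∏ l : Fin (M i.1),
          (if m = l.succ then (1 : MvPolynomial (Sg M) ℂ) else 0) ^ a ⟨i.1, l⟩)
  rw [Fintype.piFinset_univ] at h4
  rw [← h4, MvPolynomial.monomial_eq, Finsupp.prod_fintype _ _ (fun _ => pow_zero _),
    Fintype.prod_sigma, prod_Li (M := M) (j := j), mul_assoc]
  · congr 2
    refine Finset.prod_congr rfl fun i _ => ?_
    refine bary_block M i.1 (fun l => a ⟨i.1, l⟩) ?_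
    have := mem_DD.1 ha i.1
    rwa [hδ i.1 i.2.1 i.2.2] at this
  · intro i _ hi
    apply Finset.prod_eq_one
    intro l _
    exact absurd l.2 (by omega)

theorem recon_add {M : Fin k → ℕ} {j : Fin k} (hj : M j = 1) (F G : Rw (nL M j)) :
    recon hj (F + G) = recon hj F + recon hj G := by
  simp only [recon, Pi.add_apply, map_add, mul_add, Finset.sum_add_distrib]

theorem recon_sum {M : Fin k → ℕ} {j : Fin k} (hj : M j = 1) {I : Type} (s : Finset I)
    (F : I → Rw (nL M j)) : recon hj (∑ i ∈ s, F i) = ∑ i ∈ s, recon hj (F i) := by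
  classical
  induction s using Finset.induction_on with
  | empty => simp [recon]
  | insert i s hi ih => rw [Finset.sum_insert hi, Finset.sum_insert hi, recon_add, ih]

theorem recon_rows {M δ : Fin k → ℕ} {j : Fin k} (hj : M j = 1)
    (hδ : ∀ i, i ≠ j → 1 ≤ M i → δ i = 1) {F : MvPolynomial (Sg M) ℂ} (hF : F ∈ H (DD M δ)) :
    recon hj (rows M j F) = F := by
  conv_lhs => rw [F.as_sum]
  rw [map_sum, recon_sum]
  conv_rhs => rw [F.as_sum]
  exact Finset.sum_congr rfl fun a ha => recon_mono hj hδ (mem_H.1 hF ha) _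

/-- `F(x, y) = ∑_p (∏ b_(p i)(x_i)) F_p(y)`, `b` the barycentric coordinates: both sides are
linear in `F`, check monomials (`Finset.prod_univ_sum`); `MvPolynomial.induction` on the monomials
of `H (DD M δ)`. -/
theorem rows_inj {M δ : Fin k → ℕ} {j : Fin k} (hj : M j = 1)
    (hδ : ∀ i, i ≠ j → 1 ≤ M i → δ i = 1) {F : MvPolynomial (Sg M) ℂ} (hF : F ∈ H (DD M δ))
    (h0 : rows M j F = 0) : F = 0 := by
  rw [← recon_rows hj hδ hF, h0]
  simp [recon]

theorem rows_mem {M δ : Fin k → ℕ} {j : Fin k} (_hj : M j = 1)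
    (_hδ : ∀ i, i ≠ j → 1 ≤ M i → δ i = 1) {F : MvPolynomial (Sg M) ℂ} (hF : F ∈ H (DD M δ)) :
    rows M j F ∈ DG (nL M j) (δ j + 1) := by
  classical
  rw [F.as_sum, map_sum]
  refine Submodule.sum_mem _ fun a ha => ?_
  rw [mem_DG]
  intro p
  have h2 : rows M j (MvPolynomial.monomial a (MvPolynomial.coeff a F)) p =
      MvPolynomial.aeval (gv M j p) (MvPolynomial.monomial a (MvPolynomial.coeff a F)) := rfl
  rw [h2, MvPolynomial.aeval_monomial, Polynomial.algebraMap_eq,
    Finsupp.prod_fintype _ _ (fun _ => pow_zero _), Polynomial.mem_degreeLT]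
  refine lt_of_le_of_lt Polynomial.degree_le_natDegree ?_
  rw [Nat.cast_lt, Nat.lt_succ_iff]
  refine (Polynomial.natDegree_C_mul_le _ _).trans ((Polynomial.natDegree_prod_le _ _).trans ?_)
  rw [Fintype.sum_sigma]
  refine le_trans ?_ (mem_DD.1 (mem_H.1 hF ha) j)
  rw [Finset.sum_eq_single j]
  · refine Finset.sum_le_sum fun l _ => ?_
    refine Polynomial.natDegree_pow_le.trans ?_
    rw [gv, dif_neg (fun h => h.1 rfl), Polynomial.natDegree_X, mul_one]
  · intro i _ hi
    apply Finset.sum_eq_zero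
    intro l _
    have hMi : 1 ≤ M i := by
      have := l.2
      omega
    rw [← Nat.le_zero]
    refine Polynomial.natDegree_pow_le.trans ?_
    rw [gv, dif_pos ⟨hi, hMi⟩]
    split_ifs <;> simp
  · intro h
    exact absurd (Finset.mem_univ _) h

/-! ### Values and derivatives -/

theorem pderiv_bary_ne {M : Fin k → ℕ} (x : Sg M) (i : Fin k) (hx : x.1 ≠ i)
    (m : Fin (M i + 1)) : MvPolynomial.pderiv x (bary M i m) = 0 := by
  classical
  have h : ∀ l, MvPolynomial.pderiv x (MvPolynomial.X (⟨i, l⟩ : Sg M) :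
      MvPolynomial (Sg M) ℂ) = 0 := by
    intro l
    refine MvPolynomial.pderiv_X_of_ne ?_
    intro h
    exact hx (by rw [← h])
  refine Fin.cases ?_ (fun l => ?_) m
  · rw [bary, Fin.cons_zero, map_sub, map_sum, Finset.sum_eq_zero fun l _ => h l]
    simp
  · rw [bary, Fin.cons_succ]
    exact h l

theorem pderiv_bary {M : Fin k → ℕ} (i : Fin k) (l : Fin (M i))
    (m : Fin (M i + 1)) : MvPolynomial.pderiv (⟨i, l⟩ : Sg M) (bary M i m) =
      (if m = l.succ then 1 else 0) - (if m = 0 then 1 else 0) := by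
  classical
  have h : ∀ l', MvPolynomial.pderiv (⟨i, l⟩ : Sg M) (MvPolynomial.X (⟨i, l'⟩ : Sg M) :
      MvPolynomial (Sg M) ℂ) = if l' = l then 1 else 0 := by
    intro l'
    split_ifs with h
    · rw [h, MvPolynomial.pderiv_X_self]
    · refine MvPolynomial.pderiv_X_of_ne ?_
      intro h'
      apply h
      have := (Sigma.mk.injEq _ _ _ _).mp h'
      exact eq_of_heq this.2
  refine Fin.cases ?_ (fun l' => ?_) m
  · rw [bary, Fin.cons_zero, map_sub, map_sum, Finset.sum_congr rfl fun l _ => h l,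
      Finset.sum_ite_eq', if_pos (Finset.mem_univ _), if_neg (Fin.succ_ne_zero l).symm, if_pos rfl]
    simp
  · rw [bary, Fin.cons_succ, h l', if_neg (Fin.succ_ne_zero l'), sub_zero]
    simp only [Fin.succ_inj]

theorem eval_bary {M : Fin k → ℕ} {j : Fin k} {P : Pt (nL M j)} (hP : Good P) (i : Li M j)
    (m : Fin (M i.1 + 1)) :
    MvPolynomial.eval (aff M j P) (bary M i.1 m) = P.1 i m / ∑ l, P.1 i l := by
  have h : ∀ l : Fin (M i.1), aff M j P ⟨i.1, l⟩ = P.1 i l.succ / ∑ l, P.1 i l := by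
    intro l
    rw [aff, dif_pos i.2]
  refine Fin.cases ?_ (fun l' => ?_) m
  · rw [bary, Fin.cons_zero, map_sub, map_sum, map_one]
    have h2 : ∑ l : Fin (M i.1), MvPolynomial.eval (aff M j P) (MvPolynomial.X ⟨i.1, l⟩) =
        ∑ l : Fin (M i.1), P.1 i l.succ / ∑ l, P.1 i l :=
      Finset.sum_congr rfl fun l _ => by rw [MvPolynomial.eval_X, h l]
    rw [h2, ← Finset.sum_div, eq_div_iff (hP i), sub_mul, div_mul_cancel₀ _ (hP i), one_mul,
      Fin.sum_univ_succ]
    ring
  · rw [bary, Fin.cons_succ, MvPolynomial.eval_X, h l']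

theorem aff_xj {M : Fin k → ℕ} {j : Fin k} (hj : M j = 1) (P : Pt (nL M j)) :
    aff M j P (xj hj) = P.2 := by
  rw [aff, dif_neg (fun h => h.1 rfl)]

theorem eval_aeval_xj {M : Fin k → ℕ} {j : Fin k} (hj : M j = 1) (P : Pt (nL M j))
    (f : Polynomial ℂ) : MvPolynomial.eval (aff M j P)
      (Polynomial.aeval (MvPolynomial.X (xj hj) : MvPolynomial (Sg M) ℂ) f) = f.eval P.2 := by
  rw [Polynomial.aeval_def, MvPolynomial.algebraMap_eq, Polynomial.hom_eval₂, MvPolynomial.eval_X,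
    aff_xj hj]
  have : (MvPolynomial.eval (aff M j P)).comp (MvPolynomial.C : ℂ →+* MvPolynomial (Sg M) ℂ) =
      RingHom.id ℂ := by
    ext c
    simp
  rw [this, Polynomial.eval₂_id]

theorem pderiv_xj {M : Fin k → ℕ} {j : Fin k} (hj : M j = 1) (G : Rw (nL M j)) :
    MvPolynomial.pderiv (xj hj) (recon hj G) =
      ∑ p, (∏ i : Li M j, bary M i.1 (p i)) *
        Polynomial.aeval (MvPolynomial.X (xj hj)) (Polynomial.derivative (G p)) := by
  classical
  rw [recon, map_sum]
  refine Finset.sum_congr rfl fun p _ => ?_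
  have h1 : MvPolynomial.pderiv (xj hj) (∏ i : Li M j, bary M i.1 (p i)) = 0 := by
    refine Finset.prod_induction _ (fun f => MvPolynomial.pderiv (xj hj) f = 0) ?_ ?_ ?_
    · intro f g hf hg
      rw [Derivation.leibniz, hf, hg, smul_zero, smul_zero, add_zero]
    · exact MvPolynomial.pderiv_one
    · intro i _
      exact pderiv_bary_ne _ _ (fun h => i.2.1 h.symm) _
  rw [Derivation.leibniz, h1, smul_zero, add_zero, Derivation.map_aeval,
    MvPolynomial.pderiv_X_self]
  simp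

theorem pderiv_lin {M : Fin k → ℕ} {j : Fin k} (hj : M j = 1) (G : Rw (nL M j)) (i : Li M j)
    (l : Fin (M i.1)) :
    MvPolynomial.pderiv (⟨i.1, l⟩ : Sg M) (recon hj G) =
      ∑ p : Gr (nL M j), ((if p i = l.succ then 1 else 0) - (if p i = 0 then 1 else 0)) *
        (∏ i' ∈ Finset.univ.erase i, bary M i'.1 (p i')) *
        Polynomial.aeval (MvPolynomial.X (xj hj)) (G p) := by
  classical
  rw [recon, map_sum]
  refine Finset.sum_congr rfl fun p _ => ?_
  have h1 : MvPolynomial.pderiv (⟨i.1, l⟩ : Sg M)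
      (∏ i' ∈ Finset.univ.erase i, bary M i'.1 (p i')) = 0 := by
    refine Finset.prod_induction _ (fun f => MvPolynomial.pderiv (⟨i.1, l⟩ : Sg M) f = 0) ?_ ?_ ?_
    · intro f g hf hg
      rw [Derivation.leibniz, hf, hg, smul_zero, smul_zero, add_zero]
    · exact MvPolynomial.pderiv_one
    · intro i' hi'
      refine pderiv_bary_ne _ _ (fun h => ?_) _
      exact (Finset.ne_of_mem_erase hi') (Subtype.ext h.symm)
  have h2 : MvPolynomial.pderiv (⟨i.1, l⟩ : Sg M)
      (Polynomial.aeval (MvPolynomial.X (xj hj) : MvPolynomial (Sg M) ℂ) (G p)) = 0 := by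
    rw [Derivation.map_aeval, MvPolynomial.pderiv_X_of_ne, smul_zero]
    intro h
    exact i.2.1 (congrArg Sigma.fst h).symm
  rw [← Finset.mul_prod_erase Finset.univ (fun i' : Li M j => bary M i'.1 (p i'))
    (Finset.mem_univ i), Derivation.leibniz, Derivation.leibniz, h1, h2, smul_zero, smul_zero,
    pderiv_bary]
  simp only [smul_eq_mul]
  ring

/-- If `F` is singular at `aff P` then the rows are singular at `P`. -/
theorem rows_dbl {M δ : Fin k → ℕ} {j : Fin k} (hj : M j = 1)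
    (hδ : ∀ i, i ≠ j → 1 ≤ M i → δ i = 1) {F : MvPolynomial (Sg M) ℂ} (hF : F ∈ H (DD M δ))
    {P : Pt (nL M j)} (hP : Good P) (h0 : ev (aff M j P) F = 0)
    (h1 : ∀ x, dv x (aff M j P) F = 0) : rows M j F ∈ DB P := by
  classical
  obtain ⟨G, hG⟩ : ∃ G, G = rows M j F := ⟨_, rfl⟩
  have hR : recon hj G = F := by rw [hG]; exact recon_rows hj hδ hF
  rw [← hG]
  have hprod : ∀ (s : Finset (Li M j)) (p : Gr (nL M j)), MvPolynomial.eval (aff M j P)
      (∏ i ∈ s, bary M i.1 (p i)) = (∏ i ∈ s, ∑ l, P.1 i l)⁻¹ * ∏ i ∈ s, P.1 i (p i) := by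
    intro s p
    rw [map_prod, Finset.prod_congr rfl fun i _ => eval_bary hP i (p i), Finset.prod_div_distrib,
      div_eq_inv_mul]
  have hne : ∀ s : Finset (Li M j), (∏ i ∈ s, ∑ l, P.1 i l)⁻¹ ≠ 0 := fun s =>
    inv_ne_zero (Finset.prod_ne_zero_iff.2 fun i _ => hP i)
  -- the value
  have e0 : ∑ p, (∏ i, P.1 i (p i)) * (G p).eval P.2 = 0 := by
    rw [ev_apply, ← hR, recon, map_sum] at h0
    have h2 : ∀ p, MvPolynomial.eval (aff M j P) ((∏ i : Li M j, bary M i.1 (p i)) *
        Polynomial.aeval (MvPolynomial.X (xj hj)) (G p)) =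
        (∏ i, ∑ l, P.1 i l)⁻¹ * ((∏ i, P.1 i (p i)) * (G p).eval P.2) := by
      intro p
      rw [map_mul, hprod, eval_aeval_xj, mul_assoc]
    rw [Finset.sum_congr rfl fun p _ => h2 p, ← Finset.mul_sum] at h0
    exact (mul_eq_zero.1 h0).resolve_left (hne _)
  -- the derivative
  have e2 : ∑ p, (∏ i, P.1 i (p i)) * (Polynomial.derivative (G p)).eval P.2 = 0 := by
    have h3 := h1 (xj hj)
    rw [dv_apply, ← hR, pderiv_xj, map_sum] at h3
    have h2 : ∀ p, MvPolynomial.eval (aff M j P) ((∏ i : Li M j, bary M i.1 (p i)) *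
        Polynomial.aeval (MvPolynomial.X (xj hj)) (Polynomial.derivative (G p))) =
        (∏ i, ∑ l, P.1 i l)⁻¹ * ((∏ i, P.1 i (p i)) * (Polynomial.derivative (G p)).eval P.2) := by
      intro p
      rw [map_mul, hprod, eval_aeval_xj, mul_assoc]
    rw [Finset.sum_congr rfl fun p _ => h2 p, ← Finset.mul_sum] at h3
    exact (mul_eq_zero.1 h3).resolve_left (hne _)
  refine ⟨e0, fun i m => ?_, e2⟩
  obtain ⟨T, hT⟩ : ∃ T : Fin (nL M j i) → ℂ, T = fun m =>
    ∑ p ∈ Finset.univ.filter (fun p : Gr (nL M j) => p i = m),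
      (∏ i' ∈ Finset.univ.erase i, P.1 i' (p i')) * (G p).eval P.2 := ⟨_, rfl⟩
  have hTm : ∀ m, ∑ p ∈ Finset.univ.filter (fun p : Gr (nL M j) => p i = m),
      (∏ i' ∈ Finset.univ.erase i, P.1 i' (p i')) * (G p).eval P.2 = T m := by
    intro m
    rw [hT]
  rw [hTm m]
  -- all values of `T` are equal
  have hsel : ∀ m, ∑ p : Gr (nL M j), (if p i = m then (1 : ℂ) else 0) *
      ((∏ i' ∈ Finset.univ.erase i, P.1 i' (p i')) * (G p).eval P.2) = T m := by
    intro m
    rw [← hTm m, Finset.sum_filter]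
    exact Finset.sum_congr rfl fun p _ => by split_ifs <;> simp
  have hTl : ∀ l : Fin (M i.1), T l.succ = T 0 := by
    intro l
    have h3 := h1 (⟨i.1, l⟩ : Sg M)
    rw [dv_apply, ← hR, pderiv_lin, map_sum] at h3
    have h2 : ∀ p : Gr (nL M j), MvPolynomial.eval (aff M j P)
        (((if p i = l.succ then 1 else 0) - (if p i = 0 then 1 else 0)) *
        (∏ i' ∈ Finset.univ.erase i, bary M i'.1 (p i')) *
        Polynomial.aeval (MvPolynomial.X (xj hj)) (G p)) =
        (∏ i' ∈ Finset.univ.erase i, ∑ l, P.1 i' l)⁻¹ *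
        ((if p i = l.succ then (1 : ℂ) else 0) *
        ((∏ i' ∈ Finset.univ.erase i, P.1 i' (p i')) * (G p).eval P.2) -
        (if p i = 0 then (1 : ℂ) else 0) *
        ((∏ i' ∈ Finset.univ.erase i, P.1 i' (p i')) * (G p).eval P.2)) := by
      intro p
      rw [map_mul, map_mul, hprod, eval_aeval_xj, map_sub]
      have h4 : ∀ c : Prop, [Decidable c] → MvPolynomial.eval (aff M j P)
          (if c then 1 else 0) = if c then (1 : ℂ) else 0 := by
        intro c _
        split_ifs <;> simp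
      rw [h4, h4]
      ring
    rw [Finset.sum_congr rfl fun p _ => h2 p, ← Finset.mul_sum, Finset.sum_sub_distrib,
      hsel, hsel] at h3
    exact sub_eq_zero.1 ((mul_eq_zero.1 h3).resolve_left (hne _))
  have hTall : ∀ m, T m = T 0 := fun m => Fin.cases rfl (fun l => hTl l) m
  have h5 : ∑ m, P.1 i m * T m = 0 := by
    rw [← e0, ← Finset.sum_fiberwise Finset.univ (fun p : Gr (nL M j) => p i)]
    refine Finset.sum_congr rfl fun m _ => ?_
    rw [← hTm m, Finset.mul_sum]
    refine Finset.sum_congr rfl fun p hp => ?_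
    rw [← Finset.mul_prod_erase Finset.univ (fun i' : Li M j => P.1 i' (p i'))
      (Finset.mem_univ i), (Finset.mem_filter.1 hp).2, mul_assoc]
  rw [Finset.sum_congr rfl fun m _ => by rw [hTall m], ← Finset.sum_mul] at h5
  rw [hTall m]
  exact (mul_eq_zero.1 h5).resolve_left (hP i)

theorem finiteDimensional_DG {ι : Type} [Fintype ι] [DecidableEq ι] (n : ι → ℕ) (c : ℕ) :
    FiniteDimensional ℂ (DG n c) := by
  classical
  let f : DG n c →ₗ[ℂ] (Gr n → Polynomial.degreeLT ℂ c) :=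
    { toFun := fun F p => ⟨F.1 p, F.2 p⟩
      map_add' := fun _ _ => rfl
      map_smul' := fun _ _ => rfl }
  refine FiniteDimensional.of_injective f fun F G h => ?_
  apply Subtype.ext
  funext p
  exact congrArg Subtype.val (congrFun h p)

theorem conn {M δ : Fin k → ℕ} {j : Fin k} (hj : M j = 1)
    (hδ : ∀ i, i ≠ j → 1 ≤ M i → δ i = 1) {r : ℕ} (P : Fin r → Pt (nL M j))
    (hP : ∀ k, Good (P k)) :
    kap (H (DD M δ)) Finset.univ r ≤
      finrank ℂ (DG (nL M j) (δ j + 1) ⊓ ⨅ k, DB (P k) : Submodule ℂ (Rw (nL M j))) := by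
  classical
  have := finiteDimensional_DG (nL M j) (δ j + 1)
  have : FiniteDimensional ℂ
      (DG (nL M j) (δ j + 1) ⊓ ⨅ k, DB (P k) : Submodule ℂ (Rw (nL M j))) :=
    Submodule.finiteDimensional_of_le inf_le_left
  refine (kap_le _ _ fun k => aff M j (P k)).trans ?_
  have hmap : ∀ F ∈ Z (H (DD M δ)) (rowf Finset.univ Finset.univ fun k => aff M j (P k)),
      rows M j F ∈ (DG (nL M j) (δ j + 1) ⊓ ⨅ k, DB (P k) : Submodule ℂ (Rw (nL M j))) := by
    intro F hF
    rw [mem_Z_rowf] at hF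
    obtain ⟨h1, h2, h3⟩ := hF
    refine ⟨rows_mem hj hδ h1, ?_⟩
    rw [SetLike.mem_coe, Submodule.mem_iInf]
    intro k
    exact rows_dbl hj hδ h1 (hP k) (h2 k) fun x => h3 k (Finset.mem_univ _) x (Finset.mem_univ _)
  refine LinearMap.finrank_le_finrank_of_injective (f := (rows M j).restrict hmap) ?_
  rw [← LinearMap.ker_eq_bot, LinearMap.ker_eq_bot']
  intro F hF
  apply Subtype.ext
  refine rows_inj hj hδ (Z_le _ _ F.2) ?_
  exact congrArg Subtype.val hF

end Pool.Agent.SV.C
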