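import Pool.Agent.Lib.MP_b54217_ag.E.Cut

/-!
# THEOREM C.  `P^1` of large degree times at least three linear factors.  Definitions

Linear blocks `i : ι`, `V_i = ℂ^(n i)`.  The form of multidegree `(1, ..., 1, c - 1)` is given by
its rows `F p`, `p` in the grid `∏ Fin (n i)`: polynomials of degree `< c` in one variable.
-/

set_option autoImplicit false

namespace Pool.Agent.SV.C

open Polynomial Module

/-- The grid. -/
abbrev Gr {ι : Type} (n : ι → ℕ) : Type := (i : ι) → Fin (n i)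

/-- Rows. -/
abbrev Rw {ι : Type} (n : ι → ℕ) : Type := Gr n → ℂ[X]

/-- Points `(u, y)`. -/
abbrev Pt {ι : Type} (n : ι → ℕ) : Type := ((i : ι) → Fin (n i) → ℂ) × ℂ

variable {ι : Type} [Fintype ι] [DecidableEq ι] {n : ι → ℕ}

/-- `∑_p (∏_i u_i(p_i)) F_p(y)` is singular at `(u, y)`. -/
def IsD (P : Pt n) (F : Rw n) : Prop :=
  (∑ p, (∏ i, P.1 i (p i)) * (F p).eval P.2 = 0) ∧
  (∀ (i : ι) (l : Fin (n i)), ∑ p ∈ Finset.univ.filter (fun p : Gr n => p i = l),
    (∏ i' ∈ Finset.univ.erase i, P.1 i' (p i')) * (F p).eval P.2 = 0) ∧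
  ∑ p, (∏ i, P.1 i (p i)) * (derivative (F p)).eval P.2 = 0

/-- The rows which are singular at `P`. -/
def DB (P : Pt n) : Submodule ℂ (Rw n) where
  carrier := {F | IsD P F}
  zero_mem' := by simp [IsD]
  add_mem' := by
    rintro F G ⟨h1, h2, h3⟩ ⟨h4, h5, h6⟩
    refine ⟨?_, fun i l => ?_, ?_⟩
    · simp only [Pi.add_apply, eval_add, mul_add, Finset.sum_add_distrib, h1, h4, add_zero]
    · simp only [Pi.add_apply, eval_add, mul_add, Finset.sum_add_distrib, h2, h5, add_zero]
    · simp only [Pi.add_apply, derivative_add, eval_add, mul_add, Finset.sum_add_distrib, h3, h6,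
        add_zero]
  smul_mem' := by
    rintro c F ⟨h1, h2, h3⟩
    refine ⟨?_, fun i l => ?_, ?_⟩
    · simp only [Pi.smul_apply, eval_smul, smul_eq_mul, mul_left_comm _ c, ← Finset.mul_sum, h1,
        mul_zero]
    · simp only [Pi.smul_apply, eval_smul, smul_eq_mul, mul_left_comm _ c, ← Finset.mul_sum, h2,
        mul_zero]
    · simp only [Pi.smul_apply, derivative_smul, eval_smul, smul_eq_mul, mul_left_comm _ c,
        ← Finset.mul_sum, h3, mul_zero]

/-- The rows divisible by `Q`. -/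
def DV (Q : Gr n → ℂ[X]) : Submodule ℂ (Rw n) where
  carrier := {F | ∀ p, Q p ∣ F p}
  zero_mem' := fun _ => dvd_zero _
  add_mem' := fun h1 h2 p => dvd_add (h1 p) (h2 p)
  smul_mem' := fun c F h p => by
    rw [Pi.smul_apply, smul_eq_C_mul]
    exact Dvd.dvd.mul_left (h p) _

/-- The rows of degree `< c`. -/
def DG (n : ι → ℕ) (c : ℕ) : Submodule ℂ (Rw n) where
  carrier := {F | ∀ p, F p ∈ degreeLT ℂ c}
  zero_mem' := fun _ => Submodule.zero_mem _
  add_mem' := fun h1 h2 p => Submodule.add_mem _ (h1 p) (h2 p)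
  smul_mem' := fun c _ h p => Submodule.smul_mem _ c (h p)

theorem mem_DB {P : Pt n} {F : Rw n} : F ∈ DB P ↔ IsD P F := Iff.rfl

omit [Fintype ι] [DecidableEq ι] in
theorem mem_DV {Q : Gr n → ℂ[X]} {F : Rw n} : F ∈ DV Q ↔ ∀ p, Q p ∣ F p := Iff.rfl

omit [Fintype ι] [DecidableEq ι] in
theorem mem_DG {c : ℕ} {F : Rw n} : F ∈ DG n c ↔ ∀ p, F p ∈ degreeLT ℂ c := Iff.rfl

/-- The point lies in the affine chart. -/
def Good (P : Pt n) : Prop := ∀ i, ∑ l, P.1 i l ≠ 0

/-- `W` is a limit of `m` double points. -/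
def Deg (m : ℕ) (W : Submodule ℂ (Rw n)) : Prop :=
  ∀ V : Submodule ℂ (Rw n), FiniteDimensional ℂ V → ∃ P : Fin m → Pt n, (∀ k, Good (P k)) ∧
    finrank ℂ (V ⊓ ⨅ k, DB (P k) : Submodule ℂ (Rw n)) ≤
      finrank ℂ (V ⊓ W : Submodule ℂ (Rw n))

/-- `r` double points degenerate to `D p` conditions on the row `p`. -/
def Ach (r : ℕ) (D : Gr n → ℕ) : Prop :=
  ∀ bad : Finset ℂ, ∃ Q : Gr n → ℂ[X], (∀ p, (Q p).Monic) ∧ (∀ p, (Q p).natDegree = D p) ∧
    (∀ p, ∀ z ∈ bad, (Q p).eval z ≠ 0) ∧ Deg r (DV Q)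

/-- The conditions on the row `p` of the double point at the unit vectors `q`: `2` for `p = q`,
`1` if `p` and `q` differ in one coordinate. -/
def st (p q : Gr n) : ℕ := 2 - hammingDist p q

/-- `dim + 1`. -/
def tau (n : ι → ℕ) : ℕ := 2 + ∑ i, (n i - 1)

/-- The unit point. -/
noncomputable def un (q : Gr n) (y : ℂ) : Pt n := (fun i => Pi.single (q i) 1, y)

/-- The data of a shift: centre, two directions, two new values. -/
structure Sh (n : ι → ℕ) where
  ctr : Gr n
  i : ι
  j : ι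
  hij : i ≠ j
  l : Fin (n i)
  hl : l ≠ ctr i
  l' : Fin (n j)
  hl' : l' ≠ ctr j

namespace Sh

variable (s : Sh n)

/-- The row which loses a condition. -/
def q : Gr n := Function.update s.ctr s.i s.l

/-- The neighbour of the centre in the direction `j`. -/
def s1 : Gr n := Function.update s.ctr s.j s.l'

/-- The row which gains a condition. -/
def q' : Gr n := Function.update s.q s.j s.l'

/-- The rows of the colliding unit points. -/
def Cl : Finset (Gr n) := Finset.univ.filter fun p => p s.i = s.l ∧ p s.j ≠ s.l'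

/-- The orders of the colliding unit points. -/
def a (p : Gr n) : ℕ := ∑ q ∈ s.Cl, 2 * st p q

/-- The orders of the whole cluster. -/
def D (p : Gr n) : ℕ :=
  (s.a p + st p s.ctr + if p = s.q' then 1 else 0) - if p = s.q then 1 else 0

/-- The number of points of the cluster. -/
def m : ℕ := 2 * s.Cl.card + 1

end Sh

end Pool.Agent.SV.C
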