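import Pool.Agent.Lib.MP_b54217_ag.C.All

/-!
# THEOREM C.  All but finitely many Segre-Veronese varieties of a given dimension
-/

set_option autoImplicit false

namespace Pool.Agent.SV.C

/-- Finitely many dimension vectors for every dimension. -/
theorem dim_uniform (P : (k : ℕ) → (Fin k → ℕ) → (Fin k → ℕ) → Prop)
    (h : ∀ (k : ℕ) (n : Fin k → ℕ), (∀ i, 2 ≤ n i) →
      ∃ E : Finset (Fin k → ℕ), ∀ d ∉ E, (∀ i, 1 ≤ d i) → P k n d) (m : ℕ) :
    ∃ D : ℕ, ∀ (k : ℕ) (n d : Fin k → ℕ), (∀ i, 2 ≤ n i) → (∀ i, 1 ≤ d i) → svDim n d = m →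
      (∃ i, D ≤ d i) → P k n d := by
  classical
  choose E hE using h
  obtain ⟨E', hE'⟩ : ∃ E' : (k : ℕ) → (Fin k → ℕ) → Finset (Fin k → ℕ),
      ∀ (k : ℕ) (n : Fin k → ℕ) (hn : ∀ i, 2 ≤ n i), E' k n = E k n hn :=
    ⟨fun k n => if hn : ∀ i, 2 ≤ n i then E k n hn else ∅, fun k n hn => dif_pos hn⟩
  refine ⟨(Finset.range (m + 1)).sup fun k =>
    (Fintype.piFinset fun _ : Fin k => Finset.range (m + 2)).sup fun n =>
      (E' k n).sup fun d => Finset.univ.sup fun i => d i + 1, ?_⟩
  rintro k n d hn hd hm ⟨i0, hi0⟩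
  refine hE k n hn d (fun hmem => ?_) hd
  have hsum : ∑ i, (n i - 1) = m := by
    rw [← hm, svDim]
    refine Finset.sum_congr rfl fun i _ => ?_
    have := hd i
    rw [if_neg (by omega)]
  have hk : k ≤ m := by
    have h1 : ∑ _i : Fin k, 1 ≤ ∑ i, (n i - 1) := Finset.sum_le_sum fun i _ => by
      have := hn i
      omega
    rw [Finset.sum_const, Finset.card_univ, Fintype.card_fin, smul_eq_mul, mul_one] at h1
    omega
  have hni : ∀ i, n i < m + 2 := by
    intro i
    have h1 : n i - 1 ≤ ∑ i, (n i - 1) :=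
      Finset.single_le_sum (f := fun i => n i - 1) (fun _ _ => Nat.zero_le _) (Finset.mem_univ i)
    omega
  have h1 : d i0 + 1 ≤ Finset.univ.sup fun i => d i + 1 :=
    Finset.le_sup (f := fun i => d i + 1) (Finset.mem_univ i0)
  have h2 : (Finset.univ.sup fun i => d i + 1) ≤
      (E' k n).sup fun d => Finset.univ.sup fun i => d i + 1 :=
    Finset.le_sup (f := fun d : Fin k → ℕ => Finset.univ.sup fun i => d i + 1)
      (by rw [hE' k n hn]; exact hmem)
  have h3 : ((E' k n).sup fun d => Finset.univ.sup fun i => d i + 1) ≤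
      (Fintype.piFinset fun _ : Fin k => Finset.range (m + 2)).sup fun n =>
        (E' k n).sup fun d => Finset.univ.sup fun i => d i + 1 :=
    Finset.le_sup (f := fun n : Fin k → ℕ =>
      (E' k n).sup fun d => Finset.univ.sup fun i => d i + 1)
      (Fintype.mem_piFinset.2 fun i => Finset.mem_range.2 (hni i))
  have h4 : ((Fintype.piFinset fun _ : Fin k => Finset.range (m + 2)).sup fun n =>
      (E' k n).sup fun d => Finset.univ.sup fun i => d i + 1) ≤
      (Finset.range (m + 1)).sup fun k =>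
        (Fintype.piFinset fun _ : Fin k => Finset.range (m + 2)).sup fun n =>
          (E' k n).sup fun d => Finset.univ.sup fun i => d i + 1 :=
    Finset.le_sup (f := fun k : ℕ =>
      (Fintype.piFinset fun _ : Fin k => Finset.range (m + 2)).sup fun n =>
        (E' k n).sup fun d => Finset.univ.sup fun i => d i + 1)
      (Finset.mem_range.2 (by omega))
  omega

end Pool.Agent.SV.C
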