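import Pool.Agent.Lib.MP_b54217_ag.C.Gd

/-!
# THEOREM C.  The critical values
-/

set_option autoImplicit false

namespace Pool.Agent.SV.C

open Module

variable {ι : Type} [Fintype ι] [DecidableEq ι] {n : ι → ℕ}

/-- The class of `c1` and `r1`. -/
theorem grid_class (hn : ∀ i, 2 ≤ n i) (hL : 3 ≤ Fintype.card ι) (p0 : Gr n) (c1 r1 : ℕ) :
    ∃ s0 : ℕ, ∀ s ≥ s0, ∃ (r' : ℕ) (D' : Gr n → ℕ),
      (r' : ℤ) = r1 + s * Fintype.card (Gr n) ∧
      (∀ p, (D' p : ℤ) = c1 - (if p = p0 then (Fintype.card (Gr n) * c1 - tau n * r1 : ℤ) else 0)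
        + s * tau n) ∧ Ach r' D' := by
  have h : ∑ p : Gr n, ((c1 : ℤ) - (if p = p0 then (Fintype.card (Gr n) * c1 - tau n * r1 : ℤ)
      else 0)) = tau n * (r1 : ℤ) := by
    rw [Finset.sum_sub_distrib, Finset.sum_const, Finset.card_univ, Finset.sum_ite_eq']
    simp only [Finset.mem_univ, if_true, nsmul_eq_mul]
    ring
  exact Gd.all hn hL h

/-- `e = N0 c - τ r`, `D = c - e [p = p0]`; there are finitely many classes `(c mod τ, e)`, for each
of them `Gd.all`; `∑_p (c - D p) = max e 0`. -/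
theorem grid (hn : ∀ i, 2 ≤ n i) (hL : 3 ≤ Fintype.card ι) :
    ∃ c0 : ℕ, ∀ c ≥ c0, ∀ r, (r = Fintype.card (Gr n) * c / tau n ∨
        r = Fintype.card (Gr n) * c / tau n + 1) →
      ∃ P : Fin r → Pt n, (∀ k, Good (P k)) ∧
        finrank ℂ (DG n c ⊓ ⨅ k, DB (P k) : Submodule ℂ (Rw n)) ≤
          Fintype.card (Gr n) * c - tau n * r := by
  have p0 : Gr n := fun i => ⟨0, lt_of_lt_of_le Nat.zero_lt_two (hn i)⟩
  choose s0 hs0 using grid_class hn hL p0
  have hτ : 0 < tau n := by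
    unfold tau
    omega
  refine ⟨tau n * ∑ c1 ∈ Finset.range (tau n), (s0 c1 (Fintype.card (Gr n) * c1 / tau n) +
    s0 c1 (Fintype.card (Gr n) * c1 / tau n + 1)), fun c hc r hr => ?_⟩
  have hc1 : c % tau n < tau n := Nat.mod_lt _ hτ
  have hct : tau n * (c / tau n) + c % tau n = c := Nat.div_add_mod c (tau n)
  have hS : ∑ c1 ∈ Finset.range (tau n), (s0 c1 (Fintype.card (Gr n) * c1 / tau n) +
      s0 c1 (Fintype.card (Gr n) * c1 / tau n + 1)) ≤ c / tau n := by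
    rw [Nat.le_div_iff_mul_le hτ, mul_comm]
    exact hc
  have hS1 := Finset.single_le_sum (f := fun c1 => s0 c1 (Fintype.card (Gr n) * c1 / tau n) +
      s0 c1 (Fintype.card (Gr n) * c1 / tau n + 1)) (fun _ _ => Nat.zero_le _)
    (Finset.mem_range.2 hc1)
  have hdiv : Fintype.card (Gr n) * c / tau n =
      Fintype.card (Gr n) * (c % tau n) / tau n + Fintype.card (Gr n) * (c / tau n) := by
    have h1 : Fintype.card (Gr n) * c = Fintype.card (Gr n) * (c % tau n) +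
        tau n * (Fintype.card (Gr n) * (c / tau n)) := by
      conv_lhs => rw [← hct]
      ring
    rw [h1, Nat.add_mul_div_left _ _ hτ]
  rw [hdiv] at hr
  clear hdiv
  generalize c / tau n = t at hct hS hr
  generalize c % tau n = c1 at hct hc1 hS1 hr
  obtain ⟨r1, hr1, hr2⟩ : ∃ r1 : ℕ, r = r1 + Fintype.card (Gr n) * t ∧ s0 c1 r1 ≤ t := by
    rcases hr with hr | hr
    · exact ⟨_, hr, by omega⟩
    · refine ⟨Fintype.card (Gr n) * c1 / tau n + 1, ?_, by omega⟩
      rw [hr]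
      ring
  obtain ⟨r', D', h1, h2, h3⟩ := hs0 c1 r1 t hr2
  have hrr : r' = r := by
    rw [hr1]
    zify
    rw [h1]
    ring
  subst hrr
  obtain ⟨P, hP1, hP2⟩ := h3.fin c
  refine ⟨P, hP1, hP2.trans ?_⟩
  have hctz : (tau n : ℤ) * (t : ℤ) + (c1 : ℤ) = (c : ℤ) := by exact_mod_cast hct
  have hr1z : (r' : ℤ) = r1 + Fintype.card (Gr n) * (t : ℤ) := by exact_mod_cast hr1
  have hne : ∀ p, p ≠ p0 → c - D' p = 0 := by
    intro p hp
    have h4 := h2 p
    rw [if_neg hp, sub_zero] at h4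
    have h5 : (D' p : ℤ) = c := by
      rw [h4, ← hctz]
      ring
    have h6 : D' p = c := by exact_mod_cast h5
    rw [h6, Nat.sub_self]
  rw [Finset.sum_eq_single p0 (fun p _ hp => hne p hp)
    (fun h => absurd (Finset.mem_univ p0) h)]
  have h4 := h2 p0
  rw [if_pos rfl] at h4
  have h5 : (D' p0 : ℤ) = c - ((Fintype.card (Gr n) * c : ℕ) - (tau n * r' : ℕ)) := by
    rw [h4]
    push_cast
    rw [hr1z, ← hctz]
    ring
  omega

end Pool.Agent.SV.C
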