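import Pool.Agent.Lib.MP_b54217_ag.A.WInd
import Pool.Agent.Lib.MP_b54217_ag.A.MainC

/-!
# THEOREM C.  At most one linear factor
-/

set_option autoImplicit false

namespace Pool.Agent.SV.C

open Module Pool.Agent.SV.E Pool.Agent.SV.A
open Pool.Agent.SV.G (Sg DD mem_DD)

variable {k : ℕ}

private theorem card_univ_Sg {M : Fin k → ℕ} :
    (Finset.univ : Finset (Sg M)).card = ∑ i, M i := by
  rw [Finset.card_univ, Fintype.card_sigma]
  simp

/-- `P^1`: `base1`. -/
theorem zeroD {M δ : Fin k → ℕ} {j : Fin k} (hj : M j = 1) (h0 : ∀ i, i ≠ j → M i = 0) (r : ℕ) :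
    kap (H (DD M δ)) Finset.univ r ≤ (DD M δ).card - (∑ i, M i + 1) * r := by
  classical
  let o : Sg M := ⟨j, ⟨0, by omega⟩⟩
  have hU : (Finset.univ : Finset (Sg M)) = {o} := by
    ext x
    simp only [Finset.mem_univ, Finset.mem_singleton, true_iff]
    obtain ⟨l, t⟩ := x
    have hl : l = j := by
      by_contra hne
      have h1 := t.2
      have h2 := h0 l hne
      omega
    subst hl
    have ht : t = ⟨0, by omega⟩ := Fin.ext (by have := t.2; simp only; omega)
    rw [ht]
  have h1 := base1 o δ r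
  unfold kS at h1
  rw [← hU, DS_univ, card_univ_Sg, add_zero] at h1
  exact h1

private theorem num {ι : Type} [Fintype ι] {ρ : ι → ℕ} {r D : ℕ} (hs : ∑ l, ρ l = r)
    (h : ∀ l l', ρ l ≤ ρ l' + 1) :
    ∑ l, (D - (r + ρ l)) ≤ Fintype.card ι * D - (Fintype.card ι + 1) * r := by
  by_cases hall : ∀ l, r + ρ l ≤ D
  · have h1 : ∑ l, (D - (r + ρ l)) + ∑ l, (r + ρ l) = Fintype.card ι * D := by
      rw [← Finset.sum_add_distrib, Finset.sum_congr rfl fun l _ => Nat.sub_add_cancel (hall l)]
      simp
    have h2 : ∑ l, (r + ρ l) = (Fintype.card ι + 1) * r := by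
      rw [Finset.sum_add_distrib, hs]
      simp
      ring
    omega
  · push Not at hall
    obtain ⟨l0, hl0⟩ := hall
    have h1 : ∑ l, (D - (r + ρ l)) = 0 := by
      refine Finset.sum_eq_zero fun l _ => ?_
      have := h l0 l
      omega
    omega

/-- `P^b x P^1`, `(1, d)`: `lin` with a balanced distribution and `base1`. -/
theorem oneD {M δ : Fin k → ℕ} {i j : Fin k} (hij : i ≠ j) (hj : M j = 1) (hi : 1 ≤ M i)
    (h0 : ∀ l, l ≠ i → l ≠ j → M l = 0) (hδ : δ i = 1) (r : ℕ) :
    kap (H (DD M δ)) Finset.univ r ≤ (DD M δ).card - (∑ i, M i + 1) * r := by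
  classical
  let o : Sg M := ⟨j, ⟨0, by omega⟩⟩
  have hU : wb (Finset.univ : Finset (Sg M)) i = {o} := by
    ext x
    rw [mem_wb, Finset.mem_singleton]
    simp only [Finset.mem_univ, true_and]
    constructor
    · intro hx
      obtain ⟨l, t⟩ := x
      simp only at hx
      have hl : l = j := by
        by_contra hne
        have h1 := t.2
        have h2 := h0 l hx hne
        omega
      subst hl
      have ht : t = ⟨0, by omega⟩ := Fin.ext (by have := t.2; simp only; omega)
      rw [ht]
    · rintro rfl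
      exact hij.symm
  have hcw := card_wb (Finset.univ : Finset (Sg M)) i
  rw [hU, Finset.card_singleton, card_univ_Sg] at hcw
  have hcl := card_lin (Finset.univ : Finset (Sg M)) δ i hδ
  rw [hU, DS_univ] at hcl
  have hVi : Fintype.card (Vi (Finset.univ : Finset (Sg M)) i) =
      bs (Finset.univ : Finset (Sg M)) i := by
    have h1 : Fintype.card (Vi (Finset.univ : Finset (Sg M)) i) =
        (Finset.univ.filter fun x : Sg M => ¬ x.1 ≠ i).card := by
      rw [Fintype.card_subtype]
      congr 1
      ext x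
      simp
    have h2 := Finset.card_filter_add_card_filter_not (s := (Finset.univ : Finset (Sg M)))
      (fun x : Sg M => x.1 ≠ i)
    rw [← h1] at h2
    have h3 : (wb (Finset.univ : Finset (Sg M)) i).card =
      (Finset.univ.filter fun x : Sg M => x.1 ≠ i).card := rfl
    have h4 := card_wb (Finset.univ : Finset (Sg M)) i
    omega
  have hcO : Fintype.card (Option (Vi (Finset.univ : Finset (Sg M)) i)) =
      bs (Finset.univ : Finset (Sg M)) i + 1 := by
    rw [Fintype.card_option, hVi]
  obtain ⟨ρ, hρs, hρ⟩ := exists_distr (ι := Option (Vi (Finset.univ : Finset (Sg M)) i)) r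
  have hbal : ∀ l l', ρ l ≤ ρ l' + 1 := by
    intro l l'
    have h1 := (hρ l).2
    have h2 := (hρ l').1
    have hn : 0 < Fintype.card (Option (Vi (Finset.univ : Finset (Sg M)) i)) := Fintype.card_pos
    set n := Fintype.card (Option (Vi (Finset.univ : Finset (Sg M)) i))
    by_contra hcon
    push Not at hcon
    have h3 : n * (ρ l' + 2) ≤ n * ρ l := Nat.mul_le_mul_left _ (by omega)
    rw [mul_add] at h3
    omega
  have hlin := lin (Finset.univ : Finset (Sg M)) δ i hδ ρ
  rw [hρs, hU] at hlin
  have hrow : ∀ l, kS {o} δ (ρ l) - (r - ρ l) ≤ (DS {o} δ).card - (r + ρ l) := by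
    intro l
    have h1 := base1 o δ (ρ l)
    rw [Finset.card_singleton] at h1
    have hρr : ρ l ≤ r := by
      rw [← hρs]
      exact Finset.single_le_sum (f := ρ) (fun _ _ => Nat.zero_le _) (Finset.mem_univ l)
    omega
  have h1 := hlin.trans ((Finset.sum_le_sum fun l _ => hrow l).trans
    (num (D := (DS {o} δ).card) hρs hbal))
  rw [hcO] at h1
  unfold kS at h1
  rw [DS_univ, ← hcl] at h1
  have h2 : bs (Finset.univ : Finset (Sg M)) i + 1 + 1 = ∑ i, M i + 1 := by omega
  rw [h2] at h1
  exact h1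

end Pool.Agent.SV.C
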