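import Pool.Agent.Lib.MP_b54217_ag.A.FinB
import Pool.Agent.Lib.MP_b54217_ag.C.Grid
import Pool.Agent.Lib.MP_b54217_ag.C.Conn
import Pool.Agent.Lib.MP_b54217_ag.C.OneD

/-!
# THEOREM C
-/

set_option autoImplicit false

namespace Pool.Agent.SV.C

open Module Pool.Agent.SV.E Pool.Agent.SV.A
open Pool.Agent.SV.G (Sg DD mem_DD)

variable {k : ℕ}

/-- The exceptional cases: `P^b x P^1`, `(2, d)` and `P^a x P^b x P^1`, `(1, 1, d)`. -/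
def Exc (M δ : Fin k → ℕ) (j : Fin k) : Prop :=
  M j = 1 ∧ ((∃ i, i ≠ j ∧ 1 ≤ M i ∧ δ i = 2 ∧ ∀ l, l ≠ i → l ≠ j → M l = 0) ∨
    ∃ i i', i ≠ j ∧ i' ≠ j ∧ i ≠ i' ∧ 1 ≤ M i ∧ 1 ≤ M i' ∧ δ i = 1 ∧ δ i' = 1 ∧
      ∀ l, l ≠ i → l ≠ i' → l ≠ j → M l = 0)

/-- `P^1` times at least three linear factors. -/
theorem three (M : Fin k → ℕ) (j : Fin k) (hj : M j = 1)
    (hL : 3 ≤ Fintype.card (Li M j)) : ∃ d0, ∀ δ : Fin k → ℕ, d0 ≤ δ j →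
      (∀ i, i ≠ j → 1 ≤ M i → δ i = 1) → ∀ r, kap (H (DD M δ)) Finset.univ r ≤
        (DD M δ).card - (∑ i, M i + 1) * r := by
  obtain ⟨c0, h0⟩ := grid (n := nL M j) (fun i => Nat.succ_le_succ i.2.2) hL
  refine ⟨c0, fun δ hδ h1 => all_of_crit (DD M δ) (by simp [Sg]) fun r hr => ?_⟩
  have hc := card_conn hj h1
  have ht := tau_conn hj
  rw [hc, ← ht] at hr ⊢
  obtain ⟨P, hP, hk⟩ := h0 (δ j + 1) (by omega) r hr
  exact (conn hj h1 P hP).trans hk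

/-- Summary. -/
theorem kapC (M : Fin k → ℕ) : ∃ d0, ∀ δ : Fin k → ℕ, (∀ i, 1 ≤ δ i) → ∀ j, 1 ≤ M j → d0 ≤ δ j →
    ¬ Exc M δ j → ∀ r, kap (H (DD M δ)) Finset.univ r ≤
      (DD M δ).card - (∑ i, M i + 1) * r := by
  classical
  obtain ⟨D, hD⟩ := mainW M
  have h3 : ∀ j : Fin k, ∃ d0, (M j = 1 ∧ 3 ≤ Fintype.card (Li M j)) → ∀ δ : Fin k → ℕ,
      d0 ≤ δ j → (∀ i, i ≠ j → 1 ≤ M i → δ i = 1) → ∀ r, kap (H (DD M δ)) Finset.univ r ≤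
        (DD M δ).card - (∑ i, M i + 1) * r := by
    intro j
    by_cases h : M j = 1 ∧ 3 ≤ Fintype.card (Li M j)
    · obtain ⟨d0, h0⟩ := three M j h.1 h.2
      exact ⟨d0, fun _ => h0⟩
    · exact ⟨0, fun h' => absurd h' h⟩
  choose T hT using h3
  refine ⟨D + ∑ j, T j, fun δ hδ j hMj hj hexc => ?_⟩
  have hTj : T j ≤ ∑ j, T j :=
    Finset.single_le_sum (f := fun j => T j) (fun _ _ => Nat.zero_le _) (Finset.mem_univ j)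
  rcases Nat.lt_or_ge 1 (M j) with h2 | h2
  · exact hD δ hδ j (by omega) (Or.inl h2)
  have hMj1 : M j = 1 := le_antisymm h2 hMj
  by_cases hA : ∃ i, i ≠ j ∧ 1 ≤ M i ∧ 3 ≤ δ i
  · obtain ⟨i, h4, h5, h6⟩ := hA
    exact hD δ hδ j (by omega) (Or.inr ⟨hMj, i, h4, h5, Or.inl h6⟩)
  by_cases hB : ∃ i, i ≠ j ∧ 1 ≤ M i ∧ δ i = 2
  · obtain ⟨i, h4, h5, h6⟩ := hB
    have h7 : ∃ l, l ≠ i ∧ l ≠ j ∧ 1 ≤ M l := by
      by_contra hcon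
      push Not at hcon
      refine hexc ⟨hMj1, Or.inl ⟨i, h4, h5, h6, fun l hl hl' => ?_⟩⟩
      have := hcon l hl hl'
      omega
    obtain ⟨l, hl, hl', hMl⟩ := h7
    refine hD δ hδ j (by omega) (Or.inr ⟨hMj, i, h4, h5, Or.inr ⟨h6, ?_⟩⟩)
    have h8 : ∑ x ∈ ({i, j, l} : Finset (Fin k)), M x ≤ ∑ x, M x :=
      Finset.sum_le_sum_of_subset (Finset.subset_univ _)
    rw [Finset.sum_insert (by simp [h4, Ne.symm hl]), Finset.sum_insert (by simp [Ne.symm hl']),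
      Finset.sum_singleton] at h8
    omega
  have h1 : ∀ i, i ≠ j → 1 ≤ M i → δ i = 1 := by
    intro i hi hMi
    have h4 := hδ i
    by_contra hcon
    rcases Nat.lt_or_ge (δ i) 3 with h5 | h5
    · exact hB ⟨i, hi, hMi, by omega⟩
    · exact hA ⟨i, hi, hMi, h5⟩
  rcases Nat.lt_or_ge (Fintype.card (Li M j)) 3 with h4 | h4
  · -- at most two linear blocks
    by_cases hz : ∀ i, i ≠ j → M i = 0
    · exact zeroD hMj1 hz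
    push Not at hz
    obtain ⟨i, hij, hi⟩ := hz
    have hi1 : 1 ≤ M i := Nat.one_le_iff_ne_zero.2 hi
    by_cases ho : ∀ l, l ≠ i → l ≠ j → M l = 0
    · exact oneD hij hMj1 hi1 ho (h1 i hij hi1)
    push Not at ho
    obtain ⟨i', hii', hij', hi'⟩ := ho
    have hi1' : 1 ≤ M i' := Nat.one_le_iff_ne_zero.2 hi'
    refine absurd ⟨hMj1, Or.inr ⟨i, i', hij, hij', Ne.symm hii', hi1, hi1', h1 i hij hi1,
      h1 i' hij' hi1', fun l hl hl' hlj => ?_⟩⟩ hexc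
    by_contra hMl
    have h5 : ({⟨i, hij, hi1⟩, ⟨i', hij', hi1'⟩, ⟨l, hlj, Nat.one_le_iff_ne_zero.2 hMl⟩} :
        Finset (Li M j)).card = 3 := by
      rw [Finset.card_eq_three]
      refine ⟨_, _, _, ?_, ?_, ?_, rfl⟩
      · intro h
        exact hii' (congrArg Subtype.val h).symm
      · intro h
        exact hl (congrArg Subtype.val h).symm
      · intro h
        exact hl' (congrArg Subtype.val h).symm
    have h6 := Finset.card_le_univ ({⟨i, hij, hi1⟩, ⟨i', hij', hi1'⟩,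
      ⟨l, hlj, Nat.one_le_iff_ne_zero.2 hMl⟩} : Finset (Li M j))
    omega
  · exact hT j ⟨hMj1, h4⟩ δ (by omega) h1

/-- THEOREM C, in terms of `M`. -/
theorem finC_M (M : Fin k → ℕ) : ∃ d0 : ℕ, ∀ d : Fin k → ℕ, (∀ i, 1 ≤ d i) → ∀ j, 2 ≤ M j + 1 →
    d0 ≤ d j →
      ¬ (M j + 1 = 2 ∧ ((∃ i, i ≠ j ∧ 2 ≤ M i + 1 ∧ d i = 2 ∧
          ∀ l, l ≠ i → l ≠ j → M l + 1 = 1) ∨
        ∃ i i', i ≠ j ∧ i' ≠ j ∧ i ≠ i' ∧ 2 ≤ M i + 1 ∧ 2 ≤ M i' + 1 ∧ d i = 1 ∧ d i' = 1 ∧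
          ∀ l, l ≠ i → l ≠ i' → l ≠ j → M l + 1 = 1)) →
      ∀ r : ℕ, secDim (fun i => M i + 1) d r =
        ((min (r * (svDim (fun i => M i + 1) d + 1))
          (Fintype.card (Idx (fun i => M i + 1) d)) : ℕ) : WithBot ℕ∞) ∧
        ¬ Defective (fun i => M i + 1) d r := by
  obtain ⟨d0, h0⟩ := kapC M
  refine ⟨d0, fun d hd j hj hdj hexc r => secDim_exact M hd r (h0 d hd j (by omega) hdj ?_ r)⟩
  rintro ⟨h1, h⟩
  refine hexc ⟨by omega, ?_⟩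
  rcases h with ⟨i, h2, h3, h4, h5⟩ | ⟨i, i', h2, h3, h4, h5, h6, h7, h8, h9⟩
  · exact Or.inl ⟨i, h2, by omega, h4, fun l hl hl' => by rw [h5 l hl hl']⟩
  · exact Or.inr ⟨i, i', h2, h3, h4, by omega, by omega, h7, h8,
      fun l hl hl' hl'' => by rw [h9 l hl hl' hl'']⟩

/-- THEOREM C. -/
theorem finC {k : ℕ} (n : Fin k → ℕ) (hn : ∀ i, 1 ≤ n i) :
    ∃ d0 : ℕ, ∀ d : Fin k → ℕ, (∀ i, 1 ≤ d i) → ∀ j, 2 ≤ n j → d0 ≤ d j →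
      ¬ (n j = 2 ∧ ((∃ i, i ≠ j ∧ 2 ≤ n i ∧ d i = 2 ∧ ∀ l, l ≠ i → l ≠ j → n l = 1) ∨
        ∃ i i', i ≠ j ∧ i' ≠ j ∧ i ≠ i' ∧ 2 ≤ n i ∧ 2 ≤ n i' ∧ d i = 1 ∧ d i' = 1 ∧
          ∀ l, l ≠ i → l ≠ i' → l ≠ j → n l = 1)) →
      ∀ r : ℕ, secDim n d r =
        ((min (r * (svDim n d + 1)) (Fintype.card (Idx n d)) : ℕ) : WithBot ℕ∞) ∧
        ¬ Defective n d r := by
  obtain ⟨M, rfl⟩ : ∃ M : Fin k → ℕ, n = fun i => M i + 1 := by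
    refine ⟨fun i => n i - 1, funext fun i => ?_⟩
    have h := hn i
    show n i = n i - 1 + 1
    omega
  exact finC_M M

end Pool.Agent.SV.C
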