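import Pool.Agent.Lib.MP_b54217_ag.C.Shift

/-!
# THEOREM C.  All distributions of the conditions are possible
-/

set_option autoImplicit false

namespace Pool.Agent.SV.C

open Module

variable {ι : Type} [Fintype ι] [DecidableEq ι] {n : ι → ℕ}

/-- `(r, D)` up to multiples of `(N0, τ, ..., τ)` (one unit point in every row). -/
def Gd (r : ℤ) (D : Gr n → ℤ) : Prop :=
  ∃ s0 : ℕ, ∀ s ≥ s0, ∃ (r' : ℕ) (D' : Gr n → ℕ), (r' : ℤ) = r + s * Fintype.card (Gr n) ∧
    (∀ p, (D' p : ℤ) = D p + s * tau n) ∧ Ach r' D'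

theorem Gd.add {r1 r2 : ℤ} {D1 D2 : Gr n → ℤ} (h1 : Gd r1 D1) (h2 : Gd r2 D2) :
    Gd (r1 + r2) (D1 + D2) := by
  obtain ⟨s1, h1⟩ := h1
  obtain ⟨s2, h2⟩ := h2
  refine ⟨s1 + s2, fun s hs => ?_⟩
  obtain ⟨r1', D1', e1, f1, a1⟩ := h1 s1 le_rfl
  obtain ⟨r2', D2', e2, f2, a2⟩ := h2 (s - s1) (by omega)
  refine ⟨r1' + r2', D1' + D2', ?_, fun p => ?_, a1.add a2⟩
  · have hc : ((s - s1 : ℕ) : ℤ) = s - s1 := by omega
    rw [Nat.cast_add, e1, e2, hc]
    ring
  · have hc : ((s - s1 : ℕ) : ℤ) = s - s1 := by omega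
    rw [Pi.add_apply, Pi.add_apply, Nat.cast_add, f1, f2, hc]
    ring

private theorem Ach.congr {r r' : ℕ} {D D' : Gr n → ℕ} (h : Ach r D) (hr : r = r')
    (hD : D = D') : Ach r' D' := by
  rw [← hr, ← hD]; exact h

private theorem Ach.units (t : Finset (Gr n)) : Ach t.card (fun p => ∑ q ∈ t, st p q) := by
  induction t using Finset.induction_on with
  | empty => exact Ach.zero.congr rfl (by funext p; simp)
  | insert q t hq ih =>
    refine ((Ach.unit q).add ih).congr ?_ ?_
    · rw [Finset.card_insert_of_notMem hq, add_comm]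
    · funext p
      rw [Pi.add_apply, Finset.sum_insert hq]

private theorem sum_st' (hn : ∀ i, 1 ≤ n i) (p : Gr n) : ∑ q, st p q = tau n := by
  rw [← sum_st hn p]
  exact Finset.sum_congr rfl fun q _ => st_comm p q

/-- One unit point in every row: `∑_q st p q = τ`. -/
theorem Ach.all (hn : ∀ i, 1 ≤ n i) (s : ℕ) :
    Ach (s * Fintype.card (Gr n)) (fun _ : Gr n => s * tau n) := by
  induction s with
  | zero => exact Ach.zero.congr (by simp) (by funext p; simp)
  | succ s ih =>
    refine (ih.add (Ach.units Finset.univ)).congr ?_ ?_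
    · rw [Finset.card_univ]; ring
    · funext p
      rw [Pi.add_apply, sum_st' hn]
      ring

theorem Gd.zero (hn : ∀ i, 1 ≤ n i) : Gd 0 (0 : Gr n → ℤ) := by
  refine ⟨0, fun s _ => ⟨_, _, ?_, fun p => ?_, Ach.all hn s⟩⟩
  · push_cast; ring
  · simp

theorem Gd.of_ach (hn : ∀ i, 1 ≤ n i) {r : ℕ} {D : Gr n → ℕ} (h : Ach r D) :
    Gd r (fun p => (D p : ℤ)) := by
  refine ⟨0, fun s _ => ⟨_, _, ?_, fun p => ?_, h.add (Ach.all hn s)⟩⟩
  · push_cast; ring
  · rw [Pi.add_apply]; push_cast; ring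

private theorem Gd.congr {r r' : ℤ} {D D' : Gr n → ℤ} (h : Gd r D) (hr : r = r')
    (hD : ∀ p, D p = D' p) : Gd r' D' := by
  obtain rfl : D = D' := funext hD
  rw [← hr]; exact h

/-- `(N0, τ) - (1, st q)` is the sum over the other unit points. -/
theorem Gd.neg_unit (hn : ∀ i, 1 ≤ n i) (q : Gr n) : Gd (-1) (fun p => -(st p q : ℤ)) := by
  refine ⟨1, fun s hs => ⟨_, _, ?_, fun p => ?_,
    (Ach.all hn (s - 1)).add (Ach.units (Finset.univ.erase q))⟩⟩
  · have hc : ((s - 1 : ℕ) : ℤ) = s - 1 := by omega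
    have h1 : (Finset.univ.erase q).card + 1 = Fintype.card (Gr n) := by
      rw [Finset.card_erase_add_one (Finset.mem_univ q), Finset.card_univ]
    have h2 : (((Finset.univ.erase q).card : ℕ) : ℤ) = Fintype.card (Gr n) - 1 := by omega
    rw [Nat.cast_add, Nat.cast_mul, hc, h2]
    ring
  · have hc : ((s - 1 : ℕ) : ℤ) = s - 1 := by omega
    have h1 : ∑ q' ∈ Finset.univ.erase q, st p q' + st p q = tau n := by
      rw [Finset.sum_erase_add _ _ (Finset.mem_univ q), sum_st' hn]
    have h2 : ((∑ q' ∈ Finset.univ.erase q, st p q' : ℕ) : ℤ) = tau n - st p q := by omega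
    rw [Pi.add_apply, Nat.cast_add, Nat.cast_mul, hc, h2]
    ring

private theorem Gd.neg_units (hn : ∀ i, 1 ≤ n i) (t : Finset (Gr n)) :
    Gd (-(t.card : ℤ)) (fun p => -∑ q ∈ t, (st p q : ℤ)) := by
  induction t using Finset.induction_on with
  | empty => exact (Gd.zero hn).congr (by simp) (fun p => by simp)
  | insert q t hq ih =>
    refine ((Gd.neg_unit hn q).add ih).congr ?_ fun p => ?_
    · rw [Finset.card_insert_of_notMem hq]; push_cast; ring
    · rw [Pi.add_apply, Finset.sum_insert hq]; ring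

/-- `(0, e_(q') - e_q)` for a shift. -/
theorem Gd.shift (hn : ∀ i, 2 ≤ n i) (hL : 3 ≤ Fintype.card ι) (s : Sh n) :
    Gd 0 (Pi.single s.q' 1 - Pi.single s.q 1 : Gr n → ℤ) := by
  have hn1 : ∀ i, 1 ≤ n i := fun i => (by norm_num : 1 ≤ 2).trans (hn i)
  have h1 := Gd.of_ach hn1 (Ach.shift hn hL s)
  have h2 := Gd.neg_units hn1 s.Cl
  refine (((h1.add h2).add h2).add (Gd.neg_unit hn1 s.ctr)).congr ?_ fun p => ?_
  · rw [Sh.m]; push_cast; ring
  · have ha : ((s.a p : ℕ) : ℤ) = 2 * ∑ q ∈ s.Cl, (st p q : ℤ) := by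
      rw [Sh.a]; push_cast; rw [Finset.mul_sum]
    have hD : ((s.D p : ℕ) : ℤ) = s.a p + st p s.ctr + (if p = s.q' then 1 else 0) -
        (if p = s.q then 1 else 0) := by
      rw [Sh.D]
      by_cases hp : p = s.q
      · have h4 := s.a_q hn hL
        rw [← hp] at h4
        rw [if_pos hp, if_pos hp]
        split_ifs <;> omega
      · rw [if_neg hp, if_neg hp]
        split_ifs <;> omega
    simp only [Pi.add_apply, Pi.sub_apply, Pi.single_apply]
    rw [hD, ha]
    ring

/-- The grid is connected. -/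
theorem Gd.diff (hn : ∀ i, 2 ≤ n i) (hL : 3 ≤ Fintype.card ι) (p q : Gr n) :
    Gd 0 (Pi.single p 1 - Pi.single q 1 : Gr n → ℤ) := by
  have hn1 : ∀ i, 1 ≤ n i := fun i => (by norm_num : 1 ≤ 2).trans (hn i)
  have key : ∀ t : Finset ι, Gd 0 (Pi.single (fun i => if i ∈ t then p i else q i) 1 -
      Pi.single q 1 : Gr n → ℤ) := by
    intro t
    induction t using Finset.induction_on with
    | empty => exact (Gd.zero hn1).congr rfl (fun x => by simp)
    | insert j t hj ih =>
      set r : Gr n := fun i => if i ∈ t then p i else q i with hr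
      have hr' : (fun i => if i ∈ insert j t then p i else q i) = Function.update r j (p j) := by
        funext i
        by_cases hi : i = j
        · subst hi; simp
        · rw [Function.update_of_ne hi, hr]
          simp [Finset.mem_insert, hi]
      rw [hr']
      by_cases hv : p j = r j
      · rw [hv, Function.update_eq_self]; exact ih
      · obtain ⟨s, h1, h2⟩ := Sh.exists_sh hn (by omega : 2 ≤ Fintype.card ι) hv
        have h3 := Gd.shift hn hL s
        rw [h1, h2] at h3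
        refine (ih.add h3).congr (by norm_num) fun x => ?_
        simp only [Pi.add_apply, Pi.sub_apply]
        ring
  have h := key Finset.univ
  simpa using h

private theorem Gd.nsmul (hn : ∀ i, 1 ≤ n i) {r : ℤ} {D : Gr n → ℤ} (h : Gd r D) (k : ℕ) :
    Gd (k * r) (fun p => k * D p) := by
  induction k with
  | zero => exact (Gd.zero hn).congr (by simp) (fun p => by simp)
  | succ k ih =>
    refine (ih.add h).congr ?_ fun p => ?_
    · push_cast; ring
    · rw [Pi.add_apply]; push_cast; ring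

private theorem Gd.zsmul (hn : ∀ i, 1 ≤ n i) {r : ℤ} {D : Gr n → ℤ} (h : Gd r D)
    (h' : Gd (-r) (fun p => -D p)) (k : ℤ) : Gd (k * r) (fun p => k * D p) := by
  obtain ⟨m, rfl | rfl⟩ := k.eq_nat_or_neg
  · exact h.nsmul hn m
  · refine (h'.nsmul hn m).congr ?_ fun p => ?_
    · ring
    · ring

theorem Gd.all (hn : ∀ i, 2 ≤ n i) (hL : 3 ≤ Fintype.card ι) {r : ℤ} {D : Gr n → ℤ}
    (h : ∑ p, D p = tau n * r) : Gd r D := by
  have hn1 : ∀ i, 1 ≤ n i := fun i => (by norm_num : 1 ≤ 2).trans (hn i)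
  obtain ⟨q0⟩ : Nonempty (Gr n) := ⟨fun i => ⟨0, hn1 i⟩⟩
  have h1 : Gd (r * 1) (fun p => r * (st p q0 : ℤ)) :=
    Gd.zsmul hn1 (r := 1) (D := fun p => (st p q0 : ℤ))
      ((Gd.of_ach hn1 (Ach.unit q0)).congr (by simp) fun _ => rfl) (Gd.neg_unit hn1 q0) r
  set k : Gr n → ℤ := fun p => D p - r * st p q0 with hk
  have h2 : ∀ t : Finset (Gr n), Gd 0 (fun x => ∑ p ∈ t, k p *
      ((Pi.single p 1 - Pi.single q0 1 : Gr n → ℤ) x)) := by
    intro t
    induction t using Finset.induction_on with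
    | empty => exact (Gd.zero hn1).congr rfl (fun x => by simp)
    | insert p t hp ih =>
      have h3 := Gd.zsmul hn1 (Gd.diff hn hL p q0)
        ((Gd.diff hn hL q0 p).congr (by simp) fun x => by simp) (k p)
      refine (h3.add ih).congr (by simp) fun x => ?_
      rw [Pi.add_apply, Finset.sum_insert hp]
  have hsum : ∑ p, k p = 0 := by
    have h4 : ∑ p, (st p q0 : ℤ) = tau n := by
      rw [← Nat.cast_sum, sum_st hn1 q0]
    simp only [hk]
    rw [Finset.sum_sub_distrib, h, ← Finset.mul_sum, h4]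
    ring
  refine (h1.add (h2 Finset.univ)).congr (by ring) fun x => ?_
  have h5 : ∑ p, k p * ((Pi.single p 1 - Pi.single q0 1 : Gr n → ℤ) x) = k x := by
    have h6 : ∀ p, k p * ((Pi.single p 1 - Pi.single q0 1 : Gr n → ℤ) x) =
        (if p = x then k p else 0) - k p * (Pi.single q0 1 : Gr n → ℤ) x := by
      intro p
      rw [Pi.sub_apply, mul_sub]
      congr 1
      rw [Pi.single_apply]
      by_cases hx : p = x
      · rw [if_pos hx, if_pos hx.symm, mul_one]
      · rw [if_neg hx, if_neg (fun e => hx e.symm), mul_zero]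
    rw [Finset.sum_congr rfl fun p _ => h6 p, Finset.sum_sub_distrib, ← Finset.sum_mul, hsum,
      Finset.sum_ite_eq' Finset.univ x k, if_pos (Finset.mem_univ x)]
    ring
  rw [Pi.add_apply, h5]
  simp only [hk]
  ring

end Pool.Agent.SV.C
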