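import Pool.Agent.Lib.MP_b54217_ag.C.DefsC

/-!
# THEOREM C.  Counting in the grid
-/

set_option autoImplicit false

namespace Pool.Agent.SV.C

variable {ι : Type} [Fintype ι] [DecidableEq ι] {n : ι → ℕ}

theorem Hit_st (p q : Gr n) : st p q = 2 - (Finset.univ.filter fun o => p o ≠ q o).card := rfl

theorem st_self (p : Gr n) : st p p = 2 := by
  rw [st, hammingDist_self]

theorem st_comm (p q : Gr n) : st p q = st q p := by
  rw [st, st, hammingDist_comm]

theorem Hit_sub (p q : Gr n) (i : ι) :
    (Finset.univ.filter fun o => p o ≠ q o) ⊆ {i} ↔ q = Function.update p i (q i) := by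
  constructor
  · intro h
    funext o
    by_cases ho : o = i
    · subst ho
      rw [Function.update_self]
    · rw [Function.update_of_ne ho]
      by_contra hne
      exact ho (Finset.mem_singleton.1
        (h (Finset.mem_filter.2 ⟨Finset.mem_univ o, fun h1 => hne h1.symm⟩)))
  · intro h o ho
    rw [Finset.mem_singleton]
    by_contra hne
    have h1 := (Finset.mem_filter.1 ho).2
    apply h1
    rw [h, Function.update_of_ne hne]

/-- `1 ≤ st p q` iff `q` is obtained from `p` by changing at most one coordinate. -/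
theorem st_pos_iff [Nonempty ι] (p q : Gr n) :
    1 ≤ st p q ↔ ∃ i, q = Function.update p i (q i) := by
  rw [Hit_st]
  have h1 : 1 ≤ 2 - (Finset.univ.filter fun o => p o ≠ q o).card ↔
      (Finset.univ.filter fun o => p o ≠ q o).card ≤ 1 := by omega
  rw [h1, Finset.card_le_one_iff_subset_singleton]
  exact exists_congr fun i => Hit_sub p q i

/-- The same for all `ι`. -/
theorem Hit_pos (p q : Gr n) : 1 ≤ st p q ↔ p = q ∨ ∃ i, q = Function.update p i (q i) := by
  rcases isEmpty_or_nonempty ι with h | h
  · have h1 : p = q := funext fun i => h.elim i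
    subst h1
    rw [st_self]
    exact ⟨fun _ => Or.inl rfl, fun _ => by norm_num⟩
  · rw [st_pos_iff]
    refine ⟨Or.inr, ?_⟩
    rintro (h1 | h1)
    · subst h1
      exact ⟨Classical.arbitrary ι, by rw [Function.update_eq_self]⟩
    · exact h1

theorem st_le_two (p q : Gr n) : st p q ≤ 2 := Nat.sub_le _ _

theorem st_eq_two_iff (p q : Gr n) : st p q = 2 ↔ p = q := by
  rw [st]
  constructor
  · intro h
    have h1 : hammingDist p q = 0 := by omega
    exact hammingDist_eq_zero.1 h1
  · rintro rfl
    rw [hammingDist_self]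

theorem Hit_ind (q c : Gr n) (i : ι) :
    (∑ v ∈ Finset.univ.erase (q i), if c = Function.update q i v then 1 else 0) =
      if (Finset.univ.filter fun o => q o ≠ c o) = {i} then 1 else 0 := by
  by_cases h : (Finset.univ.filter fun o => q o ≠ c o) = {i}
  · rw [if_pos h]
    have hi : q i ≠ c i := by
      have h1 : i ∈ (Finset.univ.filter fun o => q o ≠ c o) := by
        rw [h]
        exact Finset.mem_singleton_self i
      exact (Finset.mem_filter.1 h1).2
    have hc : c = Function.update q i (c i) := (Hit_sub q c i).1 h.le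
    rw [Finset.sum_eq_single (c i)]
    · rw [if_pos hc]
    · intro v _ hv
      rw [if_neg]
      intro h1
      apply hv
      have h2 := congrFun h1 i
      rw [Function.update_self] at h2
      exact h2.symm
    · intro h1
      exact absurd (Finset.mem_erase.2 ⟨hi.symm, Finset.mem_univ _⟩) h1
  · rw [if_neg h]
    refine Finset.sum_eq_zero fun v hv => ?_
    rw [if_neg]
    intro h1
    apply h
    have hvq : v ≠ q i := (Finset.mem_erase.1 hv).1
    refine Finset.Subset.antisymm ((Hit_sub q c i).2 ?_) ?_
    · rw [h1, Function.update_self]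
    · intro o ho
      rw [Finset.mem_singleton.1 ho, Finset.mem_filter]
      refine ⟨Finset.mem_univ _, ?_⟩
      rw [h1, Function.update_self]
      exact hvq.symm

/-- `st q c` in terms of the ball of radius one -/
theorem Hit_eq (q c : Gr n) : st q c = 2 * (if c = q then 1 else 0) +
    ∑ i, ∑ v ∈ Finset.univ.erase (q i), if c = Function.update q i v then 1 else 0 := by
  rw [Finset.sum_congr rfl fun i _ => Hit_ind q c i, Hit_st]
  have h0 : c = q ↔ (Finset.univ.filter fun o => q o ≠ c o) = ∅ := by
    rw [Finset.filter_eq_empty_iff]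
    constructor
    · rintro rfl o _ h
      exact h rfl
    · intro h
      funext o
      by_contra hne
      exact h (Finset.mem_univ o) (fun h1 => hne h1.symm)
  generalize hS : (Finset.univ.filter fun o => q o ≠ c o) = S at h0 ⊢
  by_cases hc : c = q
  · have hS0 := h0.1 hc
    rw [if_pos hc, hS0, Finset.card_empty]
    have h1 : (∑ i : ι, if (∅ : Finset ι) = {i} then 1 else 0) = 0 :=
      Finset.sum_eq_zero fun i _ => if_neg (Finset.singleton_ne_empty i).symm
    rw [h1]
  · rw [if_neg hc, mul_zero, zero_add]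
    have hne : S ≠ ∅ := fun h => hc (h0.2 h)
    by_cases h1 : S.card = 1
    · obtain ⟨a, ha⟩ := Finset.card_eq_one.1 h1
      rw [h1, Finset.sum_eq_single a]
      · rw [if_pos ha]
      · intro b _ hb
        rw [if_neg]
        rw [ha]
        intro h2
        exact hb (Finset.singleton_inj.1 h2).symm
      · intro h2
        exact absurd (Finset.mem_univ a) h2
    · have h2 : 0 < S.card := Finset.card_pos.2 (Finset.nonempty_iff_ne_empty.2 hne)
      have h4 : (∑ i : ι, if S = {i} then 1 else 0) = 0 :=
        Finset.sum_eq_zero fun i _ => if_neg fun h3 => h1 (by rw [h3, Finset.card_singleton])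
      rw [h4]
      omega

/-- sums over the grid with the weights `st q` -/
theorem Hit_sum (q : Gr n) (f : Gr n → ℕ) : ∑ c, st q c * f c =
    2 * f q + ∑ i, ∑ v ∈ Finset.univ.erase (q i), f (Function.update q i v) := by
  have h1 : ∀ c, st q c * f c = 2 * ((if c = q then 1 else 0) * f c) +
      ∑ i, ∑ v ∈ Finset.univ.erase (q i), (if c = Function.update q i v then 1 else 0) * f c := by
    intro c
    rw [Hit_eq, add_mul, mul_assoc, Finset.sum_mul]
    congr 1
    exact Finset.sum_congr rfl fun i _ => Finset.sum_mul _ _ _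
  have h2 : ∀ u : Gr n, ∑ c, (if c = u then 1 else 0) * f c = f u := by
    intro u
    rw [Finset.sum_eq_single u]
    · rw [if_pos rfl, one_mul]
    · intro c _ hc
      rw [if_neg hc, zero_mul]
    · intro h
      exact absurd (Finset.mem_univ u) h
  rw [Finset.sum_congr rfl fun c _ => h1 c, Finset.sum_add_distrib, ← Finset.mul_sum, h2,
    Finset.sum_comm]
  congr 1
  refine Finset.sum_congr rfl fun i _ => ?_
  rw [Finset.sum_comm]
  exact Finset.sum_congr rfl fun v _ => h2 _

/-- `∑_p st p q = 2 + ∑ (n i - 1)`. -/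
theorem sum_st (hn : ∀ i, 1 ≤ n i) (q : Gr n) : ∑ p, st p q = tau n := by
  have h1 := Hit_sum q fun _ => 1
  simp only [mul_one, Finset.sum_const, smul_eq_mul] at h1
  rw [Finset.sum_congr rfl fun p _ => st_comm p q, h1, tau]
  congr 1
  refine Finset.sum_congr rfl fun i _ => ?_
  rw [Finset.card_erase_of_mem (Finset.mem_univ _), Finset.card_univ, Fintype.card_fin]

namespace Sh

theorem Hit_a (s : Sh n) (p : Gr n) : s.a p = 2 * (2 * (if p ∈ s.Cl then 1 else 0) +
    ∑ i, ∑ v ∈ Finset.univ.erase (p i), if Function.update p i v ∈ s.Cl then 1 else 0) := by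
  rw [← Hit_sum p fun c => if c ∈ s.Cl then 1 else 0, a, ← Finset.mul_sum]
  congr 1
  simp only [mul_ite, mul_one, mul_zero]
  rw [Finset.sum_ite_mem, Finset.univ_inter]

theorem Hit_mem (s : Sh n) (p : Gr n) : p ∈ s.Cl ↔ p s.i = s.l ∧ p s.j ≠ s.l' := by
  rw [Cl, Finset.mem_filter]
  exact ⟨fun h => h.2, fun h => ⟨Finset.mem_univ _, h⟩⟩

/-- Only `update p i l` can be in `Cl` and adjacent to `p`. -/
theorem a_le (s : Sh n) {p : Gr n} (hp : p s.i ≠ s.l) : s.a p ≤ 2 := by
  rw [Hit_a, if_neg (fun h => hp ((Hit_mem s p).1 h).1), mul_zero, zero_add]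
  have h1 : (∑ i, ∑ v ∈ Finset.univ.erase (p i),
      if Function.update p i v ∈ s.Cl then 1 else 0) ≤ 1 := by
    rw [Finset.sum_eq_single s.i]
    · rw [← Finset.sum_subset (s₁ := (Finset.univ.erase (p s.i)).filter fun v => v = s.l)
        (Finset.filter_subset _ _)]
      · refine (Finset.sum_le_card_nsmul _ _ 1 fun v _ => ?_).trans ?_
        · split_ifs
          · exact le_rfl
          · exact Nat.zero_le _
        · rw [smul_eq_mul, mul_one, Finset.card_le_one]
          intro a ha b hb
          rw [(Finset.mem_filter.1 ha).2, (Finset.mem_filter.1 hb).2]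
      · intro v hv hv'
        rw [if_neg]
        intro h
        apply hv'
        refine Finset.mem_filter.2 ⟨hv, ?_⟩
        have h2 := ((Hit_mem s _).1 h).1
        rwa [Function.update_self] at h2
    · intro o _ ho
      refine Finset.sum_eq_zero fun v _ => ?_
      rw [if_neg]
      intro h
      apply hp
      have h2 := ((Hit_mem s _).1 h).1
      rwa [Function.update_of_ne ho.symm] at h2
    · intro h
      exact absurd (Finset.mem_univ _) h
  omega

/-- `q` has more colliding neighbours than `q'` (third coordinate!). -/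
theorem a_q (s : Sh n) (hn : ∀ i, 2 ≤ n i) (hL : 3 ≤ Fintype.card ι) : s.a s.q' + 4 ≤ s.a s.q := by
  have hqi : s.q s.i = s.l := by rw [q, Function.update_self]
  have hqj : s.q s.j = s.ctr s.j := by rw [q, Function.update_of_ne s.hij.symm]
  have hqj' : s.q' s.j = s.l' := by rw [q', Function.update_self]
  have hqi' : s.q' s.i = s.l := by rw [q', Function.update_of_ne s.hij, hqi]
  have hq : s.q ∈ s.Cl := (Hit_mem s _).2 ⟨hqi, by rw [hqj]; exact s.hl'.symm⟩
  have hq' : s.q' ∉ s.Cl := fun h => ((Hit_mem s _).1 h).2 hqj'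
  -- the third coordinate
  obtain ⟨o, ho⟩ : ∃ o, o ∉ ({s.i, s.j} : Finset ι) := by
    by_contra hcon
    push Not at hcon
    have h1 : Fintype.card ι ≤ ({s.i, s.j} : Finset ι).card := by
      rw [← Finset.card_univ]
      exact Finset.card_le_card fun x _ => hcon x
    have h2 := Finset.card_le_two (a := s.i) (b := s.j)
    omega
  rw [Finset.mem_insert, Finset.mem_singleton, not_or] at ho
  -- the sum at `q'`
  have h1 : (∑ i, ∑ v ∈ Finset.univ.erase (s.q' i),
      if Function.update s.q' i v ∈ s.Cl then 1 else 0) ≤ n s.j - 1 := by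
    rw [Finset.sum_eq_single s.j]
    · refine (Finset.sum_le_card_nsmul _ _ 1 fun v _ => ?_).trans ?_
      · split_ifs
        · exact le_rfl
        · exact Nat.zero_le _
      · rw [smul_eq_mul, mul_one, Finset.card_erase_of_mem (Finset.mem_univ _), Finset.card_univ,
          Fintype.card_fin]
    · intro x _ hx
      refine Finset.sum_eq_zero fun v _ => ?_
      rw [if_neg]
      intro h
      have h2 := ((Hit_mem s _).1 h).2
      rw [Function.update_of_ne hx.symm] at h2
      exact h2 hqj'
    · intro h
      exact absurd (Finset.mem_univ _) h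
  -- the sum at `q`
  let g : ι → ℕ := fun i => ∑ v ∈ Finset.univ.erase (s.q i),
      if Function.update s.q i v ∈ s.Cl then 1 else 0
  have hgj : n s.j - 2 ≤ g s.j := by
    have h2 : ((Finset.univ.erase (s.q s.j)).erase s.l').card = n s.j - 2 := by
      rw [Finset.card_erase_of_mem, Finset.card_erase_of_mem (Finset.mem_univ _),
        Finset.card_univ, Fintype.card_fin]
      · omega
      · rw [Finset.mem_erase, hqj]
        exact ⟨s.hl', Finset.mem_univ _⟩
    rw [← h2]
    refine le_trans ?_ (Finset.sum_le_sum_of_subset (Finset.erase_subset s.l' _))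
    rw [Finset.card_eq_sum_ones]
    refine Finset.sum_le_sum fun v hv => ?_
    rw [if_pos]
    refine (Hit_mem s _).2 ⟨?_, ?_⟩
    · rw [Function.update_of_ne s.hij, hqi]
    · rw [Function.update_self]
      exact (Finset.mem_erase.1 hv).1
  have hgo : 1 ≤ g o := by
    have h2 : g o = n o - 1 := by
      have h3 : g o = ∑ v ∈ Finset.univ.erase (s.q o), 1 := by
        refine Finset.sum_congr rfl fun v _ => ?_
        rw [if_pos]
        refine (Hit_mem s _).2 ⟨?_, ?_⟩
        · rw [Function.update_of_ne (Ne.symm ho.1), hqi]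
        · rw [Function.update_of_ne (Ne.symm ho.2), hqj]
          exact s.hl'.symm
      rw [h3, ← Finset.card_eq_sum_ones, Finset.card_erase_of_mem (Finset.mem_univ _),
        Finset.card_univ, Fintype.card_fin]
    have h3 := hn o
    omega
  have hg : g s.j + g o ≤ ∑ i, g i := by
    have h2 : ∑ i ∈ ({s.j, o} : Finset ι), g i = g s.j + g o :=
      Finset.sum_pair (Ne.symm ho.2)
    rw [← h2]
    exact Finset.sum_le_sum_of_subset (Finset.subset_univ _)
  rw [Hit_a s s.q, Hit_a s s.q', if_pos hq, if_neg hq']
  have hnj := hn s.j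
  change 2 * (2 * 0 + _) + 4 ≤ 2 * (2 * 1 + ∑ i, g i)
  omega

theorem update_s1 (s : Sh n) : Function.update s.s1 s.i s.l = s.q' := by
  rw [s1, q', q, Function.update_comm s.hij.symm]

theorem q_ne (s : Sh n) : s.q ≠ s.ctr ∧ s.q' ≠ s.ctr ∧ s.q ≠ s.q' ∧ s.s1 ≠ s.ctr ∧ s.s1 ≠ s.q' ∧
    s.s1 ≠ s.q := by
  have hqi : s.q s.i = s.l := by rw [q, Function.update_self]
  have hqj : s.q s.j = s.ctr s.j := by rw [q, Function.update_of_ne s.hij.symm]
  have hqj' : s.q' s.j = s.l' := by rw [q', Function.update_self]
  have hqi' : s.q' s.i = s.l := by rw [q', Function.update_of_ne s.hij, hqi]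
  have hsj : s.s1 s.j = s.l' := by rw [s1, Function.update_self]
  have hsi : s.s1 s.i = s.ctr s.i := by rw [s1, Function.update_of_ne s.hij]
  refine ⟨fun h => ?_, fun h => ?_, fun h => ?_, fun h => ?_, fun h => ?_, fun h => ?_⟩
  · exact s.hl (by rw [← hqi, h])
  · exact s.hl' (by rw [← hqj', h])
  · exact s.hl' (by rw [← hqj', ← h, hqj])
  · exact s.hl' (by rw [← hsj, h])
  · exact s.hl (by rw [← hqi', ← h, hsi])
  · exact s.hl' (by rw [← hsj, h, hqj])

/-- For every pair of adjacent elements there is a shift. -/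
theorem exists_sh (hn : ∀ i, 2 ≤ n i) (hL : 2 ≤ Fintype.card ι) {p : Gr n} {j : ι} {v : Fin (n j)}
    (hv : v ≠ p j) : ∃ s : Sh n, s.q = p ∧ s.q' = Function.update p j v := by
  have hnt : Nontrivial ι := Fintype.one_lt_card_iff_nontrivial.1 hL
  obtain ⟨i, hij⟩ := exists_ne j
  have hnt' : Nontrivial (Fin (n i)) := Fin.nontrivial_iff_two_le.2 (hn i)
  obtain ⟨m, hm⟩ := exists_ne (p i)
  have hq : Function.update (Function.update p i m) i (p i) = p := by
    rw [Function.update_idem, Function.update_eq_self]
  refine ⟨⟨Function.update p i m, i, j, hij, p i, ?_, v, ?_⟩, hq, ?_⟩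
  · rw [Function.update_self]
    exact hm.symm
  · rw [Function.update_of_ne hij.symm]
    exact hv
  · change Function.update (Function.update (Function.update p i m) i (p i)) j v = _
    rw [hq]

end Sh

end Pool.Agent.SV.C
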