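import Pool.Agent.Lib.MP_b54217_ag.E.Jets

/-!
# THEOREM C.  Limits of kernels
-/

set_option autoImplicit false

namespace Pool.Agent.SV.C

open Polynomial Module Pool.Agent.SV.E

/-- A nonzero relation over `ℂ[X]` can be divided by `X` until it is nonzero at `0`. -/
theorem lim_rel {R : Type} {m : ℕ} (M : Fin m → R → ℂ[X]) (v : Fin m → ℂ[X])
    (hv : v ≠ 0) (h : ∀ r, ∑ b, v b * M b r = 0) :
    ∃ w : Fin m → ℂ[X], (∃ b, (w b).eval 0 ≠ 0) ∧ ∀ r, ∑ b, w b * M b r = 0 := by
  by_contra hcon
  have key : ∀ (n : ℕ) (w : Fin m → ℂ[X]), (∀ r, ∑ b, w b * M b r = 0) →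
      ∑ b, (w b).natDegree = n → w = 0 := by
    intro n
    induction n using Nat.strong_induction_on with
    | _ n ih =>
      intro w hw hn
      have h0 : ∀ b, (w b).coeff 0 = 0 := by
        intro b
        by_contra hb
        exact hcon ⟨w, ⟨b, by rwa [← Polynomial.coeff_zero_eq_eval_zero]⟩, hw⟩
      by_contra hw0
      have hwX : ∀ b, w b = X * (w b).divX := by
        intro b
        have h1 := Polynomial.X_mul_divX_add (w b)
        rw [h0 b, map_zero, add_zero] at h1
        exact h1.symm
      have hu : (fun b => (w b).divX) = 0 := by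
        refine ih (∑ b, ((w b).divX).natDegree) ?_ _ ?_ rfl
        · rw [← hn]
          obtain ⟨b, hb⟩ : ∃ b, w b ≠ 0 := by
            by_contra hc
            push Not at hc
            exact hw0 (funext hc)
          have h2 : ∀ b, ((w b).divX).natDegree = (w b).natDegree - 1 := fun b =>
            Polynomial.natDegree_divX_eq_natDegree_tsub_one
          refine Finset.sum_lt_sum (fun b _ => by rw [h2]; omega) ⟨b, Finset.mem_univ _, ?_⟩
          rw [h2]
          have h3 : (w b).natDegree ≠ 0 := by
            intro h4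
            apply hb
            rw [Polynomial.eq_C_of_natDegree_eq_zero h4, h0 b, map_zero]
          omega
        · intro r
          have h2 := hw r
          have h3 : ∑ b, w b * M b r = X * ∑ b, (w b).divX * M b r := by
            rw [Finset.mul_sum]
            refine Finset.sum_congr rfl fun b _ => ?_
            rw [← mul_assoc, ← hwX b]
          rw [h3] at h2
          exact (mul_eq_zero.1 h2).resolve_left Polynomial.X_ne_zero
      apply hw0
      funext b
      rw [hwX b, congrFun hu b, Pi.zero_apply, mul_zero]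
  exact hv (key _ v h rfl)

/-- If all limits of polynomial families in the kernels lie in `W` then some kernel has dimension
at most `dim (V ⊓ W)`.  Take a complement `C` of `V ⊓ W` in `V` with basis `b`, and the matrix
`φ r (b i)` over `ℂ[X]`.  Rows independent: `E.exists_right_inv`, evaluate at `ε` with `d(ε) ≠ 0`:
the kernel meets `C` in `0`.  Rows dependent: a relation `v ≠ 0`, divide by `X` until `v(0) ≠ 0`:
`∑ v_i(0) b_i ∈ W ⊓ C`, contradiction. -/
theorem lim {E : Type} [AddCommGroup E] [Module ℂ E] (V W : Submodule ℂ E)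
    [FiniteDimensional ℂ V] {R : Type} [Fintype R] (φ : R → E →ₗ[ℂ] ℂ[X])
    (h : ∀ (m : ℕ) (e : Fin m → E) (v : Fin m → ℂ[X]), (∀ b, e b ∈ V) →
      (∀ r, ∑ b, v b * φ r (e b) = 0) → ∑ b, (v b).eval 0 • e b ∈ W) (bad : Finset ℂ) :
    ∃ ε, ε ∉ bad ∧ finrank ℂ (Z V fun r => (Polynomial.leval ε).comp (φ r)) ≤
      finrank ℂ (V ⊓ W : Submodule ℂ E) := by
  classical
  set W' : Submodule ℂ V := W.comap V.subtype with hW'
  obtain ⟨C, hC⟩ := Submodule.exists_isCompl W'
  have hfW : finrank ℂ W' = finrank ℂ (V ⊓ W : Submodule ℂ E) := by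
    have h1 : (V ⊓ W : Submodule ℂ E) = W'.map V.subtype := by
      rw [hW', Submodule.map_comap_subtype]
    rw [h1]
    exact (Submodule.equivMapOfInjective V.subtype V.subtype_injective W').finrank_eq
  have hfV : finrank ℂ W' + finrank ℂ C = finrank ℂ V := Submodule.finrank_add_eq_of_isCompl hC
  set m := finrank ℂ C with hm
  let b : Basis (Fin m) ℂ C := Module.finBasis ℂ C
  let e : Fin m → E := fun i => ((b i : V) : E)
  let M : Matrix (Fin m) R ℂ[X] := fun i r => φ r (e i)
  by_cases hM : LinearIndependent ℂ[X] fun i => M i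
  · obtain ⟨B, d, hd, hB⟩ := exists_right_inv M hM
    obtain ⟨ε, hε⟩ := Infinite.exists_notMem_finset (bad ∪ d.roots.toFinset)
    rw [Finset.mem_union, not_or, Multiset.mem_toFinset, Polynomial.mem_roots hd] at hε
    refine ⟨ε, hε.1, ?_⟩
    have hdε : d.eval ε ≠ 0 := hε.2
    set Zε := Z V fun r => (Polynomial.leval ε).comp (φ r) with hZ
    set Z' : Submodule ℂ V := Zε.comap V.subtype with hZ'
    have hfZ : finrank ℂ Z' = finrank ℂ Zε := by
      have h1 : Zε = Z'.map V.subtype := by
        rw [hZ', Submodule.map_comap_subtype, inf_eq_right.2 (Z_le V _)]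
      conv_rhs => rw [h1]
      exact (Submodule.equivMapOfInjective V.subtype V.subtype_injective Z').finrank_eq
    have hdisj : Disjoint Z' C := by
      rw [Submodule.disjoint_def]
      intro f hf hfC
      have h1 : ∀ r, (φ r (f : E)).eval ε = 0 := by
        intro r
        have h2 : (f : E) ∈ Zε := hf
        exact (mem_Z.1 h2).2 r
      set c := b.repr ⟨f, hfC⟩ with hc
      have hsum : (f : E) = ∑ i, c i • e i := by
        have h2 := congrArg (fun y : C => ((y : V) : E)) (b.sum_repr ⟨f, hfC⟩)
        simp only [Submodule.coe_sum, Submodule.coe_smul] at h2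
        exact h2.symm
      have h3 : ∀ r, ∑ i, c i * (M i r).eval ε = 0 := by
        intro r
        have h4 := h1 r
        rw [hsum, map_sum, Polynomial.eval_finsetSum] at h4
        rw [← h4]
        refine Finset.sum_congr rfl fun i _ => ?_
        rw [map_smul, Polynomial.eval_smul, smul_eq_mul]
      have hc0 : ∀ j, c j = 0 := by
        intro j
        have h5 : ∑ r, (∑ i, c i * (M i r).eval ε) * (B r j).eval ε = 0 := by
          refine Finset.sum_eq_zero fun r _ => ?_
          rw [h3 r, zero_mul]
        have h6 : ∑ r, (∑ i, c i * (M i r).eval ε) * (B r j).eval ε =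
            ∑ i, c i * (∑ r, (M i r).eval ε * (B r j).eval ε) := by
          simp only [Finset.sum_mul, Finset.mul_sum, mul_assoc]
          rw [Finset.sum_comm]
        have h7 : ∀ i, ∑ r, (M i r).eval ε * (B r j).eval ε =
            if i = j then d.eval ε else 0 := by
          intro i
          have h8 := congrArg (Polynomial.eval ε) (congrFun (congrFun hB i) j)
          rw [Matrix.mul_apply, Polynomial.eval_finsetSum, Matrix.smul_apply, smul_eq_mul,
            Matrix.one_apply] at h8
          simp only [Polynomial.eval_mul] at h8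
          rw [h8]
          split_ifs
          · rw [Polynomial.eval_one, mul_one]
          · rw [Polynomial.eval_zero, mul_zero]
        rw [h6] at h5
        simp only [h7, mul_ite, mul_zero, Finset.sum_ite_eq', Finset.mem_univ, if_true] at h5
        exact (mul_eq_zero.1 h5).resolve_right hdε
      have h9 : (f : E) = 0 := by
        rw [hsum]
        exact Finset.sum_eq_zero fun i _ => by rw [hc0 i, zero_smul]
      exact Subtype.ext h9
    have h10 : finrank ℂ Z' + finrank ℂ C ≤ finrank ℂ V := by
      rw [← Submodule.finrank_sup_add_finrank_inf_eq Z' C, hdisj.eq_bot, finrank_bot, add_zero]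
      exact Submodule.finrank_le _
    rw [← hfZ, ← hfW]
    omega
  · exfalso
    obtain ⟨v, hv, i0, hi0⟩ := Fintype.not_linearIndependent_iff.1 hM
    have hrel : ∀ r, ∑ i, v i * M i r = 0 := by
      intro r
      have h1 := congrFun hv r
      rw [Finset.sum_apply] at h1
      exact h1
    obtain ⟨w, ⟨j, hj⟩, hw⟩ := lim_rel M v (fun h0 => hi0 (congrFun h0 i0)) hrel
    have h1 := h m e w (fun i => (b i : V).2) hw
    have h2 : (∑ i, (w i).eval 0 • b i : C) = 0 := by
      have h3 : ((∑ i, (w i).eval 0 • b i : C) : V) ∈ W' := by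
        rw [hW', Submodule.mem_comap]
        have h4 : V.subtype ((∑ i, (w i).eval 0 • b i : C) : V) = ∑ i, (w i).eval 0 • e i := by
          simp only [Submodule.coe_sum, Submodule.coe_smul, map_sum, map_smul]
          rfl
        rw [h4]
        exact h1
      have h5 := (Submodule.disjoint_def.1 hC.disjoint) _ h3 (Subtype.mem _)
      exact Subtype.ext h5
    have h6 := Fintype.linearIndependent_iff.1 b.linearIndependent _ h2 j
    exact hj h6

end Pool.Agent.SV.C
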