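import Pool.Agent.Lib.MP_b54217_ag.C.AchC
import Pool.Agent.Lib.MP_b54217_ag.C.Lim
import Pool.Agent.Lib.MP_b54217_ag.C.Clu

/-!
# THEOREM C.  The shift
-/

set_option autoImplicit false

namespace Pool.Agent.SV.C

open Polynomial Module

variable {ι : Type} [Fintype ι] [DecidableEq ι] {n : ι → ℕ}

/-- The general point of the cluster: `u_i = e_(ctr i) + ε^4 e_l`, `u_j = e_(ctr j) + ε^3 e_l'`,
`u_o = e_(ctr o)`. -/
noncomputable def sp (s : Sh n) (ε : ℂ) : (i : ι) → Fin (n i) → ℂ :=
  Function.update (Function.update (fun i => Pi.single (s.ctr i) 1) s.i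
    (Pi.single (s.ctr s.i) 1 + Pi.single s.l (ε ^ 4))) s.j
    (Pi.single (s.ctr s.j) 1 + Pi.single s.l' (ε ^ 3))

section multi

/-- The multilinear form with coefficients `g`. -/
noncomputable def Mf (g : Gr n → ℂ) (u : (i : ι) → Fin (n i) → ℂ) : ℂ :=
  ∑ p, (∏ i, u i (p i)) * g p

theorem prod_update (u : (i : ι) → Fin (n i) → ℂ) (i : ι) (w : Fin (n i) → ℂ) (p : Gr n) :
    ∏ i', Function.update u i w i' (p i') =
      w (p i) * ∏ i' ∈ Finset.univ.erase i, u i' (p i') := by
  rw [← Finset.mul_prod_erase _ _ (Finset.mem_univ i), Function.update_self]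
  congr 1
  refine Finset.prod_congr rfl fun i' hi' => ?_
  rw [Function.update_of_ne (Finset.ne_of_mem_erase hi')]

theorem Mf_add (g : Gr n → ℂ) (u : (i : ι) → Fin (n i) → ℂ) (i : ι) (a b : Fin (n i) → ℂ) :
    Mf g (Function.update u i (a + b)) =
      Mf g (Function.update u i a) + Mf g (Function.update u i b) := by
  simp only [Mf, prod_update, Pi.add_apply, add_mul, Finset.sum_add_distrib]

theorem Mf_smul (g : Gr n → ℂ) (u : (i : ι) → Fin (n i) → ℂ) (i : ι) (c : ℂ)
    (b : Fin (n i) → ℂ) :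
    Mf g (Function.update u i (c • b)) = c * Mf g (Function.update u i b) := by
  simp only [Mf, prod_update, Pi.smul_apply, smul_eq_mul, mul_assoc, Finset.mul_sum]

theorem Mf_single (g : Gr n → ℂ) (u : (i : ι) → Fin (n i) → ℂ) (i : ι) (l : Fin (n i)) :
    Mf g (Function.update u i (Pi.single l 1)) =
      ∑ p ∈ Finset.univ.filter (fun p : Gr n => p i = l),
        (∏ i' ∈ Finset.univ.erase i, u i' (p i')) * g p := by
  rw [Mf, Finset.sum_filter]
  refine Finset.sum_congr rfl fun p _ => ?_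
  rw [prod_update, Pi.single_apply]
  split_ifs <;> simp

/-- The unit vectors. -/
noncomputable def us (r : Gr n) : (i : ι) → Fin (n i) → ℂ := fun i => Pi.single (r i) 1

theorem Mf_us (g : Gr n → ℂ) (r : Gr n) : Mf g (us r) = g r := by
  rw [Mf, Finset.sum_eq_single r]
  · simp [us]
  · intro p _ hp
    obtain ⟨i, hi⟩ := Function.ne_iff.1 hp
    rw [Finset.prod_eq_zero (Finset.mem_univ i), zero_mul]
    rw [us, Pi.single_eq_of_ne hi]
  · intro h
    exact absurd (Finset.mem_univ r) h

omit [Fintype ι] in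
theorem us_update (r : Gr n) (i : ι) (l : Fin (n i)) :
    Function.update (us r) i (Pi.single l 1) = us (Function.update r i l) := by
  funext i'
  by_cases h : i' = i
  · subst h
    simp [us]
  · simp [us, Function.update_of_ne h]

theorem single_eq_smul {k : ℕ} (l : Fin k) (c : ℂ) :
    (Pi.single l c : Fin k → ℂ) = c • Pi.single l 1 := by
  rw [← Pi.single_smul, smul_eq_mul, mul_one]

theorem Mf_two (g : Gr n → ℂ) (r : Gr n) (i : ι) (a l : Fin (n i)) (c : ℂ) :
    Mf g (Function.update (us r) i (Pi.single a 1 + Pi.single l c)) =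
      g (Function.update r i a) + c * g (Function.update r i l) := by
  rw [Mf_add, single_eq_smul l c, Mf_smul, us_update, us_update, Mf_us, Mf_us]

theorem Mf_four (g : Gr n → ℂ) (r : Gr n) {i j : ι} (hij : i ≠ j) (a l : Fin (n i))
    (a' l' : Fin (n j)) (c c' : ℂ) :
    Mf g (Function.update (Function.update (us r) i (Pi.single a 1 + Pi.single l c)) j
      (Pi.single a' 1 + Pi.single l' c')) =
      (g (Function.update (Function.update r j a') i a) +
        c * g (Function.update (Function.update r j a') i l)) +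
      c' * (g (Function.update (Function.update r j l') i a) +
        c * g (Function.update (Function.update r j l') i l)) := by
  have h : ∀ b : Fin (n j), Function.update (Function.update (us r) i
      (Pi.single a 1 + Pi.single l c)) j (Pi.single b 1) =
      Function.update (us (Function.update r j b)) i (Pi.single a 1 + Pi.single l c) := by
    intro b
    rw [Function.update_comm hij, us_update]
  rw [Mf_add, single_eq_smul l' c', Mf_smul, h, h, Mf_two, Mf_two]

omit [Fintype ι] in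
theorem upd_self (r : Gr n) (j : ι) {v : Fin (n j)} (h : r j = v) : Function.update r j v = r := by
  rw [← h, Function.update_eq_self]

end multi

omit [Fintype ι] in
theorem sp_eq (s : Sh n) (ε : ℂ) : sp s ε =
    Function.update (Function.update (us s.ctr) s.i
    (Pi.single (s.ctr s.i) 1 + Pi.single s.l (ε ^ 4))) s.j
    (Pi.single (s.ctr s.j) 1 + Pi.single s.l' (ε ^ 3)) := rfl

/-- The conditions of the general point. -/
theorem sp_mem (s : Sh n) (ε y0 : ℂ) {F : Rw n} (hF : F ∈ DB (sp s ε, y0)) :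
    (∀ l2, (F (Function.update s.ctr s.i l2)).eval y0 +
      ε ^ 3 * (F (Function.update s.s1 s.i l2)).eval y0 = 0) ∧
    (∀ l2, (F (Function.update s.ctr s.j l2)).eval y0 +
      ε ^ 4 * (F (Function.update s.q s.j l2)).eval y0 = 0) ∧
    (∀ o, o ≠ s.i → o ≠ s.j → ∀ v, (F (Function.update s.ctr o v)).eval y0 +
      ε ^ 3 * (F (Function.update s.s1 o v)).eval y0 +
      ε ^ 4 * (F (Function.update s.q o v)).eval y0 +
      ε ^ 7 * (F (Function.update s.q' o v)).eval y0 = 0) ∧
    (derivative (F s.ctr)).eval y0 + ε ^ 3 * (derivative (F s.s1)).eval y0 +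
      ε ^ 4 * (derivative (F s.q)).eval y0 + ε ^ 7 * (derivative (F s.q')).eval y0 = 0 := by
  obtain ⟨-, h2, h3⟩ := hF
  have hji : s.j ≠ s.i := s.hij.symm
  have key : ∀ (i : ι) (l : Fin (n i)), Mf (fun p => (F p).eval y0)
      (Function.update (sp s ε) i (Pi.single l 1)) = 0 := by
    intro i l
    rw [Mf_single]
    exact h2 i l
  refine ⟨fun l2 => ?_, fun l2 => ?_, fun o hoi hoj v => ?_, ?_⟩
  · have h := key s.i l2
    rw [sp_eq, Function.update_comm hji, Function.update_idem, us_update, Mf_two,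
      upd_self (Function.update s.ctr s.i l2) s.j (Function.update_of_ne hji _ _)] at h
    rw [Sh.s1, Function.update_comm hji]
    exact h
  · have h := key s.j l2
    rw [sp_eq, Function.update_idem, Function.update_comm s.hij, us_update, Mf_two,
      upd_self (Function.update s.ctr s.j l2) s.i (Function.update_of_ne s.hij _ _)] at h
    rw [Sh.q, Function.update_comm s.hij]
    exact h
  · have h := key o v
    rw [sp_eq, Function.update_comm hoj.symm, Function.update_comm hoi.symm, us_update,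
      Mf_four _ _ s.hij,
      upd_self (Function.update s.ctr o v) s.j (Function.update_of_ne hoj.symm _ _),
      upd_self (Function.update s.ctr o v) s.i (Function.update_of_ne hoi.symm _ _),
      upd_self (Function.update (Function.update s.ctr o v) s.j s.l') s.i (by
        rw [Function.update_of_ne s.hij, Function.update_of_ne hoi.symm])] at h
    rw [Sh.q', Sh.s1, Sh.q, Function.update_comm hoj.symm, Function.update_comm hoi.symm,
      Function.update_comm hoj.symm, Function.update_comm hoi.symm]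
    rw [Function.update_comm hji] at h
    linear_combination h
  · have h : Mf (fun p => (derivative (F p)).eval y0) (sp s ε) = 0 := h3
    rw [sp_eq, Mf_four _ _ s.hij, upd_self s.ctr s.j rfl, upd_self s.ctr s.i rfl,
      upd_self (Function.update s.ctr s.j s.l') s.i (Function.update_of_ne s.hij _ _)] at h
    rw [Sh.q', Sh.s1, Sh.q, Function.update_comm s.hij]
    linear_combination h

omit [Fintype ι] in
theorem sp_good (s : Sh n) {ε : ℂ} (h3 : 1 + ε ^ 3 ≠ 0) (h4 : 1 + ε ^ 4 ≠ 0) (y0 : ℂ) :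
    Good ((sp s ε, y0) : Pt n) := by
  intro i
  by_cases hj : i = s.j
  · subst hj
    have : ∑ l, sp s ε s.j l = 1 + ε ^ 3 := by
      simp [sp, Finset.sum_add_distrib]
    rw [this]
    exact h3
  by_cases hi : i = s.i
  · subst hi
    have : ∑ l, sp s ε s.i l = 1 + ε ^ 4 := by
      simp [sp, Function.update_of_ne hj, Finset.sum_add_distrib]
    rw [this]
    exact h4
  · have : ∑ l, sp s ε i l = 1 := by
      simp [sp, Function.update_of_ne hj, Function.update_of_ne hi]
    rw [this]
    exact one_ne_zero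

section fam

/-- The value of the row `p` at `ρ`. -/
noncomputable def el (ρ : ℂ[X]) (p : Gr n) : Rw n →ₗ[ℂ] ℂ[X] :=
  (aeval ρ).toLinearMap.comp (LinearMap.proj p)

/-- The value of the derivative of the row `p` at `ρ`. -/
noncomputable def dl (ρ : ℂ[X]) (p : Gr n) : Rw n →ₗ[ℂ] ℂ[X] :=
  (aeval ρ).toLinearMap.comp (derivative.comp (LinearMap.proj p))

omit [Fintype ι] [DecidableEq ι] in
theorem el_apply (ρ : ℂ[X]) (p : Gr n) (F : Rw n) : el ρ p F = ((F p).map C).eval ρ := by
  rw [el, LinearMap.comp_apply, LinearMap.proj_apply, AlgHom.toLinearMap_apply, aeval_def,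
    eval₂_eq_eval_map]
  rfl

omit [Fintype ι] [DecidableEq ι] in
theorem dl_apply (ρ : ℂ[X]) (p : Gr n) (F : Rw n) :
    dl ρ p F = ((derivative (F p)).map C).eval ρ := by
  rw [dl, LinearMap.comp_apply, LinearMap.comp_apply, LinearMap.proj_apply,
    AlgHom.toLinearMap_apply, aeval_def, eval₂_eq_eval_map]
  rfl

omit [Fintype ι] [DecidableEq ι] in
theorem leval_el (ε : ℂ) (ρ : ℂ[X]) (p : Gr n) (F : Rw n) :
    (el ρ p F).eval ε = (F p).eval (ρ.eval ε) := by
  rw [el, LinearMap.comp_apply, LinearMap.proj_apply, AlgHom.toLinearMap_apply, ← comp_eq_aeval,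
    eval_comp]

omit [Fintype ι] [DecidableEq ι] in
theorem leval_dl (ε : ℂ) (ρ : ℂ[X]) (p : Gr n) (F : Rw n) :
    (dl ρ p F).eval ε = (derivative (F p)).eval (ρ.eval ε) := by
  rw [dl, LinearMap.comp_apply, LinearMap.comp_apply, LinearMap.proj_apply,
    AlgHom.toLinearMap_apply, ← comp_eq_aeval, eval_comp]

/-- The family of rows with the coefficients `v`. -/
noncomputable def Fa {m : ℕ} (e : Fin m → Rw n) (v : Fin m → ℂ[X]) (p : Gr n) : (ℂ[X])[X] :=
  ∑ b, C (v b) * (e b p).map C

omit [Fintype ι] [DecidableEq ι] in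
theorem Fa_eval {m : ℕ} (e : Fin m → Rw n) (v : Fin m → ℂ[X]) (ρ : ℂ[X]) (p : Gr n) :
    (Fa e v p).eval ρ = ∑ b, v b * el ρ p (e b) := by
  rw [Fa, eval_finsetSum]
  refine Finset.sum_congr rfl fun b _ => ?_
  rw [eval_mul, eval_C, el_apply]

omit [Fintype ι] [DecidableEq ι] in
theorem Fa_deriv {m : ℕ} (e : Fin m → Rw n) (v : Fin m → ℂ[X]) (ρ : ℂ[X]) (p : Gr n) :
    (derivative (Fa e v p)).eval ρ = ∑ b, v b * dl ρ p (e b) := by
  rw [Fa, derivative_sum, eval_finsetSum]
  refine Finset.sum_congr rfl fun b _ => ?_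
  rw [derivative_C_mul, eval_mul, eval_C, dl_apply, derivative_map]

omit [Fintype ι] [DecidableEq ι] in
theorem Fa_map {m : ℕ} (e : Fin m → Rw n) (v : Fin m → ℂ[X]) (p : Gr n) :
    (Fa e v p).map (evalRingHom 0) = (∑ b, (v b).eval 0 • e b) p := by
  rw [Fa, Polynomial.map_sum, Finset.sum_apply]
  refine Finset.sum_congr rfl fun b _ => ?_
  have h : ((evalRingHom (0 : ℂ)).comp C : ℂ →+* ℂ) = RingHom.id ℂ := by
    ext x
    simp
  rw [Polynomial.map_mul, map_C, map_map, h, map_id, Pi.smul_apply, smul_eq_C_mul,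
    coe_evalRingHom]

/-- The functionals of the cluster. -/
noncomputable def fu (s : Sh n) (y0 : ℂ) (z : s.Cl × Fin 2 → ℂ) :
    (((s.Cl × Fin 2) × Gr n) ⊕ (s.Cl × Fin 2)) ⊕
      ((Fin (n s.i) ⊕ Fin (n s.j)) ⊕ ((Σ o : ι, Fin (n o)) ⊕ Unit)) → Rw n →ₗ[ℂ] ℂ[X]
  | .inl (.inl (t, p)) => if 1 ≤ st p t.1 then el (C y0 + C (z t) * X) p else 0
  | .inl (.inr t) => dl (C y0 + C (z t) * X) t.1
  | .inr (.inl (.inl l2)) => el (C y0) (Function.update s.ctr s.i l2) +
      (X ^ 3 : ℂ[X]) • el (C y0) (Function.update s.s1 s.i l2)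
  | .inr (.inl (.inr l2)) => el (C y0) (Function.update s.ctr s.j l2) +
      (X ^ 4 : ℂ[X]) • el (C y0) (Function.update s.q s.j l2)
  | .inr (.inr (.inl ⟨o, v⟩)) => if o ≠ s.i ∧ o ≠ s.j then el (C y0) (Function.update s.ctr o v) +
      (X ^ 3 : ℂ[X]) • el (C y0) (Function.update s.s1 o v) +
      (X ^ 4 : ℂ[X]) • el (C y0) (Function.update s.q o v) +
      (X ^ 7 : ℂ[X]) • el (C y0) (Function.update s.q' o v) else 0
  | .inr (.inr (.inr _)) => dl (C y0) s.ctr + (X ^ 3 : ℂ[X]) • dl (C y0) s.s1 +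
      (X ^ 4 : ℂ[X]) • dl (C y0) s.q + (X ^ 7 : ℂ[X]) • dl (C y0) s.q'

theorem fu_lim (hn : ∀ i, 2 ≤ n i) (hL : 3 ≤ Fintype.card ι) (s : Sh n) (y0 : ℂ)
    (z : s.Cl × Fin 2 → ℂ) (hz : Function.Injective z) (hz0 : ∀ t, z t ≠ 0)
    {m : ℕ} (e : Fin m → Rw n) (v : Fin m → ℂ[X])
    (h : ∀ r, ∑ b, v b * fu s y0 z r (e b) = 0) :
    ∑ b, (v b).eval 0 • e b ∈ DV fun p => (X - C y0) ^ s.D p := by
  intro p
  rw [← Fa_map]
  refine clu hn hL s y0 z hz hz0 (Fa e v) ?_ ?_ ?_ ?_ ?_ ?_ p
  · intro t p hp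
    have h1 := h (.inl (.inl (t, p)))
    simp only [fu, if_pos hp] at h1
    rw [Fa_eval, h1]
  · intro t
    have h1 := h (.inl (.inr t))
    simp only [fu] at h1
    rw [Fa_deriv, h1]
  · intro l2
    have h1 := h (.inr (.inl (.inl l2)))
    simp only [fu, LinearMap.add_apply, LinearMap.smul_apply, smul_eq_mul, mul_add,
      Finset.sum_add_distrib, mul_left_comm _ (X ^ _ : ℂ[X]), ← Finset.mul_sum, ← Fa_eval] at h1
    exact h1
  · intro l2
    have h1 := h (.inr (.inl (.inr l2)))
    simp only [fu, LinearMap.add_apply, LinearMap.smul_apply, smul_eq_mul, mul_add,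
      Finset.sum_add_distrib, mul_left_comm _ (X ^ _ : ℂ[X]), ← Finset.mul_sum, ← Fa_eval] at h1
    exact h1
  · intro o hoi hoj v
    have h1 := h (.inr (.inr (.inl ⟨o, v⟩)))
    simp only [fu, if_pos (And.intro hoi hoj), LinearMap.add_apply, LinearMap.smul_apply,
      smul_eq_mul, mul_add, Finset.sum_add_distrib, mul_left_comm _ (X ^ _ : ℂ[X]),
      ← Finset.mul_sum, ← Fa_eval] at h1
    exact h1
  · have h1 := h (.inr (.inr (.inr ())))
    simp only [fu, LinearMap.add_apply, LinearMap.smul_apply, smul_eq_mul, mul_add,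
      Finset.sum_add_distrib, mul_left_comm _ (X ^ _ : ℂ[X]), ← Finset.mul_sum, ← Fa_deriv] at h1
    exact h1

theorem fu_zero (s : Sh n) (y0 ε : ℂ) (z : s.Cl × Fin 2 → ℂ) {F : Rw n}
    (h1 : ∀ t, F ∈ DB (un t.1 (y0 + z t * ε))) (h2 : F ∈ DB (sp s ε, y0)) (r) :
    (fu s y0 z r F).eval ε = 0 := by
  obtain ⟨ha, hb, hc, hd⟩ := sp_mem s ε y0 h2
  obtain (((⟨t, p⟩ | t) | ((l2 | l2) | (⟨o, v⟩ | u)))) := r
  · simp only [fu]
    split_ifs with hp
    · rw [leval_el]
      have := (un_mem (h1 t)).1 p hp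
      simpa using this
    · simp
  · simp only [fu, leval_dl]
    have := (un_mem (h1 t)).2
    simpa using this
  · have := ha l2
    simp only [fu, LinearMap.add_apply, LinearMap.smul_apply, smul_eq_mul, eval_add, eval_mul,
      eval_pow, eval_X, leval_el, eval_C]
    exact this
  · have := hb l2
    simp only [fu, LinearMap.add_apply, LinearMap.smul_apply, smul_eq_mul, eval_add, eval_mul,
      eval_pow, eval_X, leval_el, eval_C]
    exact this
  · simp only [fu]
    split_ifs with ho
    · have := hc o ho.1 ho.2 v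
      simp only [LinearMap.add_apply, LinearMap.smul_apply, smul_eq_mul, eval_add, eval_mul,
        eval_pow, eval_X, leval_el, eval_C]
      exact this
    · simp
  · simp only [fu, LinearMap.add_apply, LinearMap.smul_apply, smul_eq_mul, eval_add, eval_mul,
      eval_pow, eval_X, leval_dl, eval_C]
    exact hd

end fam

/-- `lim` with `W = DV ((X - y0) ^ D p)`, the functionals of the unit points at `y0 + ε z_t`,
`t : Cl × Fin 2` (`un_mem`), and of `sp s ε` at `y0` (`sp_mem`); the hypothesis of `lim` is `clu`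
for `F p = ∑_b C (v b) * map C (e b p)`. -/
theorem Ach.shift (hn : ∀ i, 2 ≤ n i) (hL : 3 ≤ Fintype.card ι) (s : Sh n) : Ach s.m s.D := by
  intro bad
  obtain ⟨y0, hy0⟩ := Infinite.exists_notMem_finset bad
  refine ⟨fun p => (X - C y0) ^ s.D p, fun p => (monic_X_sub_C y0).pow _, fun p => by simp,
    fun p z hz => ?_, ?_⟩
  · rw [eval_pow, eval_sub, eval_X, eval_C]
    refine pow_ne_zero _ fun h => hy0 ?_
    rw [← sub_eq_zero.1 h]
    exact hz
  intro V hV
  let eT := Fintype.equivFin (s.Cl × Fin 2)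
  let z : s.Cl × Fin 2 → ℂ := fun t => ((eT t : ℕ) : ℂ) + 1
  have hz : Function.Injective z := by
    intro t t' h
    have h' : ((eT t : ℕ) : ℂ) = ((eT t' : ℕ) : ℂ) := add_right_cancel h
    exact eT.injective (Fin.ext (Nat.cast_injective h'))
  have hz0 : ∀ t, z t ≠ 0 := fun t => Nat.cast_add_one_ne_zero _
  obtain ⟨ε, hε, hle⟩ := lim V (DV fun p => (X - C y0) ^ s.D p) (fu s y0 z)
    (fun m e v _ h => fu_lim hn hL s y0 z hz hz0 e v h)
    ((1 + X ^ 3 : ℂ[X]).roots.toFinset ∪ (1 + X ^ 4 : ℂ[X]).roots.toFinset)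
  have h30 : (1 + X ^ 3 : ℂ[X]) ≠ 0 := by
    intro h
    have := congrArg (Polynomial.eval 0) h
    simp at this
  have h40 : (1 + X ^ 4 : ℂ[X]) ≠ 0 := by
    intro h
    have := congrArg (Polynomial.eval 0) h
    simp at this
  have h3 : 1 + ε ^ 3 ≠ 0 := by
    intro h
    apply hε
    rw [Finset.mem_union, Multiset.mem_toFinset, mem_roots h30]
    left
    simpa [IsRoot] using h
  have h4 : 1 + ε ^ 4 ≠ 0 := by
    intro h
    apply hε
    rw [Finset.mem_union, Multiset.mem_toFinset, Multiset.mem_toFinset, mem_roots h40]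
    right
    simpa [IsRoot] using h
  let P0 : Option (s.Cl × Fin 2) → Pt n := fun o =>
    o.elim (sp s ε, y0) fun t => un t.1 (y0 + z t * ε)
  have hcard : Fintype.card (Option (s.Cl × Fin 2)) = s.m := by
    rw [Fintype.card_option, Fintype.card_prod, Fintype.card_coe, Fintype.card_fin, Sh.m]
    ring
  let eO := Fintype.equivFinOfCardEq hcard
  refine ⟨fun k => P0 (eO.symm k), fun k => ?_, le_trans (Submodule.finrank_mono ?_) hle⟩
  · have hg : ∀ o, Good (P0 o) := by
      rintro (_ | t)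
      · exact sp_good s h3 h4 y0
      · exact un_good _ _
    exact hg _
  · intro F hF
    rw [Submodule.mem_inf, Submodule.mem_iInf] at hF
    rw [E.mem_Z]
    refine ⟨hF.1, fun r => ?_⟩
    rw [LinearMap.comp_apply, leval_apply]
    refine fu_zero s y0 ε z (fun t => ?_) ?_ r
    · have h5 : F ∈ DB (P0 (eO.symm (eO (some t)))) := hF.2 (eO (some t))
      rw [Equiv.symm_apply_apply] at h5
      exact h5
    · have h5 : F ∈ DB (P0 (eO.symm (eO none))) := hF.2 (eO none)
      rw [Equiv.symm_apply_apply] at h5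
      exact h5

end Pool.Agent.SV.C
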